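import Pool.Agent.Helper97.Hilb8.ChartDefs

/-!
# Chart d
-/

namespace Pool.Agent.Helper28.Hilb8

open Pool.Agent.Helper97.Hilb8

/-- Exponent vectors in chart d: basis `1,x₁,x₂,x₃,x₄,x₁x₂,x₁x₃,x₂x₃`. -/
def monoD : List (List ℕ) :=
  [[0,0,0,0],[1,0,0,0],[0,1,0,0],[0,0,1,0],[0,0,0,1],[1,1,0,0],[1,0,1,0],[0,1,1,0],
   [2,0,0,0],[1,0,0,1],[0,2,0,0],[0,1,0,1],[0,0,2,0],[0,0,1,1],[0,0,0,2],[2,1,0,0],
   [2,0,1,0],[1,2,0,0],[1,1,1,0],[1,1,0,1],[1,0,2,0],[1,0,1,1],[0,2,1,0],[0,1,2,0],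
   [0,1,1,1]]

/-- Successor table of chart d. -/
def nxtD : List (List ℕ) :=
  [[1,8,5,6,9,15,16,18],[2,5,10,7,11,17,18,22],[3,6,7,12,13,18,20,23],[4,9,11,13,14,19,21,24]]

/-- Chart d. -/
def chartD : Chart where
  nb := 17
  mono := fun n i => (monoD.getD n []).getD i 0
  nxt := fun i c => (nxtD.getD i []).getD c 0
  nxt_lt := by decide
  mono_zero := by decide
  mono_nxt := by decide
  pred := by decide
  border := by decide

end Pool.Agent.Helper28.Hilb8
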