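import Pool.Agent.Helper28.Hilb8.D.CommTab
import Pool.Agent.Helper97.Hilb8.Charts

/-!
# Lowest forms of the commutators in chart d: soundness
-/

namespace Pool.Agent.Helper28.Hilb8.D

open MvPolynomial Pool.Agent.Helper97.Hilb8

section Lists

variable {R : Type*} [CommRing R] (x : ℕ → R)

/-- The value of a list of coded pairs. -/
def evl (l : List ℕ) : R := (l.map fun p => x (p / 256) * x (p % 256)).sum

/-- The sum of the variables of a list. -/
def sumL (l : List ℕ) : R := (l.map x).sum

theorem evl_nil : evl x [] = 0 := rfl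

theorem evl_cons (p : ℕ) (l : List ℕ) : evl x (p :: l) = x (p / 256) * x (p % 256) + evl x l := by
  unfold evl
  rw [List.map_cons, List.sum_cons]

theorem sumL_nil : sumL x [] = 0 := rfl

theorem sumL_cons (p : ℕ) (l : List ℕ) : sumL x (p :: l) = x p + sumL x l := by
  unfold sumL
  rw [List.map_cons, List.sum_cons]

variable (h2 : (2 : R) = 0)

include h2 in
theorem add_self (a : R) : a + a = 0 := by
  rw [← two_mul, h2, zero_mul]

include h2 in
theorem evl_tog (p : ℕ) (l : List ℕ) :
    evl x (tog p l) = x (p / 256) * x (p % 256) + evl x l := by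
  induction l with
  | nil => rfl
  | cons q l ih =>
    unfold tog
    split_ifs with h
    · have h1 : p = q := Nat.eq_of_beq_eq_true h
      rw [evl_cons, h1, ← add_assoc, add_self h2, zero_add]
    · rw [evl_cons, evl_cons, ih]
      ring

theorem val_cod {a b : ℕ} (ha : a < 256) (hb : b < 256) :
    x (cod a b / 256) * x (cod a b % 256) = x a * x b := by
  unfold cod
  split_ifs
  · rw [show (256 * a + b) / 256 = a by omega, show (256 * a + b) % 256 = b by omega]
  · rw [show (256 * b + a) / 256 = b by omega, show (256 * b + a) % 256 = a by omega, mul_comm]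

include h2 in
theorem evl_addc (h255 : x 255 = 0) {a b : ℕ} (ha : a < 256) (hb : b < 256) (acc : List ℕ) :
    evl x (addc a b acc) = x a * x b + evl x acc := by
  unfold addc
  split_ifs with h1 h3
  · rw [Nat.eq_of_beq_eq_true h1, h255, zero_mul, zero_add]
  · rw [Nat.eq_of_beq_eq_true h3, h255, mul_zero, zero_add]
  · rw [evl_tog x h2, val_cod x ha hb]

include h2 in
theorem evl_addL (h255 : x 255 = 0) (h254 : x 254 = 1) (L acc : List ℕ) (hL : ∀ u ∈ L, u < 256) :
    evl x (addL L acc) = sumL x L + evl x acc := by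
  unfold addL
  induction L with
  | nil => rw [List.foldr_nil, sumL_nil, zero_add]
  | cons u L ih =>
    rw [List.foldr_cons, evl_addc x h2 h255 (hL u (List.mem_cons_self)) (by norm_num),
      ih fun v hv => hL v (List.mem_cons_of_mem _ hv), h254, mul_one, sumL_cons]
    ring

end Lists

theorem ent_lt : ∀ i < 4, ∀ r < 8, ∀ c < 8, ent i r c < 256 := by decide

section Chart

variable (k : Type*) [Field k]

/-- The coordinate ring of the affine space of chart d. -/
abbrev SD := MvPolynomial (Fin (8 * chartD.nb)) k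

/-- The variables of chart d, with `254` for the constant 1. -/
noncomputable def Xv (v : ℕ) : SD k :=
  if h : v < 8 * chartD.nb then X ⟨v, h⟩ else if v = 254 then 1 else 0

/-- The model variables, with `254` for the constant 1. -/
noncomputable def Yv (v : ℕ) : MvPolynomial (Fin 42) k :=
  if h : v < 42 then X ⟨v, h⟩ else if v = 254 then 1 else 0

theorem Xv_254 : Xv k 254 = 1 := by
  unfold Xv
  rw [dif_neg (by decide), if_pos rfl]

theorem Xv_255 : Xv k 255 = 0 := by
  unfold Xv
  rw [dif_neg (by decide), if_neg (by decide)]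

theorem Yv_255 : Yv k 255 = 0 := by
  unfold Yv
  rw [dif_neg (by decide), if_neg (by decide)]

theorem Xv_lt {v : ℕ} (h : v < 8 * chartD.nb) : Xv k v = X ⟨v, h⟩ := by
  unfold Xv
  rw [dif_pos h]

theorem mat_ent (i : Fin 4) (r c : Fin 8) :
    chartD.mat (chartD.var k) i r c = Xv k (ent i r c) := by
  have hlt := chartD.nxt_lt i c
  have hn : (nxtD.getD i []).getD c 0 = chartD.nxt i c := rfl
  unfold Chart.mat ent
  rw [Matrix.of_apply, hn]
  simp only
  split_ifs with h1 h3
  · rw [Xv_254]
  · rw [Xv_255]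
  · have h4 : 8 * (chartD.nxt i c - 8) + (r : ℕ) < 8 * chartD.nb := by omega
    rw [Xv_lt k h4]
    unfold Chart.var
    rw [dif_pos h4]

variable {k} (h2 : (2 : k) = 0)

include h2 in
theorem two_S : (2 : SD k) = 0 := by
  have : (2 : SD k) = C (2 : k) := by rw [map_ofNat]
  rw [this, h2, C_0]

include h2 in
theorem two_R : (2 : MvPolynomial (Fin 42) k) = 0 := by
  have : (2 : MvPolynomial (Fin 42) k) = C (2 : k) := by rw [map_ofNat]
  rw [this, h2, C_0]

include h2 in
theorem commN_eq (i j : Fin 4) (r c : Fin 8) (acc : List ℕ) :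
    evl (Xv k) (commN i j r c [0, 1, 2, 3, 4, 5, 6, 7] acc) =
      (chartD.mat (chartD.var k) i * chartD.mat (chartD.var k) j -
        chartD.mat (chartD.var k) j * chartD.mat (chartD.var k) i) r c + evl (Xv k) acc := by
  have hs := two_S h2
  have hstep : ∀ (l : ℕ), l < 8 → ∀ acc : List ℕ,
      evl (Xv k) (addc (ent i r l) (ent j l c) (addc (ent j r l) (ent i l c) acc)) =
      Xv k (ent i r l) * Xv k (ent j l c) + (Xv k (ent j r l) * Xv k (ent i l c) +
        evl (Xv k) acc) := by
    intro l hl acc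
    rw [evl_addc _ hs (Xv_255 k) (ent_lt i i.2 r r.2 l hl) (ent_lt j j.2 l hl c c.2),
      evl_addc _ hs (Xv_255 k) (ent_lt j j.2 r r.2 l hl) (ent_lt i i.2 l hl c c.2)]
  have hneg : ∀ a b : SD k, a - b = a + b := fun a b => by
    have : a - b = a + b - (2 : SD k) * b := by ring
    rw [this, hs, zero_mul, sub_zero]
  rw [Matrix.sub_apply, hneg, Matrix.mul_apply, Matrix.mul_apply, Fin.sum_univ_eight,
    Fin.sum_univ_eight]
  simp only [mat_ent]
  unfold commN
  simp only [List.foldr_cons, List.foldr_nil]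
  rw [hstep 0 (by norm_num), hstep 1 (by norm_num), hstep 2 (by norm_num), hstep 3 (by norm_num),
    hstep 4 (by norm_num), hstep 5 (by norm_num), hstep 6 (by norm_num), hstep 7 (by norm_num)]
  have e0 : ((0 : Fin 8) : ℕ) = 0 := rfl
  have e1 : ((1 : Fin 8) : ℕ) = 1 := rfl
  have e2 : ((2 : Fin 8) : ℕ) = 2 := rfl
  have e3 : ((3 : Fin 8) : ℕ) = 3 := rfl
  have e4 : ((4 : Fin 8) : ℕ) = 4 := rfl
  have e5 : ((5 : Fin 8) : ℕ) = 5 := rfl
  have e6 : ((6 : Fin 8) : ℕ) = 6 := rfl
  have e7 : ((7 : Fin 8) : ℕ) = 7 := rfl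
  rw [e0, e1, e2, e3, e4, e5, e6, e7]
  ring

include h2 in
theorem combN_mem (L : List ℕ) (hL : ∀ t ∈ L, t / 512 < 4 ∧ t / 64 % 8 < 4) (acc : List ℕ) :
    ∃ f ∈ chartD.ideal k, evl (Xv k) (combN L acc) = f + evl (Xv k) acc := by
  induction L with
  | nil => exact ⟨0, Ideal.zero_mem _, by rw [zero_add]; rfl⟩
  | cons t L ih =>
    obtain ⟨f, hf, he⟩ := ih fun u hu => hL u (List.mem_cons_of_mem _ hu)
    obtain ⟨h3, h4⟩ := hL t List.mem_cons_self
    have h5 := commN_eq h2 ⟨t / 512, h3⟩ ⟨t / 64 % 8, h4⟩ ⟨t / 8 % 8, Nat.mod_lt _ (by norm_num)⟩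
      ⟨t % 8, Nat.mod_lt _ (by norm_num)⟩ (combN L acc)
    refine ⟨_ + f, Ideal.add_mem _ (Ideal.subset_span ⟨⟨t / 512, h3⟩, ⟨t / 64 % 8, h4⟩,
      ⟨t / 8 % 8, Nat.mod_lt _ (by norm_num)⟩, ⟨t % 8, Nat.mod_lt _ (by norm_num)⟩, rfl⟩) hf, ?_⟩
    have h6 : combN (t :: L) acc = commN (t / 512) (t / 64 % 8) (t / 8 % 8) (t % 8)
      [0, 1, 2, 3, 4, 5, 6, 7] (combN L acc) := rfl
    rw [h6]
    simp only at h5
    rw [h5, he, add_assoc]

theorem hom_evl (l : List ℕ) (hl : allQ 136 l = true) : (evl (Xv k) l).IsHomogeneous 2 := by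
  induction l with
  | nil => exact isHomogeneous_zero _ _ _
  | cons p l ih =>
    unfold allQ at hl
    rw [List.all_cons, Bool.and_eq_true, Bool.and_eq_true] at hl
    obtain ⟨⟨h3, h4⟩, h5⟩ := hl
    have h6 : p / 256 < 8 * chartD.nb := Nat.blt_eq.mp h3
    have h7 : p % 256 < 8 * chartD.nb := Nat.blt_eq.mp h4
    rw [evl_cons, Xv_lt k h6, Xv_lt k h7]
    exact ((isHomogeneous_X _ _).mul (isHomogeneous_X _ _)).add (ih h5)

theorem hom_sumL (l : List ℕ) (hl : ∀ u ∈ l, u < 136) : (sumL (Xv k) l).IsHomogeneous 1 := by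
  induction l with
  | nil => exact isHomogeneous_zero _ _ _
  | cons p l ih =>
    have h6 : p < 8 * chartD.nb := hl p List.mem_cons_self
    rw [sumL_cons, Xv_lt k h6]
    exact (isHomogeneous_X _ _).add (ih fun u hu => hl u (List.mem_cons_of_mem _ hu))

theorem wt_of_hom {g : SD k} {d : ℕ} (hg : g.IsHomogeneous d) :
    ∀ e ∈ g.support, wt (fun _ => 1) e = d := by
  intro e he
  rw [TopAux.wt_eq_weight]
  exact hg (mem_support_iff.mp he)

/-- The ideal of the lowest forms. -/
noncomputable def Jt (k : Type*) [Field k] : Ideal (SD k) :=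
  Ideal.span {g | ∃ f ∈ chartD.ideal k, ∃ d, IsBot (fun _ => 1) f g d}

/-- The elimination of the linear forms. -/
noncomputable def piD (k : Type*) [Field k] : SD k →ₐ[k] MvPolynomial (Fin 42) k :=
  aeval fun v => sumL (Yv k) (toR.getD v [])

/-- The linear forms of the model variables. -/
noncomputable def iotaD (k : Type*) [Field k] : MvPolynomial (Fin 42) k →ₐ[k] SD k :=
  aeval fun i => sumL (Xv k) (toS.getD i [])

theorem toR_lt : ∀ l ∈ toR, ∀ i ∈ l, i < 42 := by decide +kernel

theorem toS_lt : ∀ l ∈ toS, ∀ i ∈ l, i < 136 := by decide +kernel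

theorem linC_ok : ∀ l ∈ linC, ∀ t ∈ l, t / 512 < 4 ∧ t / 64 % 8 < 4 := by decide +kernel

theorem quadC_ok : ∀ l ∈ quadC, ∀ t ∈ l, t / 512 < 4 ∧ t / 64 % 8 < 4 := by decide +kernel

theorem getD_prop {P : ℕ → Prop} (T : List (List ℕ)) (h : ∀ l ∈ T, ∀ i ∈ l, P i) (v : ℕ) :
    ∀ i ∈ T.getD v [], P i := by
  intro i hi
  rw [List.getD_eq_getElem?_getD] at hi
  cases h1 : T[v]? with
  | none => rw [h1] at hi; simp at hi
  | some l =>
    rw [h1] at hi
    exact h l (List.mem_of_getElem? h1) i hi

theorem iota_Y {i : ℕ} (hi : i < 42) : iotaD k (Yv k i) = sumL (Xv k) (toS.getD i []) := by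
  unfold Yv iotaD
  rw [dif_pos hi, aeval_X]

theorem iota_sumL (l : List ℕ) (hl : ∀ i ∈ l, i < 42) :
    iotaD k (sumL (Yv k) l) = (l.map fun i => sumL (Xv k) (toS.getD i [])).sum := by
  induction l with
  | nil => rw [sumL_nil, map_zero]; rfl
  | cons i l ih =>
    rw [sumL_cons, map_add, iota_Y (hl i List.mem_cons_self),
      ih fun u hu => hl u (List.mem_cons_of_mem _ hu), List.map_cons, List.sum_cons]

include h2 in
theorem lin_mem (v : Fin (8 * chartD.nb)) : (X v : SD k) - iotaD k (piD k (X v)) ∈ Jt k := by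
  have hs := two_S h2
  have hv : (v : ℕ) < 136 := v.2
  have hchk : chkLin v = true := by
    have := chkLin_all
    rw [List.all_eq_true] at this
    exact this v (List.mem_range.mpr hv)
  unfold chkLin at hchk
  obtain ⟨f, hf, he⟩ := combN_mem h2 (linC.getD v []) (getD_prop linC linC_ok v) (addc v 254
    ((toR.getD v []).foldr (fun i acc => addL (toS.getD i []) acc) []))
  have hfold : ∀ l : List ℕ, (∀ i ∈ l, i < 42) →
      evl (Xv k) (l.foldr (fun i acc => addL (toS.getD i []) acc) []) =
        iotaD k (sumL (Yv k) l) := by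
    intro l hl
    induction l with
    | nil => rw [sumL_nil, map_zero]; rfl
    | cons i l ih =>
      rw [List.foldr_cons, evl_addL _ hs (Xv_255 k) (Xv_254 k) _ _
        (fun u hu => by have := getD_prop toS toS_lt i u hu; omega),
        ih fun u hu => hl u (List.mem_cons_of_mem _ hu), sumL_cons, map_add,
        iota_Y (hl i List.mem_cons_self)]
  rw [evl_addc _ hs (Xv_255 k) (by omega) (by norm_num), Xv_254, mul_one, Xv_lt k v.2,
    hfold _ (getD_prop toR toR_lt v)] at he
  have hpi : piD k (X v) = sumL (Yv k) (toR.getD v []) := by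
    unfold piD
    rw [aeval_X]
  have hg : (X v + iotaD k (sumL (Yv k) (toR.getD v [])) : SD k).IsHomogeneous 1 := by
    refine (isHomogeneous_X _ _).add ?_
    rw [iota_sumL _ (getD_prop toR toR_lt v)]
    have h5 : ∀ l : List ℕ,
        ((l.map fun i => sumL (Xv k) (toS.getD i [])).sum : SD k).IsHomogeneous 1 := by
      intro l
      induction l with
      | nil => exact isHomogeneous_zero _ _ _
      | cons i l ih =>
        rw [List.map_cons, List.sum_cons]
        exact (hom_sumL _ (getD_prop toS toS_lt i)).add ih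
    exact h5 _
  rw [hpi]
  have hneg : (X v : SD k) - iotaD k (sumL (Yv k) (toR.getD v [])) =
      X v + iotaD k (sumL (Yv k) (toR.getD v [])) := by
    rw [sub_eq_iff_eq_add, add_assoc, add_self hs, add_zero]
  rw [hneg]
  apply Ideal.subset_span
  refine ⟨f, hf, 1, wt_of_hom hg, ?_⟩
  have h6 : f - (X v + iotaD k (sumL (Yv k) (toR.getD v []))) =
      evl (Xv k) (combN (linC.getD v []) (addc v 254
        ((toR.getD v []).foldr (fun i acc => addL (toS.getD i []) acc) []))) := by
    rw [he, sub_eq_iff_eq_add, add_assoc, add_self hs, add_zero]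
  rw [h6]
  intro e hee
  rw [wt_of_hom (hom_evl _ hchk) e hee]
  norm_num

include h2 in
/-- Every polynomial is congruent to its elimination. -/
theorem sub_iota_pi (p : SD k) : p - iotaD k (piD k p) ∈ Jt k := by
  induction p using MvPolynomial.induction_on with
  | C c =>
    have h1 : iotaD k (piD k (C c)) = C c := by
      have : (C c : SD k) = algebraMap k _ c := rfl
      rw [this, AlgHom.commutes, AlgHom.commutes]
    rw [h1, sub_self]
    exact Ideal.zero_mem _
  | add p q hp hq =>
    have : p + q - iotaD k (piD k (p + q)) =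
        (p - iotaD k (piD k p)) + (q - iotaD k (piD k q)) := by
      rw [map_add, map_add]; ring
    rw [this]
    exact Ideal.add_mem _ hp hq
  | mul_X p v hp =>
    have : p * X v - iotaD k (piD k (p * X v)) = (p - iotaD k (piD k p)) * X v +
        iotaD k (piD k p) * (X v - iotaD k (piD k (X v))) := by
      rw [map_mul, map_mul]; ring
    rw [this]
    exact Ideal.add_mem _ (Ideal.mul_mem_right _ _ hp) (Ideal.mul_mem_left _ _ (lin_mem h2 v))

theorem pi_X {v : ℕ} (hv : v < 136) : piD k (Xv k v) = sumL (Yv k) (toR.getD v []) := by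
  rw [Xv_lt k hv]
  unfold piD
  rw [aeval_X]

include h2 in
theorem evl_expN (l : List ℕ) (hl : allQ 136 l = true) (acc : List ℕ) :
    evl (Yv k) (expN l acc) = piD k (evl (Xv k) l) + evl (Yv k) acc := by
  have hr := two_R h2
  induction l with
  | nil => rw [evl_nil, map_zero, zero_add]; rfl
  | cons p l ih =>
    unfold allQ at hl
    rw [List.all_cons, Bool.and_eq_true, Bool.and_eq_true] at hl
    obtain ⟨⟨h3, h4⟩, h5⟩ := hl
    have h6 : p / 256 < 136 := Nat.blt_eq.mp h3
    have h7 : p % 256 < 136 := Nat.blt_eq.mp h4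
    have hin : ∀ (i : ℕ), i < 42 → ∀ (m : List ℕ), (∀ u ∈ m, u < 42) → ∀ acc : List ℕ,
        evl (Yv k) (m.foldr (fun i' acc => addc i i' acc) acc) =
          Yv k i * sumL (Yv k) m + evl (Yv k) acc := by
      intro i hi m hm acc
      induction m with
      | nil => rw [sumL_nil, mul_zero, zero_add]; rfl
      | cons u m ihm =>
        have hu := hm u List.mem_cons_self
        rw [List.foldr_cons, evl_addc _ hr (Yv_255 k) (by omega) (by omega),
          ihm fun w hw => hm w (List.mem_cons_of_mem _ hw), sumL_cons]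
        ring
    have hout : ∀ (m m' : List ℕ), (∀ u ∈ m, u < 42) → (∀ u ∈ m', u < 42) → ∀ acc : List ℕ,
        evl (Yv k) (m.foldr (fun i acc => m'.foldr (fun i' acc => addc i i' acc) acc) acc) =
          sumL (Yv k) m * sumL (Yv k) m' + evl (Yv k) acc := by
      intro m m' hm hm' acc
      induction m with
      | nil => rw [sumL_nil, zero_mul, zero_add]; rfl
      | cons u m ihm =>
        rw [List.foldr_cons, hin u (hm u List.mem_cons_self) m' hm',
          ihm fun w hw => hm w (List.mem_cons_of_mem _ hw), sumL_cons]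
        ring
    have h8 : expN (p :: l) acc = (toR.getD (p / 256) []).foldr (fun i acc =>
      (toR.getD (p % 256) []).foldr (fun i' acc => addc i i' acc) acc) (expN l acc) := rfl
    rw [h8, hout _ _ (getD_prop toR toR_lt _) (getD_prop toR toR_lt _), ih h5, evl_cons, map_add,
      map_mul, pi_X h6, pi_X h7]
    ring

include h2 in
/-- The 29 quadrics are lowest forms. -/
theorem iota_quad (j : ℕ) (hj : j < 29) : iotaD k (evl (Yv k) (quadL.getD j [])) ∈ Jt k := by
  have hr := two_R h2
  have hchk : chkQuad j = true := by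
    have := chkQuad_all
    rw [List.all_eq_true] at this
    exact this j (List.mem_range.mpr hj)
  unfold chkQuad at hchk
  rw [Bool.and_eq_true] at hchk
  obtain ⟨h3, h4⟩ := hchk
  obtain ⟨f, hf, he⟩ := combN_mem h2 (quadC.getD j []) (getD_prop quadC quadC_ok j) []
  rw [evl_nil, add_zero] at he
  have hfJ : f ∈ Jt k := by
    apply Ideal.subset_span
    refine ⟨f, hf, 2, ?_, ?_⟩
    · rw [← he]
      exact wt_of_hom (hom_evl _ h3)
    · rw [sub_self]
      intro e hee
      simp at hee
  have h5 := evl_expN h2 _ h3 (quadL.getD j [])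
  rw [List.isEmpty_iff.mp h4, evl_nil, he] at h5
  have h6 : evl (Yv k) (quadL.getD j []) = piD k f := by
    have h7 : evl (Yv k) (quadL.getD j []) =
        piD k f + (piD k f + evl (Yv k) (quadL.getD j [])) := by
      rw [← add_assoc, add_self hr, zero_add]
    rw [h7, ← h5, add_zero]
  rw [h6]
  have h8 := sub_iota_pi h2 f
  have h9 : iotaD k (piD k f) = f - (f - iotaD k (piD k f)) := by ring
  rw [h9]
  exact Ideal.sub_mem _ hfJ h8

end Chart

end Pool.Agent.Helper28.Hilb8.D
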