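import Pool.Agent.Helper28.Hilb8.Low
import Pool.Agent.Helper28.Hilb8.D.ChartD

/-!
# Lowest forms of the commutators in chart d (characteristic 2, all weights 1)

Polynomials of degree at most 2 with coefficients in the prime field are lists of coded pairs of
indices; the index 254 stands for the constant 1 and 255 for 0.
-/

namespace Pool.Agent.Helper28.Hilb8.D

/-- Linear forms of the model variables for the variables of the chart. -/
def toR : List (List ℕ) :=
  [[],[0,18],[1],[2],[3],[26],[27],[28],[],[41],[],[],[0,38],[16,36],[15,35],[4],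
   [],[5],[6,21],[7],[8],[29],[30],[31],[],[],[41],[],[6,39],[19,37],[9],[35],
   [],[10],[11],[12,23],[13],[32],[33],[34],[],[],[],[41],[12,40],[14],[37],[36],
   [],[],[],[],[24],[22],[20],[17],[],[],[],[],[],[0,18],[],[2],[],[],[],[],
   [],[],[0,18],[1],[],[],[],[],[],[6,21],[7],[],[],[],[],[],[25],[40],[39],
   [38],[],[],[],[],[],[41],[],[],[],[],[],[],[],[11],[12,23],[],[],[],[],
   [],[],[],[41],[],[],[],[],[],[],[],[5],[6,21],[],[],[],[],[],[10],[],
   [12,23],[],[],[],[],[],[],[],[41]]

/-- Linear forms of the chart variables for the model variables. -/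
def toS : List (List ℕ) :=
  [[12,87],[2],[3],[4],[15],[17],[28,86],[19],[20],[30],[33],[34],[44,85],[36],
   [45],[14,31],[13,47],[55],[1,12,87],[29,46],[54],[18,28,86],[53],[35,44,85],[52],
   [84],[5],[6],[7],[21],[22],[23],[37],[38],[39],[31],[47],[46],[87],[86],[85],
   [9]]

/-- Combinations of commutators for the linear forms. -/
def linC : List (List ℕ) :=
  [[126,153],[],[],[],[],[],[],[],[84],[],[188],[124],[],[],[],[],[119,666],[],
   [],[],[],[],[],[],[76],[692],[108],[116],[],[],[],[],[175,659],[],[],[],[],
   [],[],[],[140],[684],[172],[180],[],[],[],[],[204],[748],[236],[244],[],[],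
   [],[],[65],[73],[81,126,153],[89],[97],[105],[113],[121],[86],[137],[145],[126],
   [161],[169],[177],[185],[66],[74,119,666],[82],[90],[98],[106],[114],[122],[78],
   [111,658],[110,137],[118],[],[],[],[],[194],[76,202],[210],[218],[226],[108,234],
   [116,242],[250],[131],[139,175,659],[147],[155],[163],[171],[179],[187],[195],
   [140,203],[211],[219],[227],[172,235],[180,243],[251],[79],[650],[658],[119],
   [674],[682],[690],[698],[143],[651],[175],[111,183,658],[675],[683],[691],[699],
   [207],[715],[239],[247],[739],[684,747],[755],[180,763]]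

/-- Combinations of commutators for the quadrics. -/
def quadC : List (List ℕ) :=
  [[100],[164],[255],[102],[676],[758],[103],[1261],[167],[78,231],[249],[124,241],
   [188,233],[252],[126,153,225],[116,762],[754],[692,746],[756],[119,666,738],
   [172,1275],[684,1267],[1259],[1260],[175,659,1251],[748,1268],[236,1276],[244,764],
   [108,180,700]]

/-- The 29 quadrics. -/
def quadL : List (List ℕ) :=
  [[3865],[4121],[4377],[4633],[4889],[5145],[5401],[5657],[5913],[6169],
   [528,1042,785,271],[531,15,1045,788],[16,1047,275,790],[17,534,276,1048],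
   [18,535,277,792],[1551,2322,2065,1808],[2325,2068,1811,1295],[1555,2327,2070,1296],
   [1556,1297,2328,1814],[1557,1815,1298,2072],[3345,3602,3088,2831],[3348,3091,3605,2575],
   [3350,3607,2835,2576],[3094,2836,2577,3608],[3095,2578,3352,2837],[5143,5398,4888],
   [4375,4630,4120],[4628,4373,3864],[4627,3863,4117]]

/-- The Pfaffian `f0`. -/
def f0L : List ℕ := [4371, 4116, 3862]

/-- Toggle an element of a list. -/
def tog (p : ℕ) : List ℕ → List ℕ
  | [] => [p]
  | q :: l => if Nat.beq p q then l else q :: tog p l

/-- The code of an unordered pair. -/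
def cod (a b : ℕ) : ℕ := if Nat.ble a b then 256 * a + b else 256 * b + a

/-- Add a product of two variables. -/
def addc (a b : ℕ) (acc : List ℕ) : List ℕ :=
  if Nat.beq a 255 then acc else if Nat.beq b 255 then acc else tog (cod a b) acc

/-- The code of an entry of a multiplication matrix. -/
def ent (i r c : ℕ) : ℕ :=
  let n := (nxtD.getD i []).getD c 0
  if n < 8 then (if n = r then 254 else 255) else 8 * (n - 8) + r

/-- Add an entry of a commutator, terms `l` from the list. -/
def commN (i j r c : ℕ) (ls : List ℕ) (acc : List ℕ) : List ℕ :=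
  ls.foldr (fun l acc => addc (ent i r l) (ent j l c) (addc (ent j r l) (ent i l c) acc)) acc

/-- Add a sum of entries of commutators. -/
def combN (L : List ℕ) (acc : List ℕ) : List ℕ :=
  L.foldr (fun t acc => commN (t / 512) (t / 64 % 8) (t / 8 % 8) (t % 8)
    [0, 1, 2, 3, 4, 5, 6, 7] acc) acc

/-- Add a sum of variables. -/
def addL (L : List ℕ) (acc : List ℕ) : List ℕ := L.foldr (fun u acc => addc u 254 acc) acc

/-- All terms are products of two variables with numbers `< n`. -/
def allQ (n : ℕ) (l : List ℕ) : Bool :=
  l.all fun p => Nat.blt (p / 256) n && Nat.blt (p % 256) n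

/-- Check for the variable number `v`. -/
def chkLin (v : ℕ) : Bool :=
  allQ 136 (combN (linC.getD v []) (addc v 254
    ((toR.getD v []).foldr (fun i acc => addL (toS.getD i []) acc) [])))

/-- Expand the products in the model variables. -/
def expN (l : List ℕ) (acc : List ℕ) : List ℕ :=
  l.foldr (fun p acc => (toR.getD (p / 256) []).foldr (fun i acc =>
    (toR.getD (p % 256) []).foldr (fun i' acc => addc i i' acc) acc) acc) acc

/-- Check for the quadric number `j`. -/
def chkQuad (j : ℕ) : Bool :=
  allQ 136 (combN (quadC.getD j []) []) &&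
    (expN (combN (quadC.getD j []) []) (quadL.getD j [])).isEmpty

theorem chkLin_all : (List.range 136).all chkLin = true := by decide +kernel

theorem chkQuad_all : (List.range 29).all chkQuad = true := by decide +kernel

end Pool.Agent.Helper28.Hilb8.D
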