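import Mathlib

/-!
# The core algebra of chart d

`M = diag(Y₁, Y₂, Y₃) - a`, `M Y = z n`, `W = det M / z`, so `W Y = adj(M) n`. In the basis
`1, Y₁, Y₂, Y₃, W, Y₁Y₂, Y₁Y₃, Y₂Y₃` the multiplication by `Y₁, Y₂, Y₃, W` is given by explicit
operators, which commute.
-/

namespace Pool.Agent.Helper28.Hilb8.D

/-- Parameters of the core algebra. -/
structure Prm (D : Type*) where
  z : D
  a11 : D
  a12 : D
  a13 : D
  a21 : D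
  a22 : D
  a23 : D
  a31 : D
  a32 : D
  a33 : D
  n1 : D
  n2 : D
  n3 : D
  y : D
  g1 : D
  g2 : D
  g3 : D

variable {D : Type*} [CommRing D]

/-- The relations between the parameters. -/
structure Prm.Ok (p : Prm D) : Prop where
  hy : p.z * p.y = p.a11 * p.a22 * p.a33 - p.a11 * p.a23 * p.a32 - p.a12 * p.a21 * p.a33 + p.a12 * p.a23 * p.a31 + p.a13 * p.a21 * p.a32 - p.a13 * p.a22 * p.a31
  hg1 : p.z * p.g1 = p.a12 * p.a23 * p.n3 - p.a12 * p.a33 * p.n2 - p.a13 * p.a22 * p.n3 + p.a13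
    * p.a32 * p.n2 + p.a22 * p.a33 * p.n1 - p.a23 * p.a32 * p.n1
  hg2 : p.z * p.g2 = -(p.a11 * p.a23 * p.n3) + p.a11 * p.a33 * p.n2 + p.a13 * p.a21 * p.n3 -
    p.a13 * p.a31 * p.n2 - p.a21 * p.a33 * p.n1 + p.a23 * p.a31 * p.n1
  hg3 : p.z * p.g3 = p.a11 * p.a22 * p.n3 - p.a11 * p.a32 * p.n2 - p.a12 * p.a21 * p.n3 + p.a12
    * p.a31 * p.n2 + p.a21 * p.a32 * p.n1 - p.a22 * p.a31 * p.n1

/-- Multiplication by `Y1`. -/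
def fY1 (p : Prm D) (v : Fin 8 → D) : Fin 8 → D :=
  ![
    p.n1 * p.z * v 1 + (p.a12 * p.a23 * p.n3 - p.a12 * p.a33 * p.n2 - p.a13 * p.a22 * p.n3 +
      p.a13 * p.a32 * p.n2 + p.a22 * p.a33 * p.n1 - p.a23 * p.a32 * p.n1) * v 4 + p.a12 * p.n2 *
      p.z * v 5 + p.a13 * p.n3 * p.z * v 6 + (p.a11 * p.a22 * p.a33 - p.a11 * p.a23 * p.a32 -
      p.a12 * p.a21 * p.a33 + p.a12 * p.a23 * p.a31 + p.a13 * p.a21 * p.a32 - p.a13 * p.a22 *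
      p.a31) * v 7,
    v 0 + p.a11 * v 1 + p.a12 * p.a21 * v 5 + p.a13 * p.a31 * v 6 + (-(p.a22 * p.a33) + p.a23 *
      p.a32) * v 7,
    p.a12 * v 1 + (p.a13 * p.n3 - p.a33 * p.n1) * v 4 + (p.a12 * p.a22 + p.n1 * p.z) * v 5 +
      p.a13 * p.a32 * v 6 + (-(p.a11 * p.a33) + p.a13 * p.a31) * v 7,
    p.a13 * v 1 + (p.a12 * p.n2 - p.a22 * p.n1) * v 4 + p.a12 * p.a23 * v 5 + (p.a13 * p.a33 +
      p.n1 * p.z) * v 6 + (-(p.a11 * p.a22) + p.a12 * p.a21) * v 7,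
    p.z * v 7,
    v 2 + p.a11 * v 5 + p.a33 * v 7,
    v 3 + p.a11 * v 6 + p.a22 * v 7,
    p.n1 * v 4 + p.a13 * v 5 + p.a12 * v 6 + p.a11 * v 7]

/-- Multiplication by `Y2`. -/
def fY2 (p : Prm D) (v : Fin 8 → D) : Fin 8 → D :=
  ![
    p.n2 * p.z * v 2 + (-(p.a11 * p.a23 * p.n3) + p.a11 * p.a33 * p.n2 + p.a13 * p.a21 * p.n3 -
      p.a13 * p.a31 * p.n2 - p.a21 * p.a33 * p.n1 + p.a23 * p.a31 * p.n1) * v 4 + p.a21 * p.n1 *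
      p.z * v 5 + (p.a11 * p.a22 * p.a33 - p.a11 * p.a23 * p.a32 - p.a12 * p.a21 * p.a33 + p.a12
      * p.a23 * p.a31 + p.a13 * p.a21 * p.a32 - p.a13 * p.a22 * p.a31) * v 6 + p.a23 * p.n3 *
      p.z * v 7,
    p.a21 * v 2 + (p.a23 * p.n3 - p.a33 * p.n2) * v 4 + (p.a11 * p.a21 + p.n2 * p.z) * v 5 +
      (-(p.a22 * p.a33) + p.a23 * p.a32) * v 6 + p.a23 * p.a31 * v 7,
    v 0 + p.a22 * v 2 + p.a12 * p.a21 * v 5 + (-(p.a11 * p.a33) + p.a13 * p.a31) * v 6 + p.a23 *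
      p.a32 * v 7,
    p.a23 * v 2 + (-(p.a11 * p.n2) + p.a21 * p.n1) * v 4 + p.a13 * p.a21 * v 5 + (-(p.a11 *
      p.a22) + p.a12 * p.a21) * v 6 + (p.a23 * p.a33 + p.n2 * p.z) * v 7,
    p.z * v 6,
    v 1 + p.a22 * v 5 + p.a33 * v 6,
    p.n2 * v 4 + p.a23 * v 5 + p.a22 * v 6 + p.a21 * v 7,
    v 3 + p.a11 * v 6 + p.a22 * v 7]

/-- Multiplication by `Y3`. -/
def fY3 (p : Prm D) (v : Fin 8 → D) : Fin 8 → D :=
  ![
    p.n3 * p.z * v 3 + (p.a11 * p.a22 * p.n3 - p.a11 * p.a32 * p.n2 - p.a12 * p.a21 * p.n3 +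
      p.a12 * p.a31 * p.n2 + p.a21 * p.a32 * p.n1 - p.a22 * p.a31 * p.n1) * v 4 + (p.a11 * p.a22
      * p.a33 - p.a11 * p.a23 * p.a32 - p.a12 * p.a21 * p.a33 + p.a12 * p.a23 * p.a31 + p.a13 *
      p.a21 * p.a32 - p.a13 * p.a22 * p.a31) * v 5 + p.a31 * p.n1 * p.z * v 6 + p.a32 * p.n2 *
      p.z * v 7,
    p.a31 * v 3 + (-(p.a22 * p.n3) + p.a32 * p.n2) * v 4 + (-(p.a22 * p.a33) + p.a23 * p.a32) *
      v 5 + (p.a11 * p.a31 + p.n3 * p.z) * v 6 + p.a21 * p.a32 * v 7,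
    p.a32 * v 3 + (-(p.a11 * p.n3) + p.a31 * p.n1) * v 4 + (-(p.a11 * p.a33) + p.a13 * p.a31) *
      v 5 + p.a12 * p.a31 * v 6 + (p.a22 * p.a32 + p.n3 * p.z) * v 7,
    v 0 + p.a33 * v 3 + (-(p.a11 * p.a22) + p.a12 * p.a21) * v 5 + p.a13 * p.a31 * v 6 + p.a23 *
      p.a32 * v 7,
    p.z * v 5,
    p.n3 * v 4 + p.a33 * v 5 + p.a32 * v 6 + p.a31 * v 7,
    v 1 + p.a22 * v 5 + p.a33 * v 6,
    v 2 + p.a11 * v 5 + p.a33 * v 7]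

/-- Multiplication by `W`. -/
def fW (p : Prm D) (v : Fin 8 → D) : Fin 8 → D :=
  ![
    (p.a12 * p.a23 * p.n3 - p.a12 * p.a33 * p.n2 - p.a13 * p.a22 * p.n3 + p.a13 * p.a32 * p.n2 +
      p.a22 * p.a33 * p.n1 - p.a23 * p.a32 * p.n1) * v 1 + (-(p.a11 * p.a23 * p.n3) + p.a11 *
      p.a33 * p.n2 + p.a13 * p.a21 * p.n3 - p.a13 * p.a31 * p.n2 - p.a21 * p.a33 * p.n1 + p.a23
      * p.a31 * p.n1) * v 2 + (p.a11 * p.a22 * p.n3 - p.a11 * p.a32 * p.n2 - p.a12 * p.a21 *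
      p.n3 + p.a12 * p.a31 * p.n2 + p.a21 * p.a32 * p.n1 - p.a22 * p.a31 * p.n1) * v 3 + (p.a11
      * p.a22 * p.g3 + p.a11 * p.a33 * p.g2 - p.a12 * p.a21 * p.g3 - p.a13 * p.a31 * p.g2 +
      p.a22 * p.a33 * p.g1 - p.a23 * p.a32 * p.g1 + p.a11 * p.a11 * p.n2 * p.n3 - p.a11 * p.a21
      * p.n1 * p.n3 - p.a11 * p.a31 * p.n1 * p.n2 - p.a12 * p.a22 * p.n2 * p.n3 + p.a12 * p.a32
      * p.n2 * p.n2 + p.a13 * p.a23 * p.n3 * p.n3 - p.a13 * p.a33 * p.n2 * p.n3 + p.a21 * p.a31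
      * p.n1 * p.n1 + p.a22 * p.a22 * p.n1 * p.n3 - p.a22 * p.a32 * p.n1 * p.n2 - p.a23 * p.a33
      * p.n1 * p.n3 + p.a33 * p.a33 * p.n1 * p.n2 + p.n1 * p.n2 * p.n3 * p.z) * v 4 + (p.a13 *
      p.n2 * p.n3 * p.z + p.a23 * p.n1 * p.n3 * p.z - p.a33 * p.n1 * p.n2 * p.z) * v 5 + (p.a12
      * p.n2 * p.n3 * p.z - p.a22 * p.n1 * p.n3 * p.z + p.a32 * p.n1 * p.n2 * p.z) * v 6 +
      (-(p.a11 * p.n2 * p.n3 * p.z) + p.a21 * p.n1 * p.n3 * p.z + p.a31 * p.n1 * p.n2 * p.z) * v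
      7,
    (p.a23 * p.n3 - p.a33 * p.n2) * v 2 + (-(p.a22 * p.n3) + p.a32 * p.n2) * v 3 + (-(p.a22 *
      p.g3) - p.a33 * p.g2 - p.a11 * p.n2 * p.n3 + p.a21 * p.n1 * p.n3 + p.a31 * p.n1 * p.n2) *
      v 4 + (p.a13 * p.a21 * p.n3 - p.a21 * p.a33 * p.n1 + p.a23 * p.a31 * p.n1) * v 5 + (p.a12
      * p.a31 * p.n2 + p.a21 * p.a32 * p.n1 - p.a22 * p.a31 * p.n1) * v 6 + (p.a21 * p.a31 *
      p.n1 + p.n2 * p.n3 * p.z) * v 7,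
    (p.a13 * p.n3 - p.a33 * p.n1) * v 1 + (-(p.a11 * p.n3) + p.a31 * p.n1) * v 3 + (-(p.a11 *
      p.g3) - p.a33 * p.g1 + p.a12 * p.n2 * p.n3 - p.a22 * p.n1 * p.n3 + p.a32 * p.n1 * p.n2) *
      v 4 + (p.a12 * p.a23 * p.n3 - p.a12 * p.a33 * p.n2 + p.a13 * p.a32 * p.n2) * v 5 + (p.a12
      * p.a32 * p.n2 + p.n1 * p.n3 * p.z) * v 6 + (-(p.a11 * p.a32 * p.n2) + p.a12 * p.a31 *
      p.n2 + p.a21 * p.a32 * p.n1) * v 7,
    (p.a12 * p.n2 - p.a22 * p.n1) * v 1 + (-(p.a11 * p.n2) + p.a21 * p.n1) * v 2 + (-(p.a11 *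
      p.g2) - p.a22 * p.g1 + p.a13 * p.n2 * p.n3 + p.a23 * p.n1 * p.n3 - p.a33 * p.n1 * p.n2) *
      v 4 + (p.a13 * p.a23 * p.n3 + p.n1 * p.n2 * p.z) * v 5 + (p.a12 * p.a23 * p.n3 - p.a13 *
      p.a22 * p.n3 + p.a13 * p.a32 * p.n2) * v 6 + (-(p.a11 * p.a23 * p.n3) + p.a13 * p.a21 *
      p.n3 + p.a23 * p.a31 * p.n1) * v 7,
    v 0 + (-(p.y)) * v 4,
    p.n3 * v 3 + p.g3 * v 4 + p.a31 * p.n1 * v 6 + p.a32 * p.n2 * v 7,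
    p.n2 * v 2 + p.g2 * v 4 + p.a21 * p.n1 * v 5 + p.a23 * p.n3 * v 7,
    p.n1 * v 1 + p.g1 * v 4 + p.a12 * p.n2 * v 5 + p.a13 * p.n3 * v 6]

/-- Multiplication by `z W`. -/
def fZ (p : Prm D) (v : Fin 8 → D) : Fin 8 → D :=
  ![
    (p.a12 * p.a23 * p.n3 * p.z - p.a12 * p.a33 * p.n2 * p.z - p.a13 * p.a22 * p.n3 * p.z +
      p.a13 * p.a32 * p.n2 * p.z + p.a22 * p.a33 * p.n1 * p.z - p.a23 * p.a32 * p.n1 * p.z) * v
      1 + (-(p.a11 * p.a23 * p.n3 * p.z) + p.a11 * p.a33 * p.n2 * p.z + p.a13 * p.a21 * p.n3 *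
      p.z - p.a13 * p.a31 * p.n2 * p.z - p.a21 * p.a33 * p.n1 * p.z + p.a23 * p.a31 * p.n1 *
      p.z) * v 2 + (p.a11 * p.a22 * p.n3 * p.z - p.a11 * p.a32 * p.n2 * p.z - p.a12 * p.a21 *
      p.n3 * p.z + p.a12 * p.a31 * p.n2 * p.z + p.a21 * p.a32 * p.n1 * p.z - p.a22 * p.a31 *
      p.n1 * p.z) * v 3 + (p.a11 * p.a11 * p.a22 * p.a22 * p.n3 - p.a11 * p.a11 * p.a22 * p.a32
      * p.n2 - p.a11 * p.a11 * p.a23 * p.a33 * p.n3 + p.a11 * p.a11 * p.a33 * p.a33 * p.n2 +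
      p.a11 * p.a11 * p.n2 * p.n3 * p.z - 2 * p.a11 * p.a12 * p.a21 * p.a22 * p.n3 + p.a11 *
      p.a12 * p.a21 * p.a32 * p.n2 + p.a11 * p.a12 * p.a22 * p.a31 * p.n2 + p.a11 * p.a13 *
      p.a21 * p.a33 * p.n3 + p.a11 * p.a13 * p.a23 * p.a31 * p.n3 - 2 * p.a11 * p.a13 * p.a31 *
      p.a33 * p.n2 + p.a11 * p.a21 * p.a22 * p.a32 * p.n1 - p.a11 * p.a21 * p.a33 * p.a33 * p.n1
      - p.a11 * p.a21 * p.n1 * p.n3 * p.z - p.a11 * p.a22 * p.a22 * p.a31 * p.n1 + p.a11 * p.a23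
      * p.a31 * p.a33 * p.n1 - p.a11 * p.a31 * p.n1 * p.n2 * p.z + p.a12 * p.a12 * p.a21 * p.a21
      * p.n3 - p.a12 * p.a12 * p.a21 * p.a31 * p.n2 - p.a12 * p.a21 * p.a21 * p.a32 * p.n1 +
      p.a12 * p.a21 * p.a22 * p.a31 * p.n1 + p.a12 * p.a22 * p.a23 * p.a33 * p.n3 - p.a12 *
      p.a22 * p.a33 * p.a33 * p.n2 - p.a12 * p.a22 * p.n2 * p.n3 * p.z - p.a12 * p.a23 * p.a23 *
      p.a32 * p.n3 + p.a12 * p.a23 * p.a32 * p.a33 * p.n2 + p.a12 * p.a32 * p.n2 * p.n2 * p.z -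
      p.a13 * p.a13 * p.a21 * p.a31 * p.n3 + p.a13 * p.a13 * p.a31 * p.a31 * p.n2 + p.a13 *
      p.a21 * p.a31 * p.a33 * p.n1 - p.a13 * p.a22 * p.a22 * p.a33 * p.n3 + p.a13 * p.a22 *
      p.a23 * p.a32 * p.n3 + p.a13 * p.a22 * p.a32 * p.a33 * p.n2 - p.a13 * p.a23 * p.a31 *
      p.a31 * p.n1 - p.a13 * p.a23 * p.a32 * p.a32 * p.n2 + p.a13 * p.a23 * p.n3 * p.n3 * p.z -
      p.a13 * p.a33 * p.n2 * p.n3 * p.z + p.a21 * p.a31 * p.n1 * p.n1 * p.z + p.a22 * p.a22 *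
      p.a33 * p.a33 * p.n1 + p.a22 * p.a22 * p.n1 * p.n3 * p.z - 2 * p.a22 * p.a23 * p.a32 *
      p.a33 * p.n1 - p.a22 * p.a32 * p.n1 * p.n2 * p.z + p.a23 * p.a23 * p.a32 * p.a32 * p.n1 -
      p.a23 * p.a33 * p.n1 * p.n3 * p.z + p.a33 * p.a33 * p.n1 * p.n2 * p.z + p.n1 * p.n2 * p.n3
      * p.z * p.z) * v 4 + (p.a13 * p.n2 * p.n3 * p.z * p.z + p.a23 * p.n1 * p.n3 * p.z * p.z -
      p.a33 * p.n1 * p.n2 * p.z * p.z) * v 5 + (p.a12 * p.n2 * p.n3 * p.z * p.z - p.a22 * p.n1 *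
      p.n3 * p.z * p.z + p.a32 * p.n1 * p.n2 * p.z * p.z) * v 6 + (-(p.a11 * p.n2 * p.n3 * p.z *
      p.z) + p.a21 * p.n1 * p.n3 * p.z * p.z + p.a31 * p.n1 * p.n2 * p.z * p.z) * v 7,
    (p.a23 * p.n3 * p.z - p.a33 * p.n2 * p.z) * v 2 + (-(p.a22 * p.n3 * p.z) + p.a32 * p.n2 *
      p.z) * v 3 + (-(p.a11 * p.a22 * p.a22 * p.n3) + p.a11 * p.a22 * p.a32 * p.n2 + p.a11 *
      p.a23 * p.a33 * p.n3 - p.a11 * p.a33 * p.a33 * p.n2 - p.a11 * p.n2 * p.n3 * p.z + p.a12 *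
      p.a21 * p.a22 * p.n3 - p.a12 * p.a22 * p.a31 * p.n2 - p.a13 * p.a21 * p.a33 * p.n3 + p.a13
      * p.a31 * p.a33 * p.n2 - p.a21 * p.a22 * p.a32 * p.n1 + p.a21 * p.a33 * p.a33 * p.n1 +
      p.a21 * p.n1 * p.n3 * p.z + p.a22 * p.a22 * p.a31 * p.n1 - p.a23 * p.a31 * p.a33 * p.n1 +
      p.a31 * p.n1 * p.n2 * p.z) * v 4 + (p.a13 * p.a21 * p.n3 * p.z - p.a21 * p.a33 * p.n1 *
      p.z + p.a23 * p.a31 * p.n1 * p.z) * v 5 + (p.a12 * p.a31 * p.n2 * p.z + p.a21 * p.a32 *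
      p.n1 * p.z - p.a22 * p.a31 * p.n1 * p.z) * v 6 + (p.a21 * p.a31 * p.n1 * p.z + p.n2 * p.n3
      * p.z * p.z) * v 7,
    (p.a13 * p.n3 * p.z - p.a33 * p.n1 * p.z) * v 1 + (-(p.a11 * p.n3 * p.z) + p.a31 * p.n1 *
      p.z) * v 3 + (-(p.a11 * p.a11 * p.a22 * p.n3) + p.a11 * p.a11 * p.a32 * p.n2 + p.a11 *
      p.a12 * p.a21 * p.n3 - p.a11 * p.a12 * p.a31 * p.n2 - p.a11 * p.a21 * p.a32 * p.n1 + p.a11
      * p.a22 * p.a31 * p.n1 - p.a12 * p.a23 * p.a33 * p.n3 + p.a12 * p.a33 * p.a33 * p.n2 +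
      p.a12 * p.n2 * p.n3 * p.z + p.a13 * p.a22 * p.a33 * p.n3 - p.a13 * p.a32 * p.a33 * p.n2 -
      p.a22 * p.a33 * p.a33 * p.n1 - p.a22 * p.n1 * p.n3 * p.z + p.a23 * p.a32 * p.a33 * p.n1 +
      p.a32 * p.n1 * p.n2 * p.z) * v 4 + (p.a12 * p.a23 * p.n3 * p.z - p.a12 * p.a33 * p.n2 *
      p.z + p.a13 * p.a32 * p.n2 * p.z) * v 5 + (p.a12 * p.a32 * p.n2 * p.z + p.n1 * p.n3 * p.z
      * p.z) * v 6 + (-(p.a11 * p.a32 * p.n2 * p.z) + p.a12 * p.a31 * p.n2 * p.z + p.a21 * p.a32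
      * p.n1 * p.z) * v 7,
    (p.a12 * p.n2 * p.z - p.a22 * p.n1 * p.z) * v 1 + (-(p.a11 * p.n2 * p.z) + p.a21 * p.n1 *
      p.z) * v 2 + (p.a11 * p.a11 * p.a23 * p.n3 - p.a11 * p.a11 * p.a33 * p.n2 - p.a11 * p.a13
      * p.a21 * p.n3 + p.a11 * p.a13 * p.a31 * p.n2 + p.a11 * p.a21 * p.a33 * p.n1 - p.a11 *
      p.a23 * p.a31 * p.n1 - p.a12 * p.a22 * p.a23 * p.n3 + p.a12 * p.a22 * p.a33 * p.n2 + p.a13
      * p.a22 * p.a22 * p.n3 - p.a13 * p.a22 * p.a32 * p.n2 + p.a13 * p.n2 * p.n3 * p.z - p.a22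
      * p.a22 * p.a33 * p.n1 + p.a22 * p.a23 * p.a32 * p.n1 + p.a23 * p.n1 * p.n3 * p.z - p.a33
      * p.n1 * p.n2 * p.z) * v 4 + (p.a13 * p.a23 * p.n3 * p.z + p.n1 * p.n2 * p.z * p.z) * v 5
      + (p.a12 * p.a23 * p.n3 * p.z - p.a13 * p.a22 * p.n3 * p.z + p.a13 * p.a32 * p.n2 * p.z) *
      v 6 + (-(p.a11 * p.a23 * p.n3 * p.z) + p.a13 * p.a21 * p.n3 * p.z + p.a23 * p.a31 * p.n1 *
      p.z) * v 7,
    p.z * v 0 + (-(p.a11 * p.a22 * p.a33) + p.a11 * p.a23 * p.a32 + p.a12 * p.a21 * p.a33 -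
      p.a12 * p.a23 * p.a31 - p.a13 * p.a21 * p.a32 + p.a13 * p.a22 * p.a31) * v 4,
    p.n3 * p.z * v 3 + (p.a11 * p.a22 * p.n3 - p.a11 * p.a32 * p.n2 - p.a12 * p.a21 * p.n3 +
      p.a12 * p.a31 * p.n2 + p.a21 * p.a32 * p.n1 - p.a22 * p.a31 * p.n1) * v 4 + p.a31 * p.n1 *
      p.z * v 6 + p.a32 * p.n2 * p.z * v 7,
    p.n2 * p.z * v 2 + (-(p.a11 * p.a23 * p.n3) + p.a11 * p.a33 * p.n2 + p.a13 * p.a21 * p.n3 -
      p.a13 * p.a31 * p.n2 - p.a21 * p.a33 * p.n1 + p.a23 * p.a31 * p.n1) * v 4 + p.a21 * p.n1 *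
      p.z * v 5 + p.a23 * p.n3 * p.z * v 7,
    p.n1 * p.z * v 1 + (p.a12 * p.a23 * p.n3 - p.a12 * p.a33 * p.n2 - p.a13 * p.a22 * p.n3 +
      p.a13 * p.a32 * p.n2 + p.a22 * p.a33 * p.n1 - p.a23 * p.a32 * p.n1) * v 4 + p.a12 * p.n2 *
      p.z * v 5 + p.a13 * p.n3 * p.z * v 6]

theorem comm_Y1_Y2 (p : Prm D) (v : Fin 8 → D) : fY1 p (fY2 p v) = fY2 p (fY1 p v) := by
  ext i
  fin_cases i <;> simp [fY1, fY2] <;> ring

theorem comm_Y1_Y3 (p : Prm D) (v : Fin 8 → D) : fY1 p (fY3 p v) = fY3 p (fY1 p v) := by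
  ext i
  fin_cases i <;> simp [fY1, fY3] <;> ring

theorem comm_Y2_Y3 (p : Prm D) (v : Fin 8 → D) : fY2 p (fY3 p v) = fY3 p (fY2 p v) := by
  ext i
  fin_cases i <;> simp [fY2, fY3] <;> ring

theorem comm_Y1_Z (p : Prm D) (v : Fin 8 → D) : fY1 p (fZ p v) = fZ p (fY1 p v) := by
  ext i
  fin_cases i <;> simp [fY1, fZ] <;> ring

theorem comm_Y2_Z (p : Prm D) (v : Fin 8 → D) : fY2 p (fZ p v) = fZ p (fY2 p v) := by
  ext i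
  fin_cases i <;> simp [fY2, fZ] <;> ring

theorem comm_Y3_Z (p : Prm D) (v : Fin 8 → D) : fY3 p (fZ p v) = fZ p (fY3 p v) := by
  ext i
  fin_cases i <;> simp [fY3, fZ] <;> ring

/-- The operator `Y1`. -/
def LY1 (p : Prm D) : Module.End D (Fin 8 → D) where
  toFun := fY1 p
  map_add' u v := by
    ext i
    fin_cases i <;> simp [fY1] <;> ring
  map_smul' c v := by
    ext i
    fin_cases i <;> simp [fY1] <;> ring

/-- The operator `Y2`. -/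
def LY2 (p : Prm D) : Module.End D (Fin 8 → D) where
  toFun := fY2 p
  map_add' u v := by
    ext i
    fin_cases i <;> simp [fY2] <;> ring
  map_smul' c v := by
    ext i
    fin_cases i <;> simp [fY2] <;> ring

/-- The operator `Y3`. -/
def LY3 (p : Prm D) : Module.End D (Fin 8 → D) where
  toFun := fY3 p
  map_add' u v := by
    ext i
    fin_cases i <;> simp [fY3] <;> ring
  map_smul' c v := by
    ext i
    fin_cases i <;> simp [fY3] <;> ring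

/-- The operator `W`. -/
def LW (p : Prm D) : Module.End D (Fin 8 → D) where
  toFun := fW p
  map_add' u v := by
    ext i
    fin_cases i <;> simp [fW] <;> ring
  map_smul' c v := by
    ext i
    fin_cases i <;> simp [fW] <;> ring

theorem z_fW (p : Prm D) (h : p.Ok) (v : Fin 8 → D) : p.z • fW p v = fZ p v := by
  ext i
  fin_cases i
  · simp [fW, fZ]
    linear_combination v 4 * ((p.a22 * p.a33 - p.a23 * p.a32) * h.hg1 +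
      (p.a11 * p.a33 - p.a13 * p.a31) * h.hg2 + (p.a11 * p.a22 - p.a12 * p.a21) * h.hg3)
  · simp [fW, fZ]
    linear_combination -v 4 * (p.a22 * h.hg3 + p.a33 * h.hg2)
  · simp [fW, fZ]
    linear_combination -v 4 * (p.a11 * h.hg3 + p.a33 * h.hg1)
  · simp [fW, fZ]
    linear_combination -v 4 * (p.a11 * h.hg2 + p.a22 * h.hg1)
  · simp [fW, fZ]
    linear_combination -v 4 * h.hy
  · simp [fW, fZ]
    linear_combination v 4 * h.hg3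
  · simp [fW, fZ]
    linear_combination v 4 * h.hg2
  · simp [fW, fZ]
    linear_combination v 4 * h.hg1

theorem comm_Y1_W [IsDomain D] (p : Prm D) (h : p.Ok) (hz : p.z ≠ 0) (v : Fin 8 → D) :
    fY1 p (fW p v) = fW p (fY1 p v) := by
  have h1 : p.z • fY1 p (fW p v) = p.z • fW p (fY1 p v) := by
    rw [z_fW p h, ← comm_Y1_Z, ← z_fW p h]
    exact ((LY1 p).map_smul p.z (fW p v)).symm
  ext i
  have h2 := congrFun h1 i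
  simp only [Pi.smul_apply, smul_eq_mul] at h2
  exact mul_left_cancel₀ hz h2

theorem comm_Y2_W [IsDomain D] (p : Prm D) (h : p.Ok) (hz : p.z ≠ 0) (v : Fin 8 → D) :
    fY2 p (fW p v) = fW p (fY2 p v) := by
  have h1 : p.z • fY2 p (fW p v) = p.z • fW p (fY2 p v) := by
    rw [z_fW p h, ← comm_Y2_Z, ← z_fW p h]
    exact ((LY2 p).map_smul p.z (fW p v)).symm
  ext i
  have h2 := congrFun h1 i
  simp only [Pi.smul_apply, smul_eq_mul] at h2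
  exact mul_left_cancel₀ hz h2

theorem comm_Y3_W [IsDomain D] (p : Prm D) (h : p.Ok) (hz : p.z ≠ 0) (v : Fin 8 → D) :
    fY3 p (fW p v) = fW p (fY3 p v) := by
  have h1 : p.z • fY3 p (fW p v) = p.z • fW p (fY3 p v) := by
    rw [z_fW p h, ← comm_Y3_Z, ← z_fW p h]
    exact ((LY3 p).map_smul p.z (fW p v)).symm
  ext i
  have h2 := congrFun h1 i
  simp only [Pi.smul_apply, smul_eq_mul] at h2
  exact mul_left_cancel₀ hz h2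

/-- The commuting operators. -/
theorem comm_all [IsDomain D] (p : Prm D) (h : p.Ok) (hz : p.z ≠ 0) :
    ∀ a ∈ ({LY1 p, LY2 p, LY3 p, LW p} : Set (Module.End D (Fin 8 → D))),
    ∀ b ∈ ({LY1 p, LY2 p, LY3 p, LW p} : Set (Module.End D (Fin 8 → D))), a * b = b * a := by
  have e12 : LY1 p * LY2 p = LY2 p * LY1 p := LinearMap.ext fun v => comm_Y1_Y2 p v
  have e13 : LY1 p * LY3 p = LY3 p * LY1 p := LinearMap.ext fun v => comm_Y1_Y3 p v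
  have e23 : LY2 p * LY3 p = LY3 p * LY2 p := LinearMap.ext fun v => comm_Y2_Y3 p v
  have e1 : LY1 p * LW p = LW p * LY1 p := LinearMap.ext fun v => comm_Y1_W p h hz v
  have e2 : LY2 p * LW p = LW p * LY2 p := LinearMap.ext fun v => comm_Y2_W p h hz v
  have e3 : LY3 p * LW p = LW p * LY3 p := LinearMap.ext fun v => comm_Y3_W p h hz v
  rintro a (rfl | rfl | rfl | rfl) b (rfl | rfl | rfl | rfl) <;>
    first | rfl | assumption | (symm; assumption)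

end Pool.Agent.Helper28.Hilb8.D
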