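import Pool.Agent.Helper28.Hilb8.D.First

/-!
# Chart d: the first family
-/

universe u

namespace Pool.Agent.Helper28.Hilb8.D

open MvPolynomial Pool.Agent.Helper97.Hilb8

/-- Parameters of the change of coordinates. -/
structure FamP (F : Type*) where
  r1 : F
  r2 : F
  r3 : F
  P15 : F
  P16 : F
  P17 : F
  P25 : F
  P26 : F
  P27 : F
  P35 : F
  P36 : F
  P37 : F
  k1 : F
  k2 : F
  k3 : F
  t1 : F
  t2 : F
  t3 : F
  t4 : F

section

variable {F : Type*} [Field F]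

/-- The four operators. -/
noncomputable def opX (p : Prm (PowerSeries F)) (d : FamP F) :
    Fin 4 → Module.End (PowerSeries F) (Fin 8 → PowerSeries F) :=
  ![LY1 p + PowerSeries.C d.r1 • LW p + PowerSeries.C d.P15 • (LY1 p * LY2 p) +
      PowerSeries.C d.P16 • (LY1 p * LY3 p) + PowerSeries.C d.P17 • (LY2 p * LY3 p) +
      (PowerSeries.X * PowerSeries.C d.t1) • 1,
    LY2 p + PowerSeries.C d.r2 • LW p + PowerSeries.C d.P25 • (LY1 p * LY2 p) +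
      PowerSeries.C d.P26 • (LY1 p * LY3 p) + PowerSeries.C d.P27 • (LY2 p * LY3 p) +
      (PowerSeries.X * PowerSeries.C d.t2) • 1,
    LY3 p + PowerSeries.C d.r3 • LW p + PowerSeries.C d.P35 • (LY1 p * LY2 p) +
      PowerSeries.C d.P36 • (LY1 p * LY3 p) + PowerSeries.C d.P37 • (LY2 p * LY3 p) +
      (PowerSeries.X * PowerSeries.C d.t3) • 1,
    LW p + (PowerSeries.X * PowerSeries.C d.k1) • LY1 p +
      (PowerSeries.X * PowerSeries.C d.k2) • LY2 p +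
      (PowerSeries.X * PowerSeries.C d.k3) • LY3 p + (PowerSeries.X * PowerSeries.C d.t4) • 1]

theorem opX_comm (p : Prm (PowerSeries F)) (d : FamP F) (h : p.Ok) (hz : p.z ≠ 0) (i j : Fin 4) :
    opX p d i * opX p d j = opX p d j * opX p d i := by
  set S : Set (Module.End (PowerSeries F) (Fin 8 → PowerSeries F)) :=
    {LY1 p, LY2 p, LY3 p, LW p} with hS
  have h1 : LY1 p ∈ Algebra.adjoin (PowerSeries F) S := Algebra.subset_adjoin (by simp [hS])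
  have h2 : LY2 p ∈ Algebra.adjoin (PowerSeries F) S := Algebra.subset_adjoin (by simp [hS])
  have h3 : LY3 p ∈ Algebra.adjoin (PowerSeries F) S := Algebra.subset_adjoin (by simp [hS])
  have h4 : LW p ∈ Algebra.adjoin (PowerSeries F) S := Algebra.subset_adjoin (by simp [hS])
  have hmem : ∀ i, opX p d i ∈ Algebra.adjoin (PowerSeries F) S := by
    have hone : (1 : Module.End (PowerSeries F) (Fin 8 → PowerSeries F)) ∈
      Algebra.adjoin (PowerSeries F) S := one_mem _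
    intro i
    fin_cases i
    · exact add_mem (add_mem (add_mem (add_mem (add_mem h1 (Subalgebra.smul_mem _ h4 _))
        (Subalgebra.smul_mem _ (mul_mem h1 h2) _)) (Subalgebra.smul_mem _ (mul_mem h1 h3) _))
        (Subalgebra.smul_mem _ (mul_mem h2 h3) _)) (Subalgebra.smul_mem _ hone _)
    · exact add_mem (add_mem (add_mem (add_mem (add_mem h2 (Subalgebra.smul_mem _ h4 _))
        (Subalgebra.smul_mem _ (mul_mem h1 h2) _)) (Subalgebra.smul_mem _ (mul_mem h1 h3) _))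
        (Subalgebra.smul_mem _ (mul_mem h2 h3) _)) (Subalgebra.smul_mem _ hone _)
    · exact add_mem (add_mem (add_mem (add_mem (add_mem h3 (Subalgebra.smul_mem _ h4 _))
        (Subalgebra.smul_mem _ (mul_mem h1 h2) _)) (Subalgebra.smul_mem _ (mul_mem h1 h3) _))
        (Subalgebra.smul_mem _ (mul_mem h2 h3) _)) (Subalgebra.smul_mem _ hone _)
    · exact add_mem (add_mem (add_mem (add_mem h4 (Subalgebra.smul_mem _ h1 _))
        (Subalgebra.smul_mem _ h2 _)) (Subalgebra.smul_mem _ h3 _)) (Subalgebra.smul_mem _ hone _)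
  have hcomm : ∀ a ∈ S, ∀ b ∈ S, a * b = b * a := comm_all p h hz
  have := (Algebra.adjoinCommRingOfComm (PowerSeries F) hcomm).mul_comm
    ⟨opX p d i, hmem i⟩ ⟨opX p d j, hmem j⟩
  exact congrArg Subtype.val this

/-- Zeroth order part of the operator number 0. -/
def GX0 (d : FamP F) (v : Fin 8 → F) : Fin 8 → F :=
  ![0,
    v 0,
    0,
    0,
    d.r1 * v 0,
    d.P15 * v 0 + v 2,
    d.P16 * v 0 + v 3,
    d.P17 * v 0]

/-- First order part of the operator number 0. -/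
def DX0 (q : Prm F) (d : FamP F) (v : Fin 8 → F) : Fin 8 → F :=
  ![d.t1 * v 0,
    (q.a11 + d.t1) * v 1,
    q.a12 * v 1 + d.t1 * v 2,
    q.a13 * v 1 + d.t1 * v 3,
    d.P17 * q.z * v 1 + d.P16 * q.z * v 2 + d.P15 * q.z * v 3 + (d.t1 - d.r1 * q.y) * v 4 + q.z * v
      7,
    (d.P15 * q.a11 + d.P17 * q.a33) * v 1 + (d.P15 * q.a22 + d.P16 * q.a33) * v 2 + (d.P15 * q.a33
      + d.P16 * q.a32 + d.P17 * q.a31 + q.n3 * d.r1) * v 3 + q.g3 * d.r1 * v 4 + (q.a11 + d.t1) * v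
      5 + q.a33 * v 7,
    (d.P16 * q.a11 + d.P17 * q.a22) * v 1 + (d.P15 * q.a23 + d.P16 * q.a22 + d.P17 * q.a21 + q.n2 *
      d.r1) * v 2 + (d.P15 * q.a22 + d.P16 * q.a33) * v 3 + q.g2 * d.r1 * v 4 + (q.a11 + d.t1) * v
      6 + q.a22 * v 7,
    (d.P15 * q.a13 + d.P16 * q.a12 + d.P17 * q.a11 + q.n1 * d.r1) * v 1 + (d.P16 * q.a11 + d.P17 *
      q.a22) * v 2 + (d.P15 * q.a11 + d.P17 * q.a33) * v 3 + (q.n1 + q.g1 * d.r1) * v 4 + q.a13 * v
      5 + q.a12 * v 6 + (q.a11 + d.t1) * v 7]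

/-- Zeroth order part of the operator number 1. -/
def GX1 (d : FamP F) (v : Fin 8 → F) : Fin 8 → F :=
  ![0,
    0,
    v 0,
    0,
    d.r2 * v 0,
    d.P25 * v 0 + v 1,
    d.P26 * v 0,
    d.P27 * v 0 + v 3]

/-- First order part of the operator number 1. -/
def DX1 (q : Prm F) (d : FamP F) (v : Fin 8 → F) : Fin 8 → F :=
  ![d.t2 * v 0,
    d.t2 * v 1 + q.a21 * v 2,
    (q.a22 + d.t2) * v 2,
    q.a23 * v 2 + d.t2 * v 3,
    d.P27 * q.z * v 1 + d.P26 * q.z * v 2 + d.P25 * q.z * v 3 + (d.t2 - d.r2 * q.y) * v 4 + q.z * v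
      6,
    (d.P25 * q.a11 + d.P27 * q.a33) * v 1 + (d.P25 * q.a22 + d.P26 * q.a33) * v 2 + (d.P25 * q.a33
      + d.P26 * q.a32 + d.P27 * q.a31 + q.n3 * d.r2) * v 3 + q.g3 * d.r2 * v 4 + (q.a22 + d.t2) * v
      5 + q.a33 * v 6,
    (d.P26 * q.a11 + d.P27 * q.a22) * v 1 + (d.P25 * q.a23 + d.P26 * q.a22 + d.P27 * q.a21 + q.n2 *
      d.r2) * v 2 + (d.P25 * q.a22 + d.P26 * q.a33) * v 3 + (q.n2 + q.g2 * d.r2) * v 4 + q.a23 * v
      5 + (q.a22 + d.t2) * v 6 + q.a21 * v 7,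
    (d.P25 * q.a13 + d.P26 * q.a12 + d.P27 * q.a11 + q.n1 * d.r2) * v 1 + (d.P26 * q.a11 + d.P27 *
      q.a22) * v 2 + (d.P25 * q.a11 + d.P27 * q.a33) * v 3 + q.g1 * d.r2 * v 4 + q.a11 * v 6 +
      (q.a22 + d.t2) * v 7]

/-- Zeroth order part of the operator number 2. -/
def GX2 (d : FamP F) (v : Fin 8 → F) : Fin 8 → F :=
  ![0,
    0,
    0,
    v 0,
    d.r3 * v 0,
    d.P35 * v 0,
    d.P36 * v 0 + v 1,
    d.P37 * v 0 + v 2]

/-- First order part of the operator number 2. -/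
def DX2 (q : Prm F) (d : FamP F) (v : Fin 8 → F) : Fin 8 → F :=
  ![d.t3 * v 0,
    d.t3 * v 1 + q.a31 * v 3,
    d.t3 * v 2 + q.a32 * v 3,
    (q.a33 + d.t3) * v 3,
    d.P37 * q.z * v 1 + d.P36 * q.z * v 2 + d.P35 * q.z * v 3 + (d.t3 - d.r3 * q.y) * v 4 + q.z * v
      5,
    (d.P35 * q.a11 + d.P37 * q.a33) * v 1 + (d.P35 * q.a22 + d.P36 * q.a33) * v 2 + (d.P35 * q.a33
      + d.P36 * q.a32 + d.P37 * q.a31 + q.n3 * d.r3) * v 3 + (q.n3 + q.g3 * d.r3) * v 4 + (q.a33 +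
      d.t3) * v 5 + q.a32 * v 6 + q.a31 * v 7,
    (d.P36 * q.a11 + d.P37 * q.a22) * v 1 + (d.P35 * q.a23 + d.P36 * q.a22 + d.P37 * q.a21 + q.n2 *
      d.r3) * v 2 + (d.P35 * q.a22 + d.P36 * q.a33) * v 3 + q.g2 * d.r3 * v 4 + q.a22 * v 5 +
      (q.a33 + d.t3) * v 6,
    (d.P35 * q.a13 + d.P36 * q.a12 + d.P37 * q.a11 + q.n1 * d.r3) * v 1 + (d.P36 * q.a11 + d.P37 *
      q.a22) * v 2 + (d.P35 * q.a11 + d.P37 * q.a33) * v 3 + q.g1 * d.r3 * v 4 + q.a11 * v 5 +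
      (q.a33 + d.t3) * v 7]

/-- Zeroth order part of the operator number 3. -/
def GX3 (d : FamP F) (v : Fin 8 → F) : Fin 8 → F :=
  ![0,
    0,
    0,
    0,
    v 0,
    0,
    0,
    0]

/-- First order part of the operator number 3. -/
def DX3 (q : Prm F) (d : FamP F) (v : Fin 8 → F) : Fin 8 → F :=
  ![d.t4 * v 0,
    d.k1 * v 0 + d.t4 * v 1,
    d.k2 * v 0 + d.t4 * v 2,
    d.k3 * v 0 + d.t4 * v 3,
    (d.t4 - q.y) * v 4,
    d.k2 * v 1 + d.k1 * v 2 + q.n3 * v 3 + q.g3 * v 4 + d.t4 * v 5,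
    d.k3 * v 1 + q.n2 * v 2 + d.k1 * v 3 + q.g2 * v 4 + d.t4 * v 6,
    q.n1 * v 1 + d.k3 * v 2 + d.k2 * v 3 + q.g1 * v 4 + d.t4 * v 7]

theorem c0_X0 (p : Prm (PowerSeries F)) (d : FamP F) (h : p.Small) (v : Fin 8 → PowerSeries F) :
    c0 (opX p d 0 v) = GX0 d (c0 v) := by
  change c0 (fY1 p v + PowerSeries.C d.r1 • fW p v + PowerSeries.C d.P15 • fY1 p (fY2 p v) +
    PowerSeries.C d.P16 • fY1 p (fY3 p v) + PowerSeries.C d.P17 • fY2 p (fY3 p v) +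
    (PowerSeries.X * PowerSeries.C d.t1) • v) = _
  simp only [c0_add, c0_smul, c0_Xsmul, c0_fY1 p h, c0_fY2 p h, c0_fY3 p h, c0_fW p h]
  ext i
  fin_cases i <;> simp [GX0, gY1, gY2, gY3, gW] <;> try ring

theorem c1_X0 (p : Prm (PowerSeries F)) (d : FamP F) (h : p.Small) (v : Fin 8 → PowerSeries F) :
    c1 (opX p d 0 v) = GX0 d (c1 v) + DX0 p.one d (c0 v) := by
  change c1 (fY1 p v + PowerSeries.C d.r1 • fW p v + PowerSeries.C d.P15 • fY1 p (fY2 p v) +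
    PowerSeries.C d.P16 • fY1 p (fY3 p v) + PowerSeries.C d.P17 • fY2 p (fY3 p v) +
    (PowerSeries.X * PowerSeries.C d.t1) • v) = _
  simp only [c1_add, c1_smul, c1_Xsmul, c0_fY1 p h, c0_fY2 p h, c0_fY3 p h, c0_fW p h,
    c1_fY1 p h, c1_fY2 p h, c1_fY3 p h, c1_fW p h]
  ext i
  fin_cases i <;> simp [GX0, DX0, gY1, gY2, gY3, gW, dY1, dY2, dY3, dW] <;> ring

theorem c0_X1 (p : Prm (PowerSeries F)) (d : FamP F) (h : p.Small) (v : Fin 8 → PowerSeries F) :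
    c0 (opX p d 1 v) = GX1 d (c0 v) := by
  change c0 (fY2 p v + PowerSeries.C d.r2 • fW p v + PowerSeries.C d.P25 • fY1 p (fY2 p v) +
    PowerSeries.C d.P26 • fY1 p (fY3 p v) + PowerSeries.C d.P27 • fY2 p (fY3 p v) +
    (PowerSeries.X * PowerSeries.C d.t2) • v) = _
  simp only [c0_add, c0_smul, c0_Xsmul, c0_fY1 p h, c0_fY2 p h, c0_fY3 p h, c0_fW p h]
  ext i
  fin_cases i <;> simp [GX1, gY1, gY2, gY3, gW] <;> try ring

theorem c1_X1 (p : Prm (PowerSeries F)) (d : FamP F) (h : p.Small) (v : Fin 8 → PowerSeries F) :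
    c1 (opX p d 1 v) = GX1 d (c1 v) + DX1 p.one d (c0 v) := by
  change c1 (fY2 p v + PowerSeries.C d.r2 • fW p v + PowerSeries.C d.P25 • fY1 p (fY2 p v) +
    PowerSeries.C d.P26 • fY1 p (fY3 p v) + PowerSeries.C d.P27 • fY2 p (fY3 p v) +
    (PowerSeries.X * PowerSeries.C d.t2) • v) = _
  simp only [c1_add, c1_smul, c1_Xsmul, c0_fY1 p h, c0_fY2 p h, c0_fY3 p h, c0_fW p h,
    c1_fY1 p h, c1_fY2 p h, c1_fY3 p h, c1_fW p h]
  ext i
  fin_cases i <;> simp [GX1, DX1, gY1, gY2, gY3, gW, dY1, dY2, dY3, dW] <;> ring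

theorem c0_X2 (p : Prm (PowerSeries F)) (d : FamP F) (h : p.Small) (v : Fin 8 → PowerSeries F) :
    c0 (opX p d 2 v) = GX2 d (c0 v) := by
  change c0 (fY3 p v + PowerSeries.C d.r3 • fW p v + PowerSeries.C d.P35 • fY1 p (fY2 p v) +
    PowerSeries.C d.P36 • fY1 p (fY3 p v) + PowerSeries.C d.P37 • fY2 p (fY3 p v) +
    (PowerSeries.X * PowerSeries.C d.t3) • v) = _
  simp only [c0_add, c0_smul, c0_Xsmul, c0_fY1 p h, c0_fY2 p h, c0_fY3 p h, c0_fW p h]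
  ext i
  fin_cases i <;> simp [GX2, gY1, gY2, gY3, gW] <;> try ring

theorem c1_X2 (p : Prm (PowerSeries F)) (d : FamP F) (h : p.Small) (v : Fin 8 → PowerSeries F) :
    c1 (opX p d 2 v) = GX2 d (c1 v) + DX2 p.one d (c0 v) := by
  change c1 (fY3 p v + PowerSeries.C d.r3 • fW p v + PowerSeries.C d.P35 • fY1 p (fY2 p v) +
    PowerSeries.C d.P36 • fY1 p (fY3 p v) + PowerSeries.C d.P37 • fY2 p (fY3 p v) +
    (PowerSeries.X * PowerSeries.C d.t3) • v) = _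
  simp only [c1_add, c1_smul, c1_Xsmul, c0_fY1 p h, c0_fY2 p h, c0_fY3 p h, c0_fW p h,
    c1_fY1 p h, c1_fY2 p h, c1_fY3 p h, c1_fW p h]
  ext i
  fin_cases i <;> simp [GX2, DX2, gY1, gY2, gY3, gW, dY1, dY2, dY3, dW] <;> ring

theorem c0_X3 (p : Prm (PowerSeries F)) (d : FamP F) (h : p.Small) (v : Fin 8 → PowerSeries F) :
    c0 (opX p d 3 v) = GX3 d (c0 v) := by
  change c0 (fW p v + (PowerSeries.X * PowerSeries.C d.k1) • fY1 p v +
    (PowerSeries.X * PowerSeries.C d.k2) • fY2 p v + (PowerSeries.X * PowerSeries.C d.k3) • fY3 p v +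
    (PowerSeries.X * PowerSeries.C d.t4) • v) = _
  simp only [c0_add, c0_smul, c0_Xsmul, c0_fY1 p h, c0_fY2 p h, c0_fY3 p h, c0_fW p h]
  ext i
  fin_cases i <;> simp [GX3, gY1, gY2, gY3, gW] <;> try ring

theorem c1_X3 (p : Prm (PowerSeries F)) (d : FamP F) (h : p.Small) (v : Fin 8 → PowerSeries F) :
    c1 (opX p d 3 v) = GX3 d (c1 v) + DX3 p.one d (c0 v) := by
  change c1 (fW p v + (PowerSeries.X * PowerSeries.C d.k1) • fY1 p v +
    (PowerSeries.X * PowerSeries.C d.k2) • fY2 p v + (PowerSeries.X * PowerSeries.C d.k3) • fY3 p v +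
    (PowerSeries.X * PowerSeries.C d.t4) • v) = _
  simp only [c1_add, c1_smul, c1_Xsmul, c0_fY1 p h, c0_fY2 p h, c0_fY3 p h, c0_fW p h,
    c1_fY1 p h, c1_fY2 p h, c1_fY3 p h, c1_fW p h]
  ext i
  fin_cases i <;> simp [GX3, DX3, gY1, gY2, gY3, gW, dY1, dY2, dY3, dW] <;> ring

end

end Pool.Agent.Helper28.Hilb8.D
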