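import Pool.Agent.Helper28.Hilb8.D.FamOp

/-!
# Chart d: points from commuting operators, the first family to first order
-/

universe u

namespace Pool.Agent.Helper28.Hilb8.D

open MvPolynomial Pool.Agent.Helper97.Hilb8

section Words

variable {A : Type*} [Monoid A] (M : Fin 4 → A)

theorem word0 : chartD.monoEl M 0 = 1 := by
  simp [Chart.monoEl, chartD, monoD]

theorem word1 : chartD.monoEl M 1 = M 0 := by
  simp [Chart.monoEl, chartD, monoD, pow_two, mul_assoc]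

theorem word2 : chartD.monoEl M 2 = M 1 := by
  simp [Chart.monoEl, chartD, monoD, pow_two, mul_assoc]

theorem word3 : chartD.monoEl M 3 = M 2 := by
  simp [Chart.monoEl, chartD, monoD, pow_two, mul_assoc]

theorem word4 : chartD.monoEl M 4 = M 3 := by
  simp [Chart.monoEl, chartD, monoD, pow_two, mul_assoc]

theorem word5 : chartD.monoEl M 5 = M 0 * M 1 := by
  simp [Chart.monoEl, chartD, monoD, pow_two, mul_assoc]

theorem word6 : chartD.monoEl M 6 = M 0 * M 2 := by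
  simp [Chart.monoEl, chartD, monoD, pow_two, mul_assoc]

theorem word7 : chartD.monoEl M 7 = M 1 * M 2 := by
  simp [Chart.monoEl, chartD, monoD, pow_two, mul_assoc]

theorem word8 : chartD.monoEl M 8 = M 0 * M 0 := by
  simp [Chart.monoEl, chartD, monoD, pow_two, mul_assoc]

theorem word9 : chartD.monoEl M 9 = M 0 * M 3 := by
  simp [Chart.monoEl, chartD, monoD, pow_two, mul_assoc]

theorem word10 : chartD.monoEl M 10 = M 1 * M 1 := by
  simp [Chart.monoEl, chartD, monoD, pow_two, mul_assoc]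

theorem word11 : chartD.monoEl M 11 = M 1 * M 3 := by
  simp [Chart.monoEl, chartD, monoD, pow_two, mul_assoc]

theorem word12 : chartD.monoEl M 12 = M 2 * M 2 := by
  simp [Chart.monoEl, chartD, monoD, pow_two, mul_assoc]

theorem word13 : chartD.monoEl M 13 = M 2 * M 3 := by
  simp [Chart.monoEl, chartD, monoD, pow_two, mul_assoc]

theorem word14 : chartD.monoEl M 14 = M 3 * M 3 := by
  simp [Chart.monoEl, chartD, monoD, pow_two, mul_assoc]

theorem word15 : chartD.monoEl M 15 = M 0 * M 0 * M 1 := by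
  simp [Chart.monoEl, chartD, monoD, pow_two, mul_assoc]

theorem word16 : chartD.monoEl M 16 = M 0 * M 0 * M 2 := by
  simp [Chart.monoEl, chartD, monoD, pow_two, mul_assoc]

theorem word17 : chartD.monoEl M 17 = M 0 * M 1 * M 1 := by
  simp [Chart.monoEl, chartD, monoD, pow_two, mul_assoc]

theorem word18 : chartD.monoEl M 18 = M 0 * M 1 * M 2 := by
  simp [Chart.monoEl, chartD, monoD, pow_two, mul_assoc]

theorem word19 : chartD.monoEl M 19 = M 0 * M 1 * M 3 := by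
  simp [Chart.monoEl, chartD, monoD, pow_two, mul_assoc]

theorem word20 : chartD.monoEl M 20 = M 0 * M 2 * M 2 := by
  simp [Chart.monoEl, chartD, monoD, pow_two, mul_assoc]

theorem word21 : chartD.monoEl M 21 = M 0 * M 2 * M 3 := by
  simp [Chart.monoEl, chartD, monoD, pow_two, mul_assoc]

theorem word22 : chartD.monoEl M 22 = M 1 * M 1 * M 2 := by
  simp [Chart.monoEl, chartD, monoD, pow_two, mul_assoc]

theorem word23 : chartD.monoEl M 23 = M 1 * M 2 * M 2 := by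
  simp [Chart.monoEl, chartD, monoD, pow_two, mul_assoc]

theorem word24 : chartD.monoEl M 24 = M 1 * M 2 * M 3 := by
  simp [Chart.monoEl, chartD, monoD, pow_two, mul_assoc]

end Words

section Pt

variable {F : Type u} [Field F] {k : Type*} [Field k] [Algebra k F]

/-- The cyclic vector. -/
noncomputable def e0 (F : Type*) [Field F] : Fin 8 → PowerSeries F := ![1, 0, 0, 0, 0, 0, 0, 0]

theorem c0_e0 : c0 (e0 F) = ![1, 0, 0, 0, 0, 0, 0, 0] := by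
  ext i
  fin_cases i <;> simp [c0, e0]

theorem c1_e0 : c1 (e0 F) = ![0, 0, 0, 0, 0, 0, 0, 0] := by
  ext i
  fin_cases i <;> simp [c1, e0, PowerSeries.coeff_one]

/-- The lowest form of a family given by commuting operators. -/
theorem fam_of_ops (M : Fin 4 → Module.End (PowerSeries F) (Fin 8 → PowerSeries F))
    (hM : ∀ i j, M i * M j = M j * M i) (P0 : Matrix (Fin 8) (Fin 8) F) (hdet : P0.det ≠ 0)
    (hP : ∀ c : Fin 8, c0 (chartD.monoEl M c (e0 F)) = fun r => P0 r c)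
    (hu : ∀ β < 17, c0 (chartD.monoEl M (8 + β) (e0 F)) = 0)
    (W : ℕ → Fin 8 → F) (T : List ℕ) (hT : ∀ β ∈ T, β < 17)
    (hW : ∀ β ∈ T, c1 (chartD.monoEl M (8 + β) (e0 F)) = P0.mulVec (W β)) :
    ∃ θ : SD k →ₐ[k] F, HasFam (fun _ => 1) (chartD.ideal k) θ ∧
      ∀ β ∈ T, ∀ c : Fin 8, θ (Xv k (8 * β + c)) = W β c := by
  obtain ⟨a, hpt, h0, h1⟩ := exists_point chartD M hM (e0 F) P0 hdet
    (fun c r => by
      rw [PowerSeries.coeff_zero_eq_constantCoeff]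
      exact congrFun (hP c) r)
    (fun β hβ r => by
      rw [PowerSeries.coeff_zero_eq_constantCoeff]
      exact congrFun (hu β hβ) r)
  obtain ⟨θ, hθ, hv⟩ := hasFam_of_point chartD k a hpt h0
  refine ⟨θ, hθ, ?_⟩
  intro β hβ c
  have hlt : β < 17 := hT β hβ
  have h2 : P0.mulVec (fun c : Fin 8 => PowerSeries.coeff 1 (a (8 * β + c))) = P0.mulVec (W β) := by
    rw [← hW β hβ]
    ext r
    exact h1 β hlt r
  have h3 : P0.mulVec ((fun c : Fin 8 => PowerSeries.coeff 1 (a (8 * β + c))) - W β) = 0 := by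
    rw [Matrix.mulVec_sub, h2, sub_self]
  have h4 := congrFun (Matrix.eq_zero_of_mulVec_eq_zero hdet h3) c
  simp only [Pi.sub_apply, Pi.zero_apply] at h4
  have h5 : 8 * β + (c : ℕ) < 8 * chartD.nb := by
    have : chartD.nb = 17 := rfl
    omega
  rw [Xv_lt k h5, hv]
  exact sub_eq_zero.mp h4

end Pt

section Fam1

variable {F : Type u} [Field F]

/-- The matrix of the basis in the zeroth order. -/
def P0M (d : FamP F) : Matrix (Fin 8) (Fin 8) F :=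
  !![1, 0, 0, 0, 0, 0, 0, 0;
    0, 1, 0, 0, 0, 0, 0, 0;
    0, 0, 1, 0, 0, 0, 0, 0;
    0, 0, 0, 1, 0, 0, 0, 0;
    0, d.r1, d.r2, d.r3, 1, 0, 0, 0;
    0, d.P15, d.P25, d.P35, 0, 1, 0, 0;
    0, d.P16, d.P26, d.P36, 0, 0, 1, 0;
    0, d.P17, d.P27, d.P37, 0, 0, 0, 1]

theorem P0M_det (d : FamP F) : (P0M d).det ≠ 0 := by
  have h1 : (P0M d).BlockTriangular OrderDual.toDual := by
    intro i j hij
    have h2 : i < j := hij
    revert h2
    fin_cases i <;> fin_cases j <;> simp [P0M]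
  rw [Matrix.det_of_lowerTriangular _ h1, Fin.prod_univ_eight]
  simp [P0M]

/-- The first order coordinates of the first family. -/
def WF (q : Prm F) (d : FamP F) : ℕ → Fin 8 → F
  | 0 => ![0,
      q.a11,
      q.a12,
      q.a13,
      q.a11 * d.r1 + q.a12 * d.r2 + q.a13 * d.r3 + d.r1 * d.r1 * q.y,
      d.P15 * q.a11 + d.P25 * q.a12 + d.P35 * q.a13 + q.g3 * d.r1 * d.r1,
      d.P16 * q.a11 + d.P26 * q.a12 + d.P36 * q.a13 + q.g2 * d.r1 * d.r1,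
      d.P17 * q.a11 + d.P27 * q.a12 + d.P37 * q.a13 + q.g1 * d.r1 * d.r1]
  | 1 => ![0,
      d.t4,
      0,
      0,
      d.t1 + d.r1 * q.y,
      d.k2 + q.g3 * d.r1,
      d.k3 + q.g2 * d.r1,
      q.n1 + q.g1 * d.r1]
  | 2 => ![0,
      q.a21,
      q.a22,
      q.a23,
      q.a21 * d.r1 + q.a22 * d.r2 + q.a23 * d.r3 + d.r2 * d.r2 * q.y,
      d.P15 * q.a21 + d.P25 * q.a22 + d.P35 * q.a23 + q.g3 * d.r2 * d.r2,
      d.P16 * q.a21 + d.P26 * q.a22 + d.P36 * q.a23 + q.g2 * d.r2 * d.r2,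
      d.P17 * q.a21 + d.P27 * q.a22 + d.P37 * q.a23 + q.g1 * d.r2 * d.r2]
  | 3 => ![0,
      0,
      d.t4,
      0,
      d.t2 + d.r2 * q.y,
      d.k1 + q.g3 * d.r2,
      q.n2 + q.g2 * d.r2,
      d.k3 + q.g1 * d.r2]
  | 4 => ![0,
      q.a31,
      q.a32,
      q.a33,
      q.a31 * d.r1 + q.a32 * d.r2 + q.a33 * d.r3 + d.r3 * d.r3 * q.y,
      d.P15 * q.a31 + d.P25 * q.a32 + d.P35 * q.a33 + q.g3 * d.r3 * d.r3,
      d.P16 * q.a31 + d.P26 * q.a32 + d.P36 * q.a33 + q.g2 * d.r3 * d.r3,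
      d.P17 * q.a31 + d.P27 * q.a32 + d.P37 * q.a33 + q.g1 * d.r3 * d.r3]
  | 5 => ![0,
      0,
      0,
      d.t4,
      d.t3 + d.r3 * q.y,
      q.n3 + q.g3 * d.r3,
      d.k1 + q.g2 * d.r3,
      d.k2 + q.g1 * d.r3]
  | 6 => ![0,
      0,
      0,
      0,
      q.y,
      q.g3,
      q.g2,
      q.g1]
  | 10 => ![0,
      0,
      0,
      0,
      q.z,
      q.a33 + d.t3,
      q.a22 + d.t2,
      q.a11 + d.t1]
  | _ => 0

variable (p : Prm (PowerSeries F)) (d : FamP F) (h : p.Small)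

include h

theorem c0_w0 : c0 (opX p d 0 (e0 F)) = ![0, 1, 0, 0, d.r1, d.P15, d.P16, d.P17] := by
  rw [c0_X0 p d h, c0_e0]
  ext i
  fin_cases i <;> simp [GX0]

theorem c1_w0 : c1 (opX p d 0 (e0 F)) = ![d.t1, 0, 0, 0, 0, 0, 0, 0] := by
  rw [c1_X0 p d h, c1_e0, c0_e0]
  ext i
  fin_cases i <;> simp [GX0, DX0]

theorem c0_w1 : c0 (opX p d 1 (e0 F)) = ![0, 0, 1, 0, d.r2, d.P25, d.P26, d.P27] := by
  rw [c0_X1 p d h, c0_e0]
  ext i
  fin_cases i <;> simp [GX1]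

theorem c1_w1 : c1 (opX p d 1 (e0 F)) = ![d.t2, 0, 0, 0, 0, 0, 0, 0] := by
  rw [c1_X1 p d h, c1_e0, c0_e0]
  ext i
  fin_cases i <;> simp [GX1, DX1]

theorem c0_w2 : c0 (opX p d 2 (e0 F)) = ![0, 0, 0, 1, d.r3, d.P35, d.P36, d.P37] := by
  rw [c0_X2 p d h, c0_e0]
  ext i
  fin_cases i <;> simp [GX2]

theorem c1_w2 : c1 (opX p d 2 (e0 F)) = ![d.t3, 0, 0, 0, 0, 0, 0, 0] := by
  rw [c1_X2 p d h, c1_e0, c0_e0]
  ext i
  fin_cases i <;> simp [GX2, DX2]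

theorem c0_w3 : c0 (opX p d 3 (e0 F)) = ![0, 0, 0, 0, 1, 0, 0, 0] := by
  rw [c0_X3 p d h, c0_e0]
  ext i
  fin_cases i <;> simp [GX3]

theorem c1_w3 : c1 (opX p d 3 (e0 F)) = ![d.t4, d.k1, d.k2, d.k3, 0, 0, 0, 0] := by
  rw [c1_X3 p d h, c1_e0, c0_e0]
  ext i
  fin_cases i <;> simp [GX3, DX3]

theorem c0_w01 : c0 (opX p d 0 (opX p d 1 (e0 F))) = ![0, 0, 0, 0, 0, 1, 0, 0] := by
  rw [c0_X0 p d h, c0_w1 p d h]
  ext i
  fin_cases i <;> simp [GX0]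

theorem c0_w02 : c0 (opX p d 0 (opX p d 2 (e0 F))) = ![0, 0, 0, 0, 0, 0, 1, 0] := by
  rw [c0_X0 p d h, c0_w2 p d h]
  ext i
  fin_cases i <;> simp [GX0]

theorem c0_w12 : c0 (opX p d 1 (opX p d 2 (e0 F))) = ![0, 0, 0, 0, 0, 0, 0, 1] := by
  rw [c0_X1 p d h, c0_w2 p d h]
  ext i
  fin_cases i <;> simp [GX1]

theorem c0_w00 : c0 (opX p d 0 (opX p d 0 (e0 F))) = ![0, 0, 0, 0, 0, 0, 0, 0] := by
  rw [c0_X0 p d h, c0_w0 p d h]
  ext i
  fin_cases i <;> simp [GX0]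

theorem c0_w03 : c0 (opX p d 0 (opX p d 3 (e0 F))) = ![0, 0, 0, 0, 0, 0, 0, 0] := by
  rw [c0_X0 p d h, c0_w3 p d h]
  ext i
  fin_cases i <;> simp [GX0]

theorem c0_w11 : c0 (opX p d 1 (opX p d 1 (e0 F))) = ![0, 0, 0, 0, 0, 0, 0, 0] := by
  rw [c0_X1 p d h, c0_w1 p d h]
  ext i
  fin_cases i <;> simp [GX1]

theorem c0_w13 : c0 (opX p d 1 (opX p d 3 (e0 F))) = ![0, 0, 0, 0, 0, 0, 0, 0] := by
  rw [c0_X1 p d h, c0_w3 p d h]
  ext i
  fin_cases i <;> simp [GX1]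

theorem c0_w22 : c0 (opX p d 2 (opX p d 2 (e0 F))) = ![0, 0, 0, 0, 0, 0, 0, 0] := by
  rw [c0_X2 p d h, c0_w2 p d h]
  ext i
  fin_cases i <;> simp [GX2]

theorem c0_w23 : c0 (opX p d 2 (opX p d 3 (e0 F))) = ![0, 0, 0, 0, 0, 0, 0, 0] := by
  rw [c0_X2 p d h, c0_w3 p d h]
  ext i
  fin_cases i <;> simp [GX2]

theorem c0_w33 : c0 (opX p d 3 (opX p d 3 (e0 F))) = ![0, 0, 0, 0, 0, 0, 0, 0] := by
  rw [c0_X3 p d h, c0_w3 p d h]
  ext i
  fin_cases i <;> simp [GX3]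

theorem c0_w001 : c0 (opX p d 0 (opX p d 0 (opX p d 1 (e0 F)))) = ![0, 0, 0, 0, 0, 0, 0, 0] := by
  rw [c0_X0 p d h, c0_w01 p d h]
  ext i
  fin_cases i <;> simp [GX0]

theorem c0_w002 : c0 (opX p d 0 (opX p d 0 (opX p d 2 (e0 F)))) = ![0, 0, 0, 0, 0, 0, 0, 0] := by
  rw [c0_X0 p d h, c0_w02 p d h]
  ext i
  fin_cases i <;> simp [GX0]

theorem c0_w011 : c0 (opX p d 0 (opX p d 1 (opX p d 1 (e0 F)))) = ![0, 0, 0, 0, 0, 0, 0, 0] := by
  rw [c0_X0 p d h, c0_w11 p d h]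
  ext i
  fin_cases i <;> simp [GX0]

theorem c0_w012 : c0 (opX p d 0 (opX p d 1 (opX p d 2 (e0 F)))) = ![0, 0, 0, 0, 0, 0, 0, 0] := by
  rw [c0_X0 p d h, c0_w12 p d h]
  ext i
  fin_cases i <;> simp [GX0]

theorem c0_w013 : c0 (opX p d 0 (opX p d 1 (opX p d 3 (e0 F)))) = ![0, 0, 0, 0, 0, 0, 0, 0] := by
  rw [c0_X0 p d h, c0_w13 p d h]
  ext i
  fin_cases i <;> simp [GX0]

theorem c0_w022 : c0 (opX p d 0 (opX p d 2 (opX p d 2 (e0 F)))) = ![0, 0, 0, 0, 0, 0, 0, 0] := by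
  rw [c0_X0 p d h, c0_w22 p d h]
  ext i
  fin_cases i <;> simp [GX0]

theorem c0_w023 : c0 (opX p d 0 (opX p d 2 (opX p d 3 (e0 F)))) = ![0, 0, 0, 0, 0, 0, 0, 0] := by
  rw [c0_X0 p d h, c0_w23 p d h]
  ext i
  fin_cases i <;> simp [GX0]

theorem c0_w112 : c0 (opX p d 1 (opX p d 1 (opX p d 2 (e0 F)))) = ![0, 0, 0, 0, 0, 0, 0, 0] := by
  rw [c0_X1 p d h, c0_w12 p d h]
  ext i
  fin_cases i <;> simp [GX1]

theorem c0_w122 : c0 (opX p d 1 (opX p d 2 (opX p d 2 (e0 F)))) = ![0, 0, 0, 0, 0, 0, 0, 0] := by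
  rw [c0_X1 p d h, c0_w22 p d h]
  ext i
  fin_cases i <;> simp [GX1]

theorem c0_w123 : c0 (opX p d 1 (opX p d 2 (opX p d 3 (e0 F)))) = ![0, 0, 0, 0, 0, 0, 0, 0] := by
  rw [c0_X1 p d h, c0_w23 p d h]
  ext i
  fin_cases i <;> simp [GX1]

end Fam1

end Pool.Agent.Helper28.Hilb8.D
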