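import Pool.Agent.Helper28.Hilb8.D.FamPt

/-!
# Chart d: values of the first family
-/

universe u

namespace Pool.Agent.Helper28.Hilb8.D

open MvPolynomial Pool.Agent.Helper97.Hilb8

section Fam1

variable {F : Type u} [Field F] (p : Prm (PowerSeries F)) (d : FamP F) (h : p.Small)

theorem P0M_mulVec (w : Fin 8 → F) : (P0M d).mulVec w = ![w 0, w 1, w 2, w 3,
    d.r1 * w 1 + d.r2 * w 2 + d.r3 * w 3 + w 4, d.P15 * w 1 + d.P25 * w 2 + d.P35 * w 3 + w 5,
    d.P16 * w 1 + d.P26 * w 2 + d.P36 * w 3 + w 6,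
    d.P17 * w 1 + d.P27 * w 2 + d.P37 * w 3 + w 7] := by
  ext i
  fin_cases i <;> simp [P0M, Matrix.mulVec, dotProduct, Fin.sum_univ_eight]

include h

theorem c1_w12 : c1 (opX p d 1 (opX p d 2 (e0 F))) = ![0, 0, d.t3, d.t2, d.P25 * p.one.z + d.P36 *
    p.one.z + d.r2 * d.t3 + d.r3 * d.t2 - d.r2 * d.r3 * p.one.y, d.P25 * p.one.a33 + d.P25 * d.t3 +
    d.P26 * p.one.a32 + d.P27 * p.one.a31 + d.P35 * p.one.a22 + d.P35 * d.t2 + d.P36 * p.one.a33 +
    p.one.n3 * d.r2 + p.one.g3 * d.r2 * d.r3, d.P25 * p.one.a22 + d.P26 * p.one.a33 + d.P26 * d.t3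
    + d.P35 * p.one.a23 + d.P36 * p.one.a22 + d.P36 * d.t2 + d.P37 * p.one.a21 + p.one.n2 * d.r3 +
    p.one.g2 * d.r2 * d.r3, d.P25 * p.one.a11 + d.P27 * p.one.a33 + d.P27 * d.t3 + d.P36 *
    p.one.a11 + d.P37 * p.one.a22 + d.P37 * d.t2 + p.one.g1 * d.r2 * d.r3] := by
  rw [c1_X1 p d h, c1_w2 p d h, c0_w2 p d h]
  ext i
  fin_cases i <;> simp [GX1, DX1] <;> try ring

theorem val0 (h2 : (2 : F) = 0) : c1 (opX p d 0 (opX p d 0 (e0 F))) =
    (P0M d).mulVec (WF p.one d 0) := by
  rw [c1_X0 p d h, c1_w0 p d h, c0_w0 p d h, P0M_mulVec]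
  ext i
  fin_cases i
  · simp [GX0, DX0, WF]
    try ring
  · simp [GX0, DX0, WF]
    linear_combination (d.t1) * h2
  · simp [GX0, DX0, WF]
    try ring
  · simp [GX0, DX0, WF]
    try ring
  · simp [GX0, DX0, WF]
    linear_combination (d.P17 * p.one.z - p.one.a11 * d.r1 - p.one.a12 * d.r2 - p.one.a13 * d.r3 +
      d.r1 * d.t1 - d.r1 * d.r1 * p.one.y) * h2
  · simp [GX0, DX0, WF]
    linear_combination (d.P15 * d.t1 + d.P17 * p.one.a33 - d.P25 * p.one.a12 - d.P35 * p.one.a13) *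
      h2
  · simp [GX0, DX0, WF]
    linear_combination (d.P16 * d.t1 + d.P17 * p.one.a22 - d.P26 * p.one.a12 - d.P36 * p.one.a13) *
      h2
  · simp [GX0, DX0, WF]
    linear_combination (d.P15 * p.one.a13 + d.P16 * p.one.a12 + d.P17 * d.t1 - d.P27 * p.one.a12 -
      d.P37 * p.one.a13 + p.one.n1 * d.r1) * h2

theorem val1 (h2 : (2 : F) = 0) : c1 (opX p d 0 (opX p d 3 (e0 F))) =
    (P0M d).mulVec (WF p.one d 1) := by
  rw [c1_X0 p d h, c1_w3 p d h, c0_w3 p d h, P0M_mulVec]
  ext i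
  fin_cases i
  · simp [GX0, DX0, WF]
    try ring
  · simp [GX0, DX0, WF]
    try ring
  · simp [GX0, DX0, WF]
    try ring
  · simp [GX0, DX0, WF]
    try ring
  · simp [GX0, DX0, WF]
    linear_combination (-d.r1 * p.one.y) * h2
  · simp [GX0, DX0, WF]
    try ring
  · simp [GX0, DX0, WF]
    try ring
  · simp [GX0, DX0, WF]
    try ring

theorem val2 (h2 : (2 : F) = 0) : c1 (opX p d 1 (opX p d 1 (e0 F))) =
    (P0M d).mulVec (WF p.one d 2) := by
  rw [c1_X1 p d h, c1_w1 p d h, c0_w1 p d h, P0M_mulVec]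
  ext i
  fin_cases i
  · simp [GX1, DX1, WF]
    try ring
  · simp [GX1, DX1, WF]
    try ring
  · simp [GX1, DX1, WF]
    linear_combination (d.t2) * h2
  · simp [GX1, DX1, WF]
    try ring
  · simp [GX1, DX1, WF]
    linear_combination (d.P26 * p.one.z - p.one.a21 * d.r1 - p.one.a22 * d.r2 - p.one.a23 * d.r3 +
      d.r2 * d.t2 - d.r2 * d.r2 * p.one.y) * h2
  · simp [GX1, DX1, WF]
    linear_combination (-d.P15 * p.one.a21 + d.P25 * d.t2 + d.P26 * p.one.a33 - d.P35 * p.one.a23)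
      * h2
  · simp [GX1, DX1, WF]
    linear_combination (-d.P16 * p.one.a21 + d.P25 * p.one.a23 + d.P26 * d.t2 + d.P27 * p.one.a21 -
      d.P36 * p.one.a23 + p.one.n2 * d.r2) * h2
  · simp [GX1, DX1, WF]
    linear_combination (-d.P17 * p.one.a21 + d.P26 * p.one.a11 + d.P27 * d.t2 - d.P37 * p.one.a23)
      * h2

theorem val3 (h2 : (2 : F) = 0) : c1 (opX p d 1 (opX p d 3 (e0 F))) =
    (P0M d).mulVec (WF p.one d 3) := by
  rw [c1_X1 p d h, c1_w3 p d h, c0_w3 p d h, P0M_mulVec]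
  ext i
  fin_cases i
  · simp [GX1, DX1, WF]
    try ring
  · simp [GX1, DX1, WF]
    try ring
  · simp [GX1, DX1, WF]
    try ring
  · simp [GX1, DX1, WF]
    try ring
  · simp [GX1, DX1, WF]
    linear_combination (-d.r2 * p.one.y) * h2
  · simp [GX1, DX1, WF]
    try ring
  · simp [GX1, DX1, WF]
    try ring
  · simp [GX1, DX1, WF]
    try ring

theorem val4 (h2 : (2 : F) = 0) : c1 (opX p d 2 (opX p d 2 (e0 F))) =
    (P0M d).mulVec (WF p.one d 4) := by
  rw [c1_X2 p d h, c1_w2 p d h, c0_w2 p d h, P0M_mulVec]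
  ext i
  fin_cases i
  · simp [GX2, DX2, WF]
    try ring
  · simp [GX2, DX2, WF]
    try ring
  · simp [GX2, DX2, WF]
    try ring
  · simp [GX2, DX2, WF]
    linear_combination (d.t3) * h2
  · simp [GX2, DX2, WF]
    linear_combination (d.P35 * p.one.z - p.one.a31 * d.r1 - p.one.a32 * d.r2 - p.one.a33 * d.r3 +
      d.r3 * d.t3 - d.r3 * d.r3 * p.one.y) * h2
  · simp [GX2, DX2, WF]
    linear_combination (-d.P15 * p.one.a31 - d.P25 * p.one.a32 + d.P35 * d.t3 + d.P36 * p.one.a32 +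
      d.P37 * p.one.a31 + p.one.n3 * d.r3) * h2
  · simp [GX2, DX2, WF]
    linear_combination (-d.P16 * p.one.a31 - d.P26 * p.one.a32 + d.P35 * p.one.a22 + d.P36 * d.t3)
      * h2
  · simp [GX2, DX2, WF]
    linear_combination (-d.P17 * p.one.a31 - d.P27 * p.one.a32 + d.P35 * p.one.a11 + d.P37 * d.t3)
      * h2

theorem val5 (h2 : (2 : F) = 0) : c1 (opX p d 2 (opX p d 3 (e0 F))) =
    (P0M d).mulVec (WF p.one d 5) := by
  rw [c1_X2 p d h, c1_w3 p d h, c0_w3 p d h, P0M_mulVec]
  ext i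
  fin_cases i
  · simp [GX2, DX2, WF]
    try ring
  · simp [GX2, DX2, WF]
    try ring
  · simp [GX2, DX2, WF]
    try ring
  · simp [GX2, DX2, WF]
    try ring
  · simp [GX2, DX2, WF]
    linear_combination (-d.r3 * p.one.y) * h2
  · simp [GX2, DX2, WF]
    try ring
  · simp [GX2, DX2, WF]
    try ring
  · simp [GX2, DX2, WF]
    try ring

theorem val6 (h2 : (2 : F) = 0) : c1 (opX p d 3 (opX p d 3 (e0 F))) =
    (P0M d).mulVec (WF p.one d 6) := by
  rw [c1_X3 p d h, c1_w3 p d h, c0_w3 p d h, P0M_mulVec]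
  ext i
  fin_cases i
  · simp [GX3, DX3, WF]
    try ring
  · simp [GX3, DX3, WF]
    try ring
  · simp [GX3, DX3, WF]
    try ring
  · simp [GX3, DX3, WF]
    try ring
  · simp [GX3, DX3, WF]
    linear_combination (d.t4 - p.one.y) * h2
  · simp [GX3, DX3, WF]
    try ring
  · simp [GX3, DX3, WF]
    try ring
  · simp [GX3, DX3, WF]
    try ring

theorem val10 (h2 : (2 : F) = 0) : c1 (opX p d 0 (opX p d 1 (opX p d 2 (e0 F)))) =
    (P0M d).mulVec (WF p.one d 10) := by
  rw [c1_X0 p d h, c1_w12 p d h, c0_w12 p d h, P0M_mulVec]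
  ext i
  fin_cases i
  · simp [GX0, DX0, WF]
    try ring
  · simp [GX0, DX0, WF]
    try ring
  · simp [GX0, DX0, WF]
    try ring
  · simp [GX0, DX0, WF]
    try ring
  · simp [GX0, DX0, WF]
    try ring
  · simp [GX0, DX0, WF]
    try ring
  · simp [GX0, DX0, WF]
    try ring
  · simp [GX0, DX0, WF]
    try ring

omit h in
/-- The first family. -/
theorem fam1 {k : Type*} [Field k] [Algebra k F] (h2 : (2 : F) = 0) (p : Prm (PowerSeries F))
    (hs : p.Small) (hok : p.Ok) (hz : p.z ≠ 0) (d : FamP F) :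
    ∃ θ : SD k →ₐ[k] F, HasFam (fun _ => 1) (chartD.ideal k) θ ∧
      ∀ β ∈ [0, 1, 2, 3, 4, 5, 6, 10], ∀ c : Fin 8, θ (Xv k (8 * β + c)) = WF p.one d β c := by
  have hz8 : (![0, 0, 0, 0, 0, 0, 0, 0] : Fin 8 → F) = 0 := by
    ext i
    fin_cases i <;> rfl
  refine fam_of_ops (opX p d) (fun i j => opX_comm p d hok hz i j) (P0M d) (P0M_det d) ?_ ?_
    (WF p.one d) _ (by decide) ?_
  · intro c
    fin_cases c
    · change c0 (chartD.monoEl (opX p d) 0 (e0 F)) = _
      rw [word0, Module.End.one_apply, c0_e0]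
      ext r
      fin_cases r <;> simp [P0M]
    · change c0 (chartD.monoEl (opX p d) 1 (e0 F)) = _
      rw [word1, c0_w0 p d hs]
      ext r
      fin_cases r <;> simp [P0M]
    · change c0 (chartD.monoEl (opX p d) 2 (e0 F)) = _
      rw [word2, c0_w1 p d hs]
      ext r
      fin_cases r <;> simp [P0M]
    · change c0 (chartD.monoEl (opX p d) 3 (e0 F)) = _
      rw [word3, c0_w2 p d hs]
      ext r
      fin_cases r <;> simp [P0M]
    · change c0 (chartD.monoEl (opX p d) 4 (e0 F)) = _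
      rw [word4, c0_w3 p d hs]
      ext r
      fin_cases r <;> simp [P0M]
    · change c0 (chartD.monoEl (opX p d) 5 (e0 F)) = _
      rw [word5, Module.End.mul_apply, c0_w01 p d hs]
      ext r
      fin_cases r <;> simp [P0M]
    · change c0 (chartD.monoEl (opX p d) 6 (e0 F)) = _
      rw [word6, Module.End.mul_apply, c0_w02 p d hs]
      ext r
      fin_cases r <;> simp [P0M]
    · change c0 (chartD.monoEl (opX p d) 7 (e0 F)) = _
      rw [word7, Module.End.mul_apply, c0_w12 p d hs]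
      ext r
      fin_cases r <;> simp [P0M]
  · intro β hβ
    interval_cases β
    · change c0 (chartD.monoEl (opX p d) 8 (e0 F)) = _
      rw [word8, Module.End.mul_apply, c0_w00 p d hs, hz8]
    · change c0 (chartD.monoEl (opX p d) 9 (e0 F)) = _
      rw [word9, Module.End.mul_apply, c0_w03 p d hs, hz8]
    · change c0 (chartD.monoEl (opX p d) 10 (e0 F)) = _
      rw [word10, Module.End.mul_apply, c0_w11 p d hs, hz8]
    · change c0 (chartD.monoEl (opX p d) 11 (e0 F)) = _
      rw [word11, Module.End.mul_apply, c0_w13 p d hs, hz8]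
    · change c0 (chartD.monoEl (opX p d) 12 (e0 F)) = _
      rw [word12, Module.End.mul_apply, c0_w22 p d hs, hz8]
    · change c0 (chartD.monoEl (opX p d) 13 (e0 F)) = _
      rw [word13, Module.End.mul_apply, c0_w23 p d hs, hz8]
    · change c0 (chartD.monoEl (opX p d) 14 (e0 F)) = _
      rw [word14, Module.End.mul_apply, c0_w33 p d hs, hz8]
    · change c0 (chartD.monoEl (opX p d) 15 (e0 F)) = _
      rw [word15, Module.End.mul_apply, Module.End.mul_apply, c0_w001 p d hs, hz8]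
    · change c0 (chartD.monoEl (opX p d) 16 (e0 F)) = _
      rw [word16, Module.End.mul_apply, Module.End.mul_apply, c0_w002 p d hs, hz8]
    · change c0 (chartD.monoEl (opX p d) 17 (e0 F)) = _
      rw [word17, Module.End.mul_apply, Module.End.mul_apply, c0_w011 p d hs, hz8]
    · change c0 (chartD.monoEl (opX p d) 18 (e0 F)) = _
      rw [word18, Module.End.mul_apply, Module.End.mul_apply, c0_w012 p d hs, hz8]
    · change c0 (chartD.monoEl (opX p d) 19 (e0 F)) = _
      rw [word19, Module.End.mul_apply, Module.End.mul_apply, c0_w013 p d hs, hz8]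
    · change c0 (chartD.monoEl (opX p d) 20 (e0 F)) = _
      rw [word20, Module.End.mul_apply, Module.End.mul_apply, c0_w022 p d hs, hz8]
    · change c0 (chartD.monoEl (opX p d) 21 (e0 F)) = _
      rw [word21, Module.End.mul_apply, Module.End.mul_apply, c0_w023 p d hs, hz8]
    · change c0 (chartD.monoEl (opX p d) 22 (e0 F)) = _
      rw [word22, Module.End.mul_apply, Module.End.mul_apply, c0_w112 p d hs, hz8]
    · change c0 (chartD.monoEl (opX p d) 23 (e0 F)) = _
      rw [word23, Module.End.mul_apply, Module.End.mul_apply, c0_w122 p d hs, hz8]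
    · change c0 (chartD.monoEl (opX p d) 24 (e0 F)) = _
      rw [word24, Module.End.mul_apply, Module.End.mul_apply, c0_w123 p d hs, hz8]
  · intro β hβ
    simp only [List.mem_cons, List.not_mem_nil, or_false] at hβ
    rcases hβ with rfl | rfl | rfl | rfl | rfl | rfl | rfl | rfl
    · change c1 (chartD.monoEl (opX p d) 8 (e0 F)) = _
      rw [word8, Module.End.mul_apply, val0 p d hs h2]
    · change c1 (chartD.monoEl (opX p d) 9 (e0 F)) = _
      rw [word9, Module.End.mul_apply, val1 p d hs h2]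
    · change c1 (chartD.monoEl (opX p d) 10 (e0 F)) = _
      rw [word10, Module.End.mul_apply, val2 p d hs h2]
    · change c1 (chartD.monoEl (opX p d) 11 (e0 F)) = _
      rw [word11, Module.End.mul_apply, val3 p d hs h2]
    · change c1 (chartD.monoEl (opX p d) 12 (e0 F)) = _
      rw [word12, Module.End.mul_apply, val4 p d hs h2]
    · change c1 (chartD.monoEl (opX p d) 13 (e0 F)) = _
      rw [word13, Module.End.mul_apply, val5 p d hs h2]
    · change c1 (chartD.monoEl (opX p d) 14 (e0 F)) = _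
      rw [word14, Module.End.mul_apply, val6 p d hs h2]
    · change c1 (chartD.monoEl (opX p d) 18 (e0 F)) = _
      rw [word18, Module.End.mul_apply, Module.End.mul_apply, val10 p d hs h2]

end Fam1

end Pool.Agent.Helper28.Hilb8.D
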