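import Pool.Agent.Helper28.Hilb8.D.Core
import Pool.Agent.Helper28.Hilb8.D.Comm
import Pool.Agent.Helper28.Hilb8.Point

/-!
# Chart d: families from the core algebra, to first order
-/

universe u

namespace Pool.Agent.Helper28.Hilb8.D

open MvPolynomial Pool.Agent.Helper97.Hilb8

section FirstOrder

variable {F : Type*} [Field F]

/-- Constant coefficients. -/
noncomputable def c0 (v : Fin 8 → PowerSeries F) (i : Fin 8) : F := PowerSeries.constantCoeff (v i)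

/-- Coefficients of `T`. -/
noncomputable def c1 (v : Fin 8 → PowerSeries F) (i : Fin 8) : F := PowerSeries.coeff 1 (v i)

theorem c0_add (v w : Fin 8 → PowerSeries F) : c0 (v + w) = c0 v + c0 w := by
  ext i; simp [c0]

theorem c1_add (v w : Fin 8 → PowerSeries F) : c1 (v + w) = c1 v + c1 w := by
  ext i; simp [c1]

theorem c0_smul (r : F) (v : Fin 8 → PowerSeries F) : c0 (PowerSeries.C r • v) = r • c0 v := by
  ext i; simp [c0]

theorem c1_smul (r : F) (v : Fin 8 → PowerSeries F) : c1 (PowerSeries.C r • v) = r • c1 v := by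
  ext i; simp [c1, PowerSeries.coeff_one_mul]
  try ring

theorem c0_Xsmul (r : F) (v : Fin 8 → PowerSeries F) :
    c0 ((PowerSeries.X * PowerSeries.C r) • v) = 0 := by
  ext i; simp [c0]

theorem c1_Xsmul (r : F) (v : Fin 8 → PowerSeries F) :
    c1 ((PowerSeries.X * PowerSeries.C r) • v) = r • c0 v := by
  ext i; simp [c1, c0, PowerSeries.coeff_one_mul]
  try ring

/-- All parameters are divisible by `T`. -/
structure Prm.Small (p : Prm (PowerSeries F)) : Prop where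
  z : PowerSeries.constantCoeff p.z = 0
  a11 : PowerSeries.constantCoeff p.a11 = 0
  a12 : PowerSeries.constantCoeff p.a12 = 0
  a13 : PowerSeries.constantCoeff p.a13 = 0
  a21 : PowerSeries.constantCoeff p.a21 = 0
  a22 : PowerSeries.constantCoeff p.a22 = 0
  a23 : PowerSeries.constantCoeff p.a23 = 0
  a31 : PowerSeries.constantCoeff p.a31 = 0
  a32 : PowerSeries.constantCoeff p.a32 = 0
  a33 : PowerSeries.constantCoeff p.a33 = 0
  n1 : PowerSeries.constantCoeff p.n1 = 0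
  n2 : PowerSeries.constantCoeff p.n2 = 0
  n3 : PowerSeries.constantCoeff p.n3 = 0
  y : PowerSeries.constantCoeff p.y = 0
  g1 : PowerSeries.constantCoeff p.g1 = 0
  g2 : PowerSeries.constantCoeff p.g2 = 0
  g3 : PowerSeries.constantCoeff p.g3 = 0

/-- The first order parts of the parameters. -/
noncomputable def Prm.one (p : Prm (PowerSeries F)) : Prm F where
  z := PowerSeries.coeff 1 p.z
  a11 := PowerSeries.coeff 1 p.a11
  a12 := PowerSeries.coeff 1 p.a12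
  a13 := PowerSeries.coeff 1 p.a13
  a21 := PowerSeries.coeff 1 p.a21
  a22 := PowerSeries.coeff 1 p.a22
  a23 := PowerSeries.coeff 1 p.a23
  a31 := PowerSeries.coeff 1 p.a31
  a32 := PowerSeries.coeff 1 p.a32
  a33 := PowerSeries.coeff 1 p.a33
  n1 := PowerSeries.coeff 1 p.n1
  n2 := PowerSeries.coeff 1 p.n2
  n3 := PowerSeries.coeff 1 p.n3
  y := PowerSeries.coeff 1 p.y
  g1 := PowerSeries.coeff 1 p.g1
  g2 := PowerSeries.coeff 1 p.g2
  g3 := PowerSeries.coeff 1 p.g3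

/-- Zeroth order part of `Y1`. -/
def gY1 (v : Fin 8 → F) : Fin 8 → F :=
  ![0, v 0, 0, 0, 0, v 2, v 3, 0]

/-- First order part of `Y1`. -/
def dY1 (q : Prm F) (v : Fin 8 → F) : Fin 8 → F :=
  ![0,
    q.a11 * v 1,
    q.a12 * v 1,
    q.a13 * v 1,
    q.z * v 7,
    q.a11 * v 5 + q.a33 * v 7,
    q.a11 * v 6 + q.a22 * v 7,
    q.n1 * v 4 + q.a13 * v 5 + q.a12 * v 6 + q.a11 * v 7]

theorem c0_fY1 (p : Prm (PowerSeries F)) (h : p.Small) (v : Fin 8 → PowerSeries F) :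
    c0 (fY1 p v) = gY1 (c0 v) := by
  ext i
  fin_cases i <;> simp [c0, fY1, gY1, h.z, h.a11, h.a12, h.a13, h.a21, h.a22, h.a23, h.a31, h.a32,
    h.a33, h.n1, h.n2, h.n3, h.y, h.g1, h.g2, h.g3]

theorem c1_fY1 (p : Prm (PowerSeries F)) (h : p.Small) (v : Fin 8 → PowerSeries F) :
    c1 (fY1 p v) = gY1 (c1 v) + dY1 p.one (c0 v) := by
  ext i
  fin_cases i <;> simp [c0, c1, fY1, gY1, dY1, Prm.one, PowerSeries.coeff_one_mul, h.z, h.a11, h.a12,
    h.a13, h.a21, h.a22, h.a23, h.a31, h.a32, h.a33, h.n1, h.n2, h.n3, h.y, h.g1, h.g2, h.g3] <;>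
    ring

/-- Zeroth order part of `Y2`. -/
def gY2 (v : Fin 8 → F) : Fin 8 → F :=
  ![0, 0, v 0, 0, 0, v 1, 0, v 3]

/-- First order part of `Y2`. -/
def dY2 (q : Prm F) (v : Fin 8 → F) : Fin 8 → F :=
  ![0,
    q.a21 * v 2,
    q.a22 * v 2,
    q.a23 * v 2,
    q.z * v 6,
    q.a22 * v 5 + q.a33 * v 6,
    q.n2 * v 4 + q.a23 * v 5 + q.a22 * v 6 + q.a21 * v 7,
    q.a11 * v 6 + q.a22 * v 7]

theorem c0_fY2 (p : Prm (PowerSeries F)) (h : p.Small) (v : Fin 8 → PowerSeries F) :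
    c0 (fY2 p v) = gY2 (c0 v) := by
  ext i
  fin_cases i <;> simp [c0, fY2, gY2, h.z, h.a11, h.a12, h.a13, h.a21, h.a22, h.a23, h.a31, h.a32,
    h.a33, h.n1, h.n2, h.n3, h.y, h.g1, h.g2, h.g3]

theorem c1_fY2 (p : Prm (PowerSeries F)) (h : p.Small) (v : Fin 8 → PowerSeries F) :
    c1 (fY2 p v) = gY2 (c1 v) + dY2 p.one (c0 v) := by
  ext i
  fin_cases i <;> simp [c0, c1, fY2, gY2, dY2, Prm.one, PowerSeries.coeff_one_mul, h.z, h.a11, h.a12,
    h.a13, h.a21, h.a22, h.a23, h.a31, h.a32, h.a33, h.n1, h.n2, h.n3, h.y, h.g1, h.g2, h.g3] <;>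
    ring

/-- Zeroth order part of `Y3`. -/
def gY3 (v : Fin 8 → F) : Fin 8 → F :=
  ![0, 0, 0, v 0, 0, 0, v 1, v 2]

/-- First order part of `Y3`. -/
def dY3 (q : Prm F) (v : Fin 8 → F) : Fin 8 → F :=
  ![0,
    q.a31 * v 3,
    q.a32 * v 3,
    q.a33 * v 3,
    q.z * v 5,
    q.n3 * v 4 + q.a33 * v 5 + q.a32 * v 6 + q.a31 * v 7,
    q.a22 * v 5 + q.a33 * v 6,
    q.a11 * v 5 + q.a33 * v 7]

theorem c0_fY3 (p : Prm (PowerSeries F)) (h : p.Small) (v : Fin 8 → PowerSeries F) :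
    c0 (fY3 p v) = gY3 (c0 v) := by
  ext i
  fin_cases i <;> simp [c0, fY3, gY3, h.z, h.a11, h.a12, h.a13, h.a21, h.a22, h.a23, h.a31, h.a32,
    h.a33, h.n1, h.n2, h.n3, h.y, h.g1, h.g2, h.g3]

theorem c1_fY3 (p : Prm (PowerSeries F)) (h : p.Small) (v : Fin 8 → PowerSeries F) :
    c1 (fY3 p v) = gY3 (c1 v) + dY3 p.one (c0 v) := by
  ext i
  fin_cases i <;> simp [c0, c1, fY3, gY3, dY3, Prm.one, PowerSeries.coeff_one_mul, h.z, h.a11, h.a12,
    h.a13, h.a21, h.a22, h.a23, h.a31, h.a32, h.a33, h.n1, h.n2, h.n3, h.y, h.g1, h.g2, h.g3] <;>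
    ring

/-- Zeroth order part of `W`. -/
def gW (v : Fin 8 → F) : Fin 8 → F :=
  ![0, 0, 0, 0, v 0, 0, 0, 0]

/-- First order part of `W`. -/
def dW (q : Prm F) (v : Fin 8 → F) : Fin 8 → F :=
  ![0,
    0,
    0,
    0,
    (-q.y) * v 4,
    q.n3 * v 3 + q.g3 * v 4,
    q.n2 * v 2 + q.g2 * v 4,
    q.n1 * v 1 + q.g1 * v 4]

theorem c0_fW (p : Prm (PowerSeries F)) (h : p.Small) (v : Fin 8 → PowerSeries F) :
    c0 (fW p v) = gW (c0 v) := by
  ext i
  fin_cases i <;> simp [c0, fW, gW, h.z, h.a11, h.a12, h.a13, h.a21, h.a22, h.a23, h.a31, h.a32,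
    h.a33, h.n1, h.n2, h.n3, h.y, h.g1, h.g2, h.g3]

theorem c1_fW (p : Prm (PowerSeries F)) (h : p.Small) (v : Fin 8 → PowerSeries F) :
    c1 (fW p v) = gW (c1 v) + dW p.one (c0 v) := by
  ext i
  fin_cases i <;> simp [c0, c1, fW, gW, dW, Prm.one, PowerSeries.coeff_one_mul, h.z, h.a11, h.a12,
    h.a13, h.a21, h.a22, h.a23, h.a31, h.a32, h.a33, h.n1, h.n2, h.n3, h.y, h.g1, h.g2, h.g3] <;>
    ring

end FirstOrder

end Pool.Agent.Helper28.Hilb8.D
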