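import Pool.Agent.Helper97.Hilb8.K.Pairs
import Pool.Agent.Helper28.Hilb8.D.GBTab
import Pool.Agent.Helper28.Hilb8.D.Comm

/-!
# The ideal of the relations `z`, `Phi b = 0`, Pfaffians: `y` is a nonzerodivisor
-/

namespace Pool.Agent.Helper28.Hilb8.D

open MvPolynomial Pool.Agent.Helper97.Hilb8 Pool.Agent.Helper97.Hilb8.K

/-- The key `k` is the product of the variables `a`, `b`. -/
def pairK (k a b : ℕ) : Bool :=
  (List.range 42).all fun v =>
    Nat.beq (dig k v) ((if Nat.beq v a then 1 else 0) + (if Nat.beq v b then 1 else 0))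

theorem monomial_of_pairK (k : Type*) [Field k] {key a b : ℕ} (ha : a < 42) (hb : b < 42)
    (h : pairK key a b = true) : monomial (expo 42 key) (1 : k) = Yv k a * Yv k b := by
  have he : expo 42 key = Finsupp.single ⟨a, ha⟩ 1 + Finsupp.single ⟨b, hb⟩ 1 := by
    ext v
    unfold pairK at h
    rw [List.all_eq_true] at h
    have h1 := Nat.eq_of_beq_eq_true (h v (List.mem_range.mpr v.2))
    rw [expo_apply, h1, Finsupp.add_apply, Finsupp.single_apply, Finsupp.single_apply]
    congr 1
    · by_cases hv : (v : ℕ) = a
      · rw [if_pos (by rw [hv]; exact Nat.beq_refl a), if_pos (Fin.ext hv.symm)]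
      · rw [if_neg (fun h => hv (Nat.eq_of_beq_eq_true h)), if_neg (fun h => hv (by rw [← h]))]
    · by_cases hv : (v : ℕ) = b
      · rw [if_pos (by rw [hv]; exact Nat.beq_refl b), if_pos (Fin.ext hv.symm)]
      · rw [if_neg (fun h => hv (Nat.eq_of_beq_eq_true h)), if_neg (fun h => hv (by rw [← h]))]
  rw [he]
  unfold Yv
  rw [dif_pos ha, dif_pos hb, X, X, monomial_mul, mul_one]

/-- The terms of `p` are `±` the products of the list. -/
def chkP : P → List ℕ → Bool
  | .z, [] => true
  | .t k x y r, q :: l => pairK k (q / 256) (q % 256) && Nat.beq (x + y) 1 &&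
      Nat.blt (q / 256) 42 && Nat.blt (q % 256) 42 && chkP r l
  | _, _ => false

/-- The entry is the polynomial of the list. -/
def chkEn : En → List ℕ → Bool
  | .some k p, q :: l => pairK k (q / 256) (q % 256) &&
      Nat.blt (q / 256) 42 && Nat.blt (q % 256) 42 && chkP p l
  | _, _ => false

section

variable {k : Type*} [Field k] (h2 : (2 : k) = 0)

include h2 in
theorem chkP_sound (p : P) (l : List ℕ) (h : chkP p l = true) : p.ev 42 k = evl (Yv k) l := by
  have hr := two_R h2
  induction p generalizing l with
  | z =>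
    cases l with
    | nil => rfl
    | cons q l => exact absurd h (by simp [chkP])
  | t key x y r ih =>
    cases l with
    | nil => exact absurd h (by simp [chkP])
    | cons q l =>
      simp only [chkP, Bool.and_eq_true] at h
      obtain ⟨⟨⟨⟨h3, h4⟩, h5⟩, h6⟩, h7⟩ := h
      have h8 := Nat.eq_of_beq_eq_true h4
      have h9 : ((x : k) - (y : k)) = 1 := by
        have hneg : (-1 : k) = 1 := by
          have : (1 : k) + 1 = 0 := by rw [← h2]; norm_num
          exact neg_eq_of_add_eq_zero_left this
        rcases Nat.eq_zero_or_pos x with hx | hx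
        · have hy : y = 1 := by omega
          rw [hx, hy, Nat.cast_zero, Nat.cast_one, zero_sub, hneg]
        · have hy : y = 0 := by omega
          have hx' : x = 1 := by omega
          rw [hx', hy, Nat.cast_zero, Nat.cast_one, sub_zero]
      have h10 : (P.t key x y r).ev 42 k =
          monomial (expo 42 key) ((x : k) - (y : k)) + r.ev 42 k := rfl
      rw [h10, h9, ih l h7, monomial_of_pairK k (Nat.blt_eq.mp h5) (Nat.blt_eq.mp h6) h3, evl_cons]

include h2 in
theorem chkEn_sound (x : En) (l : List ℕ) (h : chkEn x l = true) :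
    x.ev 42 k = evl (Yv k) l := by
  cases x with
  | none => exact absurd h (by cases l <;> simp [chkEn])
  | some key p =>
    cases l with
    | nil => exact absurd h (by simp [chkEn])
    | cons q l =>
      simp only [chkEn, Bool.and_eq_true] at h
      obtain ⟨⟨⟨h3, h5⟩, h6⟩, h7⟩ := h
      have h10 : (En.some key p).ev 42 k = monomial (expo 42 key) (1 : k) + p.ev 42 k := rfl
      rw [h10, chkP_sound h2 p l h7, monomial_of_pairK k (Nat.blt_eq.mp h5) (Nat.blt_eq.mp h6) h3,
        evl_cons]

end

theorem gb_ev : (List.range 19).all (fun i => chkEn (look gbT i) (quadL.getD (10 + i) [])) = true := by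
  decide +kernel

theorem gb_f0 : chkEn (look gbT 19) f0L = true := by decide +kernel

/-- The last entry is the variable `z`. -/
def isZ (x : En) : Bool :=
  match x with
  | .some k .z => (List.range 42).all fun v => Nat.beq (dig k v) (if Nat.beq v 25 then 1 else 0)
  | _ => false

theorem gb_z : isZ (look gbT 20) = true := by decide +kernel

/-- `y` does not occur in the leading monomials. -/
def noY (x : En) : Bool :=
  match x with
  | .some k _ => Nat.beq (dig k 24) 0
  | _ => true

theorem gb_noY : (List.range 21).all (fun i => noY (look gbT i)) = true := by decide +kernel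

theorem isZ_sound (k : Type*) [Field k] (x : En) (h : isZ x = true) :
    x.ev 42 k = Yv k 25 := by
  cases x with
  | none => exact absurd h (by simp [isZ])
  | some key p =>
    cases p with
    | t => exact absurd h (by simp [isZ])
    | z =>
      simp only [isZ] at h
      rw [List.all_eq_true] at h
      have he : expo 42 key = Finsupp.single ⟨25, by norm_num⟩ 1 := by
        ext v
        have h1 := Nat.eq_of_beq_eq_true (h v (List.mem_range.mpr v.2))
        rw [expo_apply, h1, Finsupp.single_apply]
        by_cases hv : (v : ℕ) = 25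
        · rw [if_pos (by rw [hv]; exact Nat.beq_refl 25), if_pos (Fin.ext hv.symm)]
        · rw [if_neg (fun h => hv (Nat.eq_of_beq_eq_true h)), if_neg (fun h => hv (by rw [← h]))]
      have h10 : (En.some key P.z).ev 42 k = monomial (expo 42 key) (1 : k) + 0 := rfl
      rw [h10, add_zero, he]
      unfold Yv
      rw [dif_pos (by norm_num)]
      rfl

/-- Generators of the ideal of the second kind of limits. -/
noncomputable def genD (k : Type*) [Field k] : Set (MvPolynomial (Fin 42) k) :=
  {g | (∃ i < 19, g = evl (Yv k) (quadL.getD (10 + i) [])) ∨ g = evl (Yv k) f0L ∨ g = Yv k 25}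

/-- The ideal `(z, Phi b, Pfaffians)`. -/
noncomputable def PD (k : Type*) [Field k] : Ideal (MvPolynomial (Fin 42) k) := Ideal.span (genD k)

/-- `y` is a nonzerodivisor modulo `PD`. -/
theorem nzd_y {k : Type*} [Field k] (h2 : (2 : k) = 0) : NZD (PD k) (Yv k 24) := by
  have hT := tab_of_check gbC gb_cst gbW gb_pos 21 gbT gb_tab
  have hrows : ∀ j < 21, ∀ Lj tj, look gbT j = .some Lj tj →
      ∃ codes trs, row gbC.G gbC.LOW gbC.sh gbT j Lj tj j codes trs = true := by
    intro j hj Lj tj hl
    exact rows_sound gbC.G gbC.LOW gbC.sh gbT gbR 0 gb_rows j (Nat.zero_le _)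
      (by rw [gb_len]; omega) Lj tj hl
  obtain ⟨hlead, hok, -⟩ := ok_of_rows (k := k) gbC gb_cst (fun v => gbW.get v) 21 gbT hT
    gb_present hrows
  have hev1 : ∀ i < 19, (look gbT i).ev 42 k = evl (Yv k) (quadL.getD (10 + i) []) := by
    intro i hi
    have := gb_ev
    rw [List.all_eq_true] at this
    exact chkEn_sound h2 _ _ (this i (List.mem_range.mpr hi))
  have hev2 : (look gbT 19).ev 42 k = evl (Yv k) f0L := chkEn_sound h2 _ _ gb_f0
  have hev3 : (look gbT 20).ev 42 k = Yv k 25 := isZ_sound k _ gb_z
  have hy : Yv k 24 = X (⟨24, by norm_num⟩ : Fin 42) := by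
    unfold Yv
    rw [dif_pos (by norm_num)]
  rw [hy]
  refine nzd_of_ok (k := k) (fun v : Fin 42 => gbW.get v) ∅ (fun u hu => absurd hu (by simp))
    (fun i : Fin 21 => (look gbT i).ev 42 k) (fun i : Fin 21 => (look gbT i).lead 42) hlead hok
    (PD k) (genD k) rfl ?_ ?_ (fun u hu => absurd hu (by simp)) _ ?_
  · intro i
    apply Ideal.subset_span
    rcases Nat.lt_or_ge i 19 with h | h
    · exact Or.inl ⟨i, h, hev1 i h⟩
    · rcases Nat.lt_or_ge i 20 with h' | h'
      · have : (i : ℕ) = 19 := by omega
        rw [this]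
        exact Or.inr (Or.inl hev2)
      · have : (i : ℕ) = 20 := by omega
        rw [this]
        exact Or.inr (Or.inr hev3)
  · intro g hg
    refine ⟨0, GB.unit_zero _, ?_⟩
    have h1 : monomial (0 : Fin 42 →₀ ℕ) (1 : k) * g = g := by
      have : monomial (0 : Fin 42 →₀ ℕ) (1 : k) = 1 := rfl
      rw [this, one_mul]
    rw [h1]
    apply Ideal.subset_span
    rcases hg with ⟨i, hi, rfl⟩ | rfl | rfl
    · exact ⟨⟨i, by omega⟩, hev1 i hi⟩
    · exact ⟨19, hev2⟩
    · exact ⟨20, hev3⟩
  · intro i
    have h1 := gb_noY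
    rw [List.all_eq_true] at h1
    have h3 := h1 i (List.mem_range.mpr i.2)
    cases hl : look gbT i with
    | none => rfl
    | some key p =>
      rw [hl] at h3
      exact Nat.eq_of_beq_eq_true h3

end Pool.Agent.Helper28.Hilb8.D
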