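import Pool.Agent.Helper28.Hilb8.D.GB

/-!
# Chart d: the intersection of the kernels
-/

namespace Pool.Agent.Helper28.Hilb8.D

open MvPolynomial Pool.Agent.Helper97.Hilb8

variable (k : Type*) [Field k]

/-- The quadric number `j`. -/
noncomputable def qD (j : ℕ) : MvPolynomial (Fin 42) k := evl (Yv k) (quadL.getD j [])

/-- The Pfaffian `f0`. -/
noncomputable def f0D : MvPolynomial (Fin 42) k := evl (Yv k) f0L

/-- The ideal of the 29 quadrics. -/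
noncomputable def JR : Ideal (MvPolynomial (Fin 42) k) := Ideal.span {g | ∃ j < 29, g = qD k j}

variable {k}

theorem qD_mem {j : ℕ} (hj : j < 29) : qD k j ∈ JR k := Ideal.subset_span ⟨j, hj, rfl⟩

theorem mul_qD_mem (c : MvPolynomial (Fin 42) k) {j : ℕ} (hj : j < 29) : c * qD k j ∈ JR k :=
  Ideal.mul_mem_left _ _ (qD_mem hj)

theorem qD_0 : qD k 0 = Yv k 15 * Yv k 25 := by
  simp [qD, evl, quadL]; try ring

theorem qD_1 : qD k 1 = Yv k 16 * Yv k 25 := by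
  simp [qD, evl, quadL]; try ring

theorem qD_2 : qD k 2 = Yv k 17 * Yv k 25 := by
  simp [qD, evl, quadL]; try ring

theorem qD_3 : qD k 3 = Yv k 18 * Yv k 25 := by
  simp [qD, evl, quadL]; try ring

theorem qD_4 : qD k 4 = Yv k 19 * Yv k 25 := by
  simp [qD, evl, quadL]; try ring

theorem qD_5 : qD k 5 = Yv k 20 * Yv k 25 := by
  simp [qD, evl, quadL]; try ring

theorem qD_6 : qD k 6 = Yv k 21 * Yv k 25 := by
  simp [qD, evl, quadL]; try ring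

theorem qD_7 : qD k 7 = Yv k 22 * Yv k 25 := by
  simp [qD, evl, quadL]; try ring

theorem qD_8 : qD k 8 = Yv k 23 * Yv k 25 := by
  simp [qD, evl, quadL]; try ring

theorem qD_9 : qD k 9 = Yv k 24 * Yv k 25 := by
  simp [qD, evl, quadL]; try ring

theorem qD_10 : qD k 10 = Yv k 2 * Yv k 16 + Yv k 4 * Yv k 18 + Yv k 3 * Yv k 17 + Yv k 1 * Yv k 15 := by
  simp [qD, evl, quadL]; try ring

theorem qD_11 : qD k 11 = Yv k 2 * Yv k 19 + Yv k 0 * Yv k 15 + Yv k 4 * Yv k 21 + Yv k 3 * Yv k 20 := by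
  simp [qD, evl, quadL]; try ring

theorem qD_12 : qD k 12 = Yv k 0 * Yv k 16 + Yv k 4 * Yv k 23 + Yv k 1 * Yv k 19 + Yv k 3 * Yv k 22 := by
  simp [qD, evl, quadL]; try ring

theorem qD_13 : qD k 13 = Yv k 0 * Yv k 17 + Yv k 2 * Yv k 22 + Yv k 1 * Yv k 20 + Yv k 4 * Yv k 24 := by
  simp [qD, evl, quadL]; try ring

theorem qD_14 : qD k 14 = Yv k 0 * Yv k 18 + Yv k 2 * Yv k 23 + Yv k 1 * Yv k 21 + Yv k 3 * Yv k 24 := by
  simp [qD, evl, quadL]; try ring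

theorem qD_15 : qD k 15 = Yv k 6 * Yv k 15 + Yv k 9 * Yv k 18 + Yv k 8 * Yv k 17 + Yv k 7 * Yv k 16 := by
  simp [qD, evl, quadL]; try ring

theorem qD_16 : qD k 16 = Yv k 9 * Yv k 21 + Yv k 8 * Yv k 20 + Yv k 7 * Yv k 19 + Yv k 5 * Yv k 15 := by
  simp [qD, evl, quadL]; try ring

theorem qD_17 : qD k 17 = Yv k 6 * Yv k 19 + Yv k 9 * Yv k 23 + Yv k 8 * Yv k 22 + Yv k 5 * Yv k 16 := by
  simp [qD, evl, quadL]; try ring

theorem qD_18 : qD k 18 = Yv k 6 * Yv k 20 + Yv k 5 * Yv k 17 + Yv k 9 * Yv k 24 + Yv k 7 * Yv k 22 := by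
  simp [qD, evl, quadL]; try ring

theorem qD_19 : qD k 19 = Yv k 6 * Yv k 21 + Yv k 7 * Yv k 23 + Yv k 5 * Yv k 18 + Yv k 8 * Yv k 24 := by
  simp [qD, evl, quadL]; try ring

theorem qD_20 : qD k 20 = Yv k 13 * Yv k 17 + Yv k 14 * Yv k 18 + Yv k 12 * Yv k 16 + Yv k 11 * Yv k 15 := by
  simp [qD, evl, quadL]; try ring

theorem qD_21 : qD k 21 = Yv k 13 * Yv k 20 + Yv k 12 * Yv k 19 + Yv k 14 * Yv k 21 + Yv k 10 * Yv k 15 := by
  simp [qD, evl, quadL]; try ring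

theorem qD_22 : qD k 22 = Yv k 13 * Yv k 22 + Yv k 14 * Yv k 23 + Yv k 11 * Yv k 19 + Yv k 10 * Yv k 16 := by
  simp [qD, evl, quadL]; try ring

theorem qD_23 : qD k 23 = Yv k 12 * Yv k 22 + Yv k 11 * Yv k 20 + Yv k 10 * Yv k 17 + Yv k 14 * Yv k 24 := by
  simp [qD, evl, quadL]; try ring

theorem qD_24 : qD k 24 = Yv k 12 * Yv k 23 + Yv k 10 * Yv k 18 + Yv k 13 * Yv k 24 + Yv k 11 * Yv k 21 := by
  simp [qD, evl, quadL]; try ring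

theorem qD_25 : qD k 25 = Yv k 20 * Yv k 23 + Yv k 21 * Yv k 22 + Yv k 19 * Yv k 24 := by
  simp [qD, evl, quadL]; try ring

theorem qD_26 : qD k 26 = Yv k 17 * Yv k 23 + Yv k 18 * Yv k 22 + Yv k 16 * Yv k 24 := by
  simp [qD, evl, quadL]; try ring

theorem qD_27 : qD k 27 = Yv k 18 * Yv k 20 + Yv k 17 * Yv k 21 + Yv k 15 * Yv k 24 := by
  simp [qD, evl, quadL]; try ring

theorem qD_28 : qD k 28 = Yv k 18 * Yv k 19 + Yv k 15 * Yv k 23 + Yv k 16 * Yv k 21 := by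
  simp [qD, evl, quadL]; try ring

theorem f0D_eq : f0D k = Yv k 17 * Yv k 19 + Yv k 16 * Yv k 20 + Yv k 15 * Yv k 22 := by
  simp [f0D, evl, f0L]; try ring

/-- The variables of the ideal of the net component. -/
def I2L : List ℕ := [0, 1, 2, 3, 5, 6, 7, 8, 10, 11, 12, 13, 18, 21, 23, 24, 25]

theorem f0_mul_0 (h2 : (2 : k) = 0) : Yv k 0 * f0D k = Yv k 22 * qD k 11 + Yv k 20 * qD k 12 + Yv k 19 * qD k 13 + Yv k 4 * qD k 25 := by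
  have hr := two_R h2
  rw [f0D_eq, qD_11, qD_12, qD_13, qD_25]
  linear_combination (-Yv k 1 * Yv k 19 * Yv k 20 - Yv k 2 * Yv k 19 * Yv k 22 - Yv k 3 * Yv k 20 * Yv k 22 - Yv k 4 * Yv k 19 * Yv k 24 - Yv k 4 * Yv k 20 * Yv k 23 - Yv k 4 * Yv k 21 * Yv k 22) * hr

theorem f0_mul_1 (h2 : (2 : k) = 0) : Yv k 1 * f0D k = Yv k 22 * qD k 10 + Yv k 17 * qD k 12 + Yv k 16 * qD k 13 + Yv k 4 * qD k 26 := by
  have hr := two_R h2
  rw [f0D_eq, qD_10, qD_12, qD_13, qD_26]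
  linear_combination (-Yv k 0 * Yv k 16 * Yv k 17 - Yv k 2 * Yv k 16 * Yv k 22 - Yv k 3 * Yv k 17 * Yv k 22 - Yv k 4 * Yv k 16 * Yv k 24 - Yv k 4 * Yv k 17 * Yv k 23 - Yv k 4 * Yv k 18 * Yv k 22) * hr

theorem f0_mul_2 (h2 : (2 : k) = 0) : Yv k 2 * f0D k = Yv k 20 * qD k 10 + Yv k 17 * qD k 11 + Yv k 15 * qD k 13 + Yv k 4 * qD k 27 := by
  have hr := two_R h2
  rw [f0D_eq, qD_10, qD_11, qD_13, qD_27]
  linear_combination (-Yv k 0 * Yv k 15 * Yv k 17 - Yv k 1 * Yv k 15 * Yv k 20 - Yv k 3 * Yv k 17 * Yv k 20 - Yv k 4 * Yv k 15 * Yv k 24 - Yv k 4 * Yv k 17 * Yv k 21 - Yv k 4 * Yv k 18 * Yv k 20) * hr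

theorem f0_mul_3 (h2 : (2 : k) = 0) : Yv k 3 * f0D k = Yv k 19 * qD k 10 + Yv k 16 * qD k 11 + Yv k 15 * qD k 12 + Yv k 4 * qD k 28 := by
  have hr := two_R h2
  rw [f0D_eq, qD_10, qD_11, qD_12, qD_28]
  linear_combination (-Yv k 0 * Yv k 15 * Yv k 16 - Yv k 1 * Yv k 15 * Yv k 19 - Yv k 2 * Yv k 16 * Yv k 19 - Yv k 4 * Yv k 15 * Yv k 23 - Yv k 4 * Yv k 16 * Yv k 21 - Yv k 4 * Yv k 18 * Yv k 19) * hr

theorem f0_mul_5 (h2 : (2 : k) = 0) : Yv k 5 * f0D k = Yv k 22 * qD k 16 + Yv k 20 * qD k 17 + Yv k 19 * qD k 18 + Yv k 9 * qD k 25 := by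
  have hr := two_R h2
  rw [f0D_eq, qD_16, qD_17, qD_18, qD_25]
  linear_combination (-Yv k 6 * Yv k 19 * Yv k 20 - Yv k 7 * Yv k 19 * Yv k 22 - Yv k 8 * Yv k 20 * Yv k 22 - Yv k 9 * Yv k 19 * Yv k 24 - Yv k 9 * Yv k 20 * Yv k 23 - Yv k 9 * Yv k 21 * Yv k 22) * hr

theorem f0_mul_6 (h2 : (2 : k) = 0) : Yv k 6 * f0D k = Yv k 22 * qD k 15 + Yv k 17 * qD k 17 + Yv k 16 * qD k 18 + Yv k 9 * qD k 26 := by
  have hr := two_R h2
  rw [f0D_eq, qD_15, qD_17, qD_18, qD_26]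
  linear_combination (-Yv k 5 * Yv k 16 * Yv k 17 - Yv k 7 * Yv k 16 * Yv k 22 - Yv k 8 * Yv k 17 * Yv k 22 - Yv k 9 * Yv k 16 * Yv k 24 - Yv k 9 * Yv k 17 * Yv k 23 - Yv k 9 * Yv k 18 * Yv k 22) * hr

theorem f0_mul_7 (h2 : (2 : k) = 0) : Yv k 7 * f0D k = Yv k 20 * qD k 15 + Yv k 17 * qD k 16 + Yv k 15 * qD k 18 + Yv k 9 * qD k 27 := by
  have hr := two_R h2
  rw [f0D_eq, qD_15, qD_16, qD_18, qD_27]
  linear_combination (-Yv k 5 * Yv k 15 * Yv k 17 - Yv k 6 * Yv k 15 * Yv k 20 - Yv k 8 * Yv k 17 * Yv k 20 - Yv k 9 * Yv k 15 * Yv k 24 - Yv k 9 * Yv k 17 * Yv k 21 - Yv k 9 * Yv k 18 * Yv k 20) * hr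

theorem f0_mul_8 (h2 : (2 : k) = 0) : Yv k 8 * f0D k = Yv k 19 * qD k 15 + Yv k 16 * qD k 16 + Yv k 15 * qD k 17 + Yv k 9 * qD k 28 := by
  have hr := two_R h2
  rw [f0D_eq, qD_15, qD_16, qD_17, qD_28]
  linear_combination (-Yv k 5 * Yv k 15 * Yv k 16 - Yv k 6 * Yv k 15 * Yv k 19 - Yv k 7 * Yv k 16 * Yv k 19 - Yv k 9 * Yv k 15 * Yv k 23 - Yv k 9 * Yv k 16 * Yv k 21 - Yv k 9 * Yv k 18 * Yv k 19) * hr

theorem f0_mul_10 (h2 : (2 : k) = 0) : Yv k 10 * f0D k = Yv k 22 * qD k 21 + Yv k 20 * qD k 22 + Yv k 19 * qD k 23 + Yv k 14 * qD k 25 := by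
  have hr := two_R h2
  rw [f0D_eq, qD_21, qD_22, qD_23, qD_25]
  linear_combination (-Yv k 11 * Yv k 19 * Yv k 20 - Yv k 12 * Yv k 19 * Yv k 22 - Yv k 13 * Yv k 20 * Yv k 22 - Yv k 14 * Yv k 19 * Yv k 24 - Yv k 14 * Yv k 20 * Yv k 23 - Yv k 14 * Yv k 21 * Yv k 22) * hr

theorem f0_mul_11 (h2 : (2 : k) = 0) : Yv k 11 * f0D k = Yv k 22 * qD k 20 + Yv k 17 * qD k 22 + Yv k 16 * qD k 23 + Yv k 14 * qD k 26 := by
  have hr := two_R h2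
  rw [f0D_eq, qD_20, qD_22, qD_23, qD_26]
  linear_combination (-Yv k 10 * Yv k 16 * Yv k 17 - Yv k 12 * Yv k 16 * Yv k 22 - Yv k 13 * Yv k 17 * Yv k 22 - Yv k 14 * Yv k 16 * Yv k 24 - Yv k 14 * Yv k 17 * Yv k 23 - Yv k 14 * Yv k 18 * Yv k 22) * hr

theorem f0_mul_12 (h2 : (2 : k) = 0) : Yv k 12 * f0D k = Yv k 20 * qD k 20 + Yv k 17 * qD k 21 + Yv k 15 * qD k 23 + Yv k 14 * qD k 27 := by
  have hr := two_R h2
  rw [f0D_eq, qD_20, qD_21, qD_23, qD_27]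
  linear_combination (-Yv k 10 * Yv k 15 * Yv k 17 - Yv k 11 * Yv k 15 * Yv k 20 - Yv k 13 * Yv k 17 * Yv k 20 - Yv k 14 * Yv k 15 * Yv k 24 - Yv k 14 * Yv k 17 * Yv k 21 - Yv k 14 * Yv k 18 * Yv k 20) * hr

theorem f0_mul_13 (h2 : (2 : k) = 0) : Yv k 13 * f0D k = Yv k 19 * qD k 20 + Yv k 16 * qD k 21 + Yv k 15 * qD k 22 + Yv k 14 * qD k 28 := by
  have hr := two_R h2
  rw [f0D_eq, qD_20, qD_21, qD_22, qD_28]
  linear_combination (-Yv k 10 * Yv k 15 * Yv k 16 - Yv k 11 * Yv k 15 * Yv k 19 - Yv k 12 * Yv k 16 * Yv k 19 - Yv k 14 * Yv k 15 * Yv k 23 - Yv k 14 * Yv k 16 * Yv k 21 - Yv k 14 * Yv k 18 * Yv k 19) * hr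

theorem f0_mul_18 (h2 : (2 : k) = 0) : Yv k 18 * f0D k = Yv k 15 * qD k 26 + Yv k 16 * qD k 27 + Yv k 17 * qD k 28 := by
  have hr := two_R h2
  rw [f0D_eq, qD_26, qD_27, qD_28]
  linear_combination (-Yv k 15 * Yv k 16 * Yv k 24 - Yv k 15 * Yv k 17 * Yv k 23 - Yv k 16 * Yv k 17 * Yv k 21) * hr

theorem f0_mul_21 (h2 : (2 : k) = 0) : Yv k 21 * f0D k = Yv k 15 * qD k 25 + Yv k 19 * qD k 27 + Yv k 20 * qD k 28 := by
  have hr := two_R h2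
  rw [f0D_eq, qD_25, qD_27, qD_28]
  linear_combination (-Yv k 15 * Yv k 19 * Yv k 24 - Yv k 15 * Yv k 20 * Yv k 23 - Yv k 18 * Yv k 19 * Yv k 20) * hr

theorem f0_mul_23 (h2 : (2 : k) = 0) : Yv k 23 * f0D k = Yv k 16 * qD k 25 + Yv k 19 * qD k 26 + Yv k 22 * qD k 28 := by
  have hr := two_R h2
  rw [f0D_eq, qD_25, qD_26, qD_28]
  linear_combination (-Yv k 16 * Yv k 19 * Yv k 24 - Yv k 16 * Yv k 21 * Yv k 22 - Yv k 18 * Yv k 19 * Yv k 22) * hr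

theorem f0_mul_24 (h2 : (2 : k) = 0) : Yv k 24 * f0D k = Yv k 17 * qD k 25 + Yv k 20 * qD k 26 + Yv k 22 * qD k 27 := by
  have hr := two_R h2
  rw [f0D_eq, qD_25, qD_26, qD_27]
  linear_combination (-Yv k 17 * Yv k 20 * Yv k 23 - Yv k 17 * Yv k 21 * Yv k 22 - Yv k 18 * Yv k 20 * Yv k 22) * hr

theorem f0_mul_25 (h2 : (2 : k) = 0) : Yv k 25 * f0D k = Yv k 17 * qD k 4 + Yv k 16 * qD k 5 + Yv k 15 * qD k 7 := by
  have hr := two_R h2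
  rw [f0D_eq, qD_4, qD_5, qD_7]
  linear_combination (0) * hr

theorem f0_mul_mem (h2 : (2 : k) = 0) (i : ℕ) (hi : i ∈ I2L) : Yv k i * f0D k ∈ JR k := by
  simp only [I2L, List.mem_cons, List.not_mem_nil, or_false] at hi
  rcases hi with rfl | rfl | rfl | rfl | rfl | rfl | rfl | rfl | rfl | rfl | rfl | rfl | rfl | rfl | rfl | rfl | rfl
  · rw [f0_mul_0 h2]
    exact Ideal.add_mem _ (Ideal.add_mem _ (Ideal.add_mem _ (mul_qD_mem _ (by norm_num)) (mul_qD_mem _ (by norm_num))) (mul_qD_mem _ (by norm_num))) (mul_qD_mem _ (by norm_num))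
  · rw [f0_mul_1 h2]
    exact Ideal.add_mem _ (Ideal.add_mem _ (Ideal.add_mem _ (mul_qD_mem _ (by norm_num)) (mul_qD_mem _ (by norm_num))) (mul_qD_mem _ (by norm_num))) (mul_qD_mem _ (by norm_num))
  · rw [f0_mul_2 h2]
    exact Ideal.add_mem _ (Ideal.add_mem _ (Ideal.add_mem _ (mul_qD_mem _ (by norm_num)) (mul_qD_mem _ (by norm_num))) (mul_qD_mem _ (by norm_num))) (mul_qD_mem _ (by norm_num))
  · rw [f0_mul_3 h2]
    exact Ideal.add_mem _ (Ideal.add_mem _ (Ideal.add_mem _ (mul_qD_mem _ (by norm_num)) (mul_qD_mem _ (by norm_num))) (mul_qD_mem _ (by norm_num))) (mul_qD_mem _ (by norm_num))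
  · rw [f0_mul_5 h2]
    exact Ideal.add_mem _ (Ideal.add_mem _ (Ideal.add_mem _ (mul_qD_mem _ (by norm_num)) (mul_qD_mem _ (by norm_num))) (mul_qD_mem _ (by norm_num))) (mul_qD_mem _ (by norm_num))
  · rw [f0_mul_6 h2]
    exact Ideal.add_mem _ (Ideal.add_mem _ (Ideal.add_mem _ (mul_qD_mem _ (by norm_num)) (mul_qD_mem _ (by norm_num))) (mul_qD_mem _ (by norm_num))) (mul_qD_mem _ (by norm_num))
  · rw [f0_mul_7 h2]
    exact Ideal.add_mem _ (Ideal.add_mem _ (Ideal.add_mem _ (mul_qD_mem _ (by norm_num)) (mul_qD_mem _ (by norm_num))) (mul_qD_mem _ (by norm_num))) (mul_qD_mem _ (by norm_num))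
  · rw [f0_mul_8 h2]
    exact Ideal.add_mem _ (Ideal.add_mem _ (Ideal.add_mem _ (mul_qD_mem _ (by norm_num)) (mul_qD_mem _ (by norm_num))) (mul_qD_mem _ (by norm_num))) (mul_qD_mem _ (by norm_num))
  · rw [f0_mul_10 h2]
    exact Ideal.add_mem _ (Ideal.add_mem _ (Ideal.add_mem _ (mul_qD_mem _ (by norm_num)) (mul_qD_mem _ (by norm_num))) (mul_qD_mem _ (by norm_num))) (mul_qD_mem _ (by norm_num))
  · rw [f0_mul_11 h2]
    exact Ideal.add_mem _ (Ideal.add_mem _ (Ideal.add_mem _ (mul_qD_mem _ (by norm_num)) (mul_qD_mem _ (by norm_num))) (mul_qD_mem _ (by norm_num))) (mul_qD_mem _ (by norm_num))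
  · rw [f0_mul_12 h2]
    exact Ideal.add_mem _ (Ideal.add_mem _ (Ideal.add_mem _ (mul_qD_mem _ (by norm_num)) (mul_qD_mem _ (by norm_num))) (mul_qD_mem _ (by norm_num))) (mul_qD_mem _ (by norm_num))
  · rw [f0_mul_13 h2]
    exact Ideal.add_mem _ (Ideal.add_mem _ (Ideal.add_mem _ (mul_qD_mem _ (by norm_num)) (mul_qD_mem _ (by norm_num))) (mul_qD_mem _ (by norm_num))) (mul_qD_mem _ (by norm_num))
  · rw [f0_mul_18 h2]
    exact Ideal.add_mem _ (Ideal.add_mem _ (mul_qD_mem _ (by norm_num)) (mul_qD_mem _ (by norm_num))) (mul_qD_mem _ (by norm_num))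
  · rw [f0_mul_21 h2]
    exact Ideal.add_mem _ (Ideal.add_mem _ (mul_qD_mem _ (by norm_num)) (mul_qD_mem _ (by norm_num))) (mul_qD_mem _ (by norm_num))
  · rw [f0_mul_23 h2]
    exact Ideal.add_mem _ (Ideal.add_mem _ (mul_qD_mem _ (by norm_num)) (mul_qD_mem _ (by norm_num))) (mul_qD_mem _ (by norm_num))
  · rw [f0_mul_24 h2]
    exact Ideal.add_mem _ (Ideal.add_mem _ (mul_qD_mem _ (by norm_num)) (mul_qD_mem _ (by norm_num))) (mul_qD_mem _ (by norm_num))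
  · rw [f0_mul_25 h2]
    exact Ideal.add_mem _ (Ideal.add_mem _ (mul_qD_mem _ (by norm_num)) (mul_qD_mem _ (by norm_num))) (mul_qD_mem _ (by norm_num))

end Pool.Agent.Helper28.Hilb8.D
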