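import Pool.Agent.Helper28.Hilb8.D.Ident

/-!
# Chart d: the common kernel of the three limits is the ideal of the 29 quadrics
-/

namespace Pool.Agent.Helper28.Hilb8.D

open MvPolynomial Pool.Agent.Helper97.Hilb8

variable {k : Type*} [Field k]

/-- Kill the variables with numbers in `T`. -/
noncomputable def kill (k : Type*) [Field k] (T : List ℕ) :
    MvPolynomial (Fin 42) k →ₐ[k] MvPolynomial (Fin 42) k :=
  aeval fun i => if (i : ℕ) ∈ T then 0 else X i

/-- The ideal of the variables with numbers in `T`. -/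
noncomputable def idT (k : Type*) [Field k] (T : List ℕ) : Ideal (MvPolynomial (Fin 42) k) :=
  Ideal.span {g | ∃ i ∈ T, g = Yv k i}

theorem Yv_lt {i : ℕ} (h : i < 42) : Yv k i = X ⟨i, h⟩ := by
  unfold Yv
  rw [dif_pos h]

theorem kill_Y (T : List ℕ) {i : ℕ} (h : i < 42) :
    kill k T (Yv k i) = if i ∈ T then 0 else Yv k i := by
  rw [Yv_lt h]
  unfold kill
  rw [aeval_X]

theorem sub_kill (T : List ℕ) (p : MvPolynomial (Fin 42) k) : p - kill k T p ∈ idT k T := by
  induction p using MvPolynomial.induction_on with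
  | C c =>
    have h1 : kill k T (C c) = C c := by
      have : (C c : MvPolynomial (Fin 42) k) = algebraMap k _ c := rfl
      rw [this, AlgHom.commutes]
    rw [h1, sub_self]
    exact Ideal.zero_mem _
  | add p q hp hq =>
    have : p + q - kill k T (p + q) = (p - kill k T p) + (q - kill k T q) := by
      rw [map_add]; ring
    rw [this]
    exact Ideal.add_mem _ hp hq
  | mul_X p v hp =>
    have : p * X v - kill k T (p * X v) = (p - kill k T p) * X v +
        kill k T p * (X v - kill k T (X v)) := by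
      rw [map_mul]; ring
    rw [this]
    refine Ideal.add_mem _ (Ideal.mul_mem_right _ _ hp) (Ideal.mul_mem_left _ _ ?_)
    unfold kill
    rw [aeval_X]
    split_ifs with h
    · rw [sub_zero]
      apply Ideal.subset_span
      exact ⟨v, h, (Yv_lt v.2).symm⟩
    · rw [sub_self]
      exact Ideal.zero_mem _

section Main

variable {K : Type*} [CommRing K] [IsDomain K] [Algebra k K]
  (e : MvPolynomial (Fin 42) k →ₐ[k] K) (he : Function.Injective e)

omit [IsDomain K] in
include he in
theorem mem_idT_of_eval (T : List ℕ) (v : MvPolynomial (Fin 42) k →ₐ[k] K)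
    (hv : ∀ i < 42, v (Yv k i) = if i ∈ T then 0 else e (Yv k i))
    (p : MvPolynomial (Fin 42) k) (hp : v p = 0) : p ∈ idT k T := by
  have h1 : v = e.comp (kill k T) := by
    apply MvPolynomial.algHom_ext
    intro i
    have h2 := hv i i.2
    have h3 := kill_Y (k := k) T i.2
    rw [Yv_lt i.2] at h2 h3
    rw [AlgHom.comp_apply, h3, h2]
    split_ifs
    · rw [map_zero]
    · rfl
  have h4 : kill k T p = 0 := by
    apply he
    rw [map_zero, ← hp, h1]
    rfl
  have h5 := sub_kill T p
  rwa [h4, sub_zero] at h5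

/-- The variables kept for the second limit. -/
def keptB : List ℕ := [0, 1, 2, 5, 6, 7, 10, 11, 12, 17, 18, 20, 21, 22, 23, 24, 26, 27, 28, 29, 30,
  31, 32, 33, 34, 35, 36, 37, 38, 39, 40, 41]

/-- Polynomials in the kept variables. -/
noncomputable def supB (k : Type*) [Field k] : Subalgebra k (MvPolynomial (Fin 42) k) :=
  Algebra.adjoin k {g | ∃ i ∈ keptB, g = Yv k i}

/-- The elements that can be reduced to polynomials in the kept variables. -/
def Redb (p : MvPolynomial (Fin 42) k) : Prop :=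
  ∃ N : ℕ, ∃ q ∈ supB k, Yv k 24 ^ N * p - q ∈ PD k

theorem y_mem : Yv k 24 ∈ supB k := Algebra.subset_adjoin ⟨24, by decide, rfl⟩

theorem kept_mem {i : ℕ} (h : i ∈ keptB) : Yv k i ∈ supB k := Algebra.subset_adjoin ⟨i, h, rfl⟩

theorem Redb.add {p q : MvPolynomial (Fin 42) k} (hp : Redb p) (hq : Redb q) : Redb (p + q) := by
  obtain ⟨N, a, ha, h1⟩ := hp
  obtain ⟨M, b, hb, h3⟩ := hq
  refine ⟨N + M, Yv k 24 ^ M * a + Yv k 24 ^ N * b,
    add_mem (mul_mem (pow_mem y_mem _) ha) (mul_mem (pow_mem y_mem _) hb), ?_⟩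
  have : Yv k 24 ^ (N + M) * (p + q) - (Yv k 24 ^ M * a + Yv k 24 ^ N * b) =
      Yv k 24 ^ M * (Yv k 24 ^ N * p - a) + Yv k 24 ^ N * (Yv k 24 ^ M * q - b) := by
    rw [pow_add]; ring
  rw [this]
  exact Ideal.add_mem _ (Ideal.mul_mem_left _ _ h1) (Ideal.mul_mem_left _ _ h3)

theorem Redb.mul {p q : MvPolynomial (Fin 42) k} (hp : Redb p) (hq : Redb q) : Redb (p * q) := by
  obtain ⟨N, a, ha, h1⟩ := hp
  obtain ⟨M, b, hb, h3⟩ := hq
  refine ⟨N + M, a * b, mul_mem ha hb, ?_⟩
  have : Yv k 24 ^ (N + M) * (p * q) - a * b =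
      (Yv k 24 ^ N * p - a) * (Yv k 24 ^ M * q) + a * (Yv k 24 ^ M * q - b) := by
    rw [pow_add]; ring
  rw [this]
  exact Ideal.add_mem _ (Ideal.mul_mem_right _ _ h1) (Ideal.mul_mem_left _ _ h3)

theorem redb_of_mem {p : MvPolynomial (Fin 42) k} (hp : p ∈ supB k) : Redb p :=
  ⟨0, p, hp, by rw [pow_zero, one_mul, sub_self]; exact Ideal.zero_mem _⟩

theorem q_mem_PD {j : ℕ} (h1 : 10 ≤ j) (h3 : j < 29) : qD k j ∈ PD k := by
  apply Ideal.subset_span
  refine Or.inl ⟨j - 10, by omega, ?_⟩
  rw [show 10 + (j - 10) = j by omega]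
  rfl

theorem redb_of_q {i j : ℕ} (h1 : 10 ≤ j) (h3 : j < 29) (r : MvPolynomial (Fin 42) k)
    (hr : r ∈ supB k) (h : qD k j = Yv k 24 * Yv k i - r) : Redb (Yv k i) :=
  ⟨1, r, hr, by rw [pow_one, ← h]; exact q_mem_PD h1 h3⟩

theorem kk_mem {i j : ℕ} (hi : i ∈ keptB) (hj : j ∈ keptB) : Yv k i * Yv k j ∈ supB k :=
  mul_mem (kept_mem hi) (kept_mem hj)

variable (h2 : (2 : k) = 0)

include h2 in
theorem redb_Y (i : ℕ) (hi : i < 42) : Redb (Yv k i) := by
  have hr := two_R h2
  by_cases hk : i ∈ keptB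
  · exact redb_of_mem (kept_mem hk)
  have h3 : i = 3 ∨ i = 4 ∨ i = 8 ∨ i = 9 ∨ i = 13 ∨ i = 14 ∨ i = 15 ∨ i = 16 ∨ i = 19 ∨ i = 25 := by
    revert hk
    interval_cases i <;> decide
  rcases h3 with rfl | rfl | rfl | rfl | rfl | rfl | rfl | rfl | rfl | rfl
  · refine redb_of_q (j := 14) (by norm_num) (by norm_num)
      (Yv k 0 * Yv k 18 + Yv k 1 * Yv k 21 + Yv k 2 * Yv k 23)
      (add_mem (add_mem (kk_mem (by decide) (by decide)) (kk_mem (by decide) (by decide)))
        (kk_mem (by decide) (by decide))) ?_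
    rw [qD_14]
    linear_combination (Yv k 0 * Yv k 18 + Yv k 1 * Yv k 21 + Yv k 2 * Yv k 23) * hr
  · refine redb_of_q (j := 13) (by norm_num) (by norm_num)
      (Yv k 0 * Yv k 17 + Yv k 1 * Yv k 20 + Yv k 2 * Yv k 22)
      (add_mem (add_mem (kk_mem (by decide) (by decide)) (kk_mem (by decide) (by decide)))
        (kk_mem (by decide) (by decide))) ?_
    rw [qD_13]
    linear_combination (Yv k 0 * Yv k 17 + Yv k 1 * Yv k 20 + Yv k 2 * Yv k 22) * hr
  · refine redb_of_q (j := 19) (by norm_num) (by norm_num)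
      (Yv k 5 * Yv k 18 + Yv k 6 * Yv k 21 + Yv k 7 * Yv k 23)
      (add_mem (add_mem (kk_mem (by decide) (by decide)) (kk_mem (by decide) (by decide)))
        (kk_mem (by decide) (by decide))) ?_
    rw [qD_19]
    linear_combination (Yv k 5 * Yv k 18 + Yv k 6 * Yv k 21 + Yv k 7 * Yv k 23) * hr
  · refine redb_of_q (j := 18) (by norm_num) (by norm_num)
      (Yv k 5 * Yv k 17 + Yv k 6 * Yv k 20 + Yv k 7 * Yv k 22)
      (add_mem (add_mem (kk_mem (by decide) (by decide)) (kk_mem (by decide) (by decide)))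
        (kk_mem (by decide) (by decide))) ?_
    rw [qD_18]
    linear_combination (Yv k 5 * Yv k 17 + Yv k 6 * Yv k 20 + Yv k 7 * Yv k 22) * hr
  · refine redb_of_q (j := 24) (by norm_num) (by norm_num)
      (Yv k 10 * Yv k 18 + Yv k 11 * Yv k 21 + Yv k 12 * Yv k 23)
      (add_mem (add_mem (kk_mem (by decide) (by decide)) (kk_mem (by decide) (by decide)))
        (kk_mem (by decide) (by decide))) ?_
    rw [qD_24]
    linear_combination (Yv k 10 * Yv k 18 + Yv k 11 * Yv k 21 + Yv k 12 * Yv k 23) * hr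
  · refine redb_of_q (j := 23) (by norm_num) (by norm_num)
      (Yv k 10 * Yv k 17 + Yv k 11 * Yv k 20 + Yv k 12 * Yv k 22)
      (add_mem (add_mem (kk_mem (by decide) (by decide)) (kk_mem (by decide) (by decide)))
        (kk_mem (by decide) (by decide))) ?_
    rw [qD_23]
    linear_combination (Yv k 10 * Yv k 17 + Yv k 11 * Yv k 20 + Yv k 12 * Yv k 22) * hr
  · refine redb_of_q (j := 27) (by norm_num) (by norm_num)
      (Yv k 17 * Yv k 21 + Yv k 18 * Yv k 20)
      (add_mem (kk_mem (by decide) (by decide)) (kk_mem (by decide) (by decide))) ?_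
    rw [qD_27]
    linear_combination (Yv k 17 * Yv k 21 + Yv k 18 * Yv k 20) * hr
  · refine redb_of_q (j := 26) (by norm_num) (by norm_num)
      (Yv k 17 * Yv k 23 + Yv k 18 * Yv k 22)
      (add_mem (kk_mem (by decide) (by decide)) (kk_mem (by decide) (by decide))) ?_
    rw [qD_26]
    linear_combination (Yv k 17 * Yv k 23 + Yv k 18 * Yv k 22) * hr
  · refine redb_of_q (j := 25) (by norm_num) (by norm_num)
      (Yv k 20 * Yv k 23 + Yv k 21 * Yv k 22)
      (add_mem (kk_mem (by decide) (by decide)) (kk_mem (by decide) (by decide))) ?_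
    rw [qD_25]
    linear_combination (Yv k 20 * Yv k 23 + Yv k 21 * Yv k 22) * hr
  · refine ⟨0, 0, zero_mem _, ?_⟩
    rw [pow_zero, one_mul, sub_zero]
    exact Ideal.subset_span (Or.inr (Or.inr rfl))

include h2 in
theorem redb_all (p : MvPolynomial (Fin 42) k) : Redb p := by
  induction p using MvPolynomial.induction_on with
  | C c => exact redb_of_mem ((supB k).algebraMap_mem c)
  | add p q hp hq => exact hp.add hq
  | mul_X p v hp =>
    refine hp.mul ?_
    have := redb_Y h2 v v.2
    rwa [Yv_lt v.2] at this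

include h2 he in
/-- The kernel of the second limit. -/
theorem mem_PD (v : MvPolynomial (Fin 42) k →ₐ[k] K) (hz : v (Yv k 25) = 0)
    (hv : ∀ i ∈ keptB, v (Yv k i) = e (Yv k i)) (hq : ∀ j < 29, v (qD k j) = 0)
    (p : MvPolynomial (Fin 42) k) (hp : v p = 0) : p ∈ PD k := by
  have hy : v (Yv k 24) = e (Yv k 24) := hv 24 (by decide)
  have hy0 : e (Yv k 24) ≠ 0 := by
    intro h
    have h3 : Yv k 24 = 0 := he (by rw [h, map_zero])
    rw [Yv_lt (by norm_num)] at h3
    exact X_ne_zero _ h3
  have hf0 : v (f0D k) = 0 := by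
    have h3 := congrArg v (f0_mul_24 (k := k) h2)
    rw [map_mul, map_add, map_add, map_mul, map_mul, map_mul, hq 25 (by norm_num),
      hq 26 (by norm_num), hq 27 (by norm_num), mul_zero, mul_zero, mul_zero, add_zero, add_zero,
      hy] at h3
    exact (mul_eq_zero.mp h3).resolve_left hy0
  have hPD : ∀ g ∈ PD k, v g = 0 := by
    intro g hg
    have hle : PD k ≤ RingHom.ker (v : MvPolynomial (Fin 42) k →+* K) := by
      unfold PD
      rw [Ideal.span_le]
      rintro g (⟨i, hi, rfl⟩ | rfl | rfl)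
      · exact hq (10 + i) (by omega)
      · exact hf0
      · exact hz
    exact hle hg
  have hsup : ∀ q ∈ supB k, v q = e q := by
    intro q hq'
    unfold supB at hq'
    induction hq' using Algebra.adjoin_induction with
    | mem x hx =>
      obtain ⟨i, hi, rfl⟩ := hx
      exact hv i hi
    | algebraMap r => rw [AlgHom.commutes, AlgHom.commutes]
    | add x y _ _ hx hy => rw [map_add, map_add, hx, hy]
    | mul x y _ _ hx hy => rw [map_mul, map_mul, hx, hy]
  obtain ⟨N, q, hqs, hmem⟩ := redb_all h2 p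
  have h3 := hPD _ hmem
  rw [map_sub, map_mul, hp, mul_zero, zero_sub, neg_eq_zero, hsup q hqs] at h3
  have h4 : q = 0 := he (by rw [h3, map_zero])
  rw [h4, sub_zero] at hmem
  have h5 : ∀ (N : ℕ), Yv k 24 ^ N * p ∈ PD k → p ∈ PD k := by
    intro N
    induction N with
    | zero => intro h; rwa [pow_zero, one_mul] at h
    | succ N ih =>
      intro h
      apply ih
      apply nzd_y h2
      rw [pow_succ'] at h
      rwa [← mul_assoc]
  exact h5 N hmem

/-- The variables of `Phi`. -/
def phiL : List ℕ := [15, 16, 17, 18, 19, 20, 21, 22, 23, 24]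

theorem phi_mem {i : ℕ} (h : i ∈ phiL) : Yv k i ∈ idT k phiL := Ideal.subset_span ⟨i, h, rfl⟩

theorem q_mem_phi (j : ℕ) (h1 : 10 ≤ j) (h3 : j < 29) : qD k j ∈ idT k phiL := by
  have hl : ∀ {a b : ℕ}, a ∈ phiL → Yv k a * Yv k b ∈ idT k phiL := fun h =>
    Ideal.mul_mem_right _ _ (phi_mem h)
  have hr : ∀ {a b : ℕ}, b ∈ phiL → Yv k a * Yv k b ∈ idT k phiL := fun h =>
    Ideal.mul_mem_left _ _ (phi_mem h)
  interval_cases j
  · rw [qD_10]; exact add_mem (add_mem (add_mem (hr (by decide)) (hr (by decide))) (hr (by decide))) (hr (by decide))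
  · rw [qD_11]; exact add_mem (add_mem (add_mem (hr (by decide)) (hr (by decide))) (hr (by decide))) (hr (by decide))
  · rw [qD_12]; exact add_mem (add_mem (add_mem (hr (by decide)) (hr (by decide))) (hr (by decide))) (hr (by decide))
  · rw [qD_13]; exact add_mem (add_mem (add_mem (hr (by decide)) (hr (by decide))) (hr (by decide))) (hr (by decide))
  · rw [qD_14]; exact add_mem (add_mem (add_mem (hr (by decide)) (hr (by decide))) (hr (by decide))) (hr (by decide))
  · rw [qD_15]; exact add_mem (add_mem (add_mem (hr (by decide)) (hr (by decide))) (hr (by decide))) (hr (by decide))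
  · rw [qD_16]; exact add_mem (add_mem (add_mem (hr (by decide)) (hr (by decide))) (hr (by decide))) (hr (by decide))
  · rw [qD_17]; exact add_mem (add_mem (add_mem (hr (by decide)) (hr (by decide))) (hr (by decide))) (hr (by decide))
  · rw [qD_18]; exact add_mem (add_mem (add_mem (hr (by decide)) (hr (by decide))) (hr (by decide))) (hr (by decide))
  · rw [qD_19]; exact add_mem (add_mem (add_mem (hr (by decide)) (hr (by decide))) (hr (by decide))) (hr (by decide))
  · rw [qD_20]; exact add_mem (add_mem (add_mem (hr (by decide)) (hr (by decide))) (hr (by decide))) (hr (by decide))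
  · rw [qD_21]; exact add_mem (add_mem (add_mem (hr (by decide)) (hr (by decide))) (hr (by decide))) (hr (by decide))
  · rw [qD_22]; exact add_mem (add_mem (add_mem (hr (by decide)) (hr (by decide))) (hr (by decide))) (hr (by decide))
  · rw [qD_23]; exact add_mem (add_mem (add_mem (hr (by decide)) (hr (by decide))) (hr (by decide))) (hr (by decide))
  · rw [qD_24]; exact add_mem (add_mem (add_mem (hr (by decide)) (hr (by decide))) (hr (by decide))) (hr (by decide))
  · rw [qD_25]; exact add_mem (add_mem (hl (by decide)) (hl (by decide))) (hl (by decide))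
  · rw [qD_26]; exact add_mem (add_mem (hl (by decide)) (hl (by decide))) (hl (by decide))
  · rw [qD_27]; exact add_mem (add_mem (hl (by decide)) (hl (by decide))) (hl (by decide))
  · rw [qD_28]; exact add_mem (add_mem (hl (by decide)) (hl (by decide))) (hl (by decide))

theorem z_phi_mem (i : ℕ) (h : i ∈ phiL) : Yv k 25 * Yv k i ∈ JR k := by
  simp only [phiL, List.mem_cons, List.not_mem_nil, or_false] at h
  have h0 := qD_mem (k := k) (j := 0) (by norm_num)
  have h1 := qD_mem (k := k) (j := 1) (by norm_num)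
  have h3 := qD_mem (k := k) (j := 2) (by norm_num)
  have h4 := qD_mem (k := k) (j := 3) (by norm_num)
  have h5 := qD_mem (k := k) (j := 4) (by norm_num)
  have h6 := qD_mem (k := k) (j := 5) (by norm_num)
  have h7 := qD_mem (k := k) (j := 6) (by norm_num)
  have h8 := qD_mem (k := k) (j := 7) (by norm_num)
  have h9 := qD_mem (k := k) (j := 8) (by norm_num)
  have h10 := qD_mem (k := k) (j := 9) (by norm_num)
  rw [qD_0] at h0
  rw [qD_1] at h1
  rw [qD_2] at h3
  rw [qD_3] at h4
  rw [qD_4] at h5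
  rw [qD_5] at h6
  rw [qD_6] at h7
  rw [qD_7] at h8
  rw [qD_8] at h9
  rw [qD_9] at h10
  rcases h with rfl | rfl | rfl | rfl | rfl | rfl | rfl | rfl | rfl | rfl <;>
    (rw [mul_comm]; assumption)

theorem z_mul_mem (c : MvPolynomial (Fin 42) k) (hc : c ∈ idT k phiL) :
    Yv k 25 * c ∈ JR k := by
  unfold idT at hc
  induction hc using Submodule.span_induction with
  | mem g hg =>
    obtain ⟨i, hi, rfl⟩ := hg
    exact z_phi_mem i hi
  | zero => rw [mul_zero]; exact zero_mem _
  | add x y _ _ hx hy => rw [mul_add]; exact add_mem hx hy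
  | smul a x _ hx => rw [smul_eq_mul, mul_left_comm]; exact Ideal.mul_mem_left _ _ hx

theorem f0_mem_phi : f0D k ∈ idT k phiL := by
  rw [f0D_eq]
  exact add_mem (add_mem (Ideal.mul_mem_right _ _ (phi_mem (by decide)))
    (Ideal.mul_mem_right _ _ (phi_mem (by decide)))) (Ideal.mul_mem_right _ _ (phi_mem (by decide)))

theorem PD_split (p : MvPolynomial (Fin 42) k) (h3 : p ∈ PD k) :
    ∃ c s d : MvPolynomial (Fin 42) k, s ∈ JR k ∧ s ∈ idT k phiL ∧
      p = Yv k 25 * c + s + d * f0D k := by
  unfold PD at h3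
  induction h3 using Submodule.span_induction with
  | mem g hg =>
    rcases hg with ⟨i, hi, rfl⟩ | rfl | rfl
    · exact ⟨0, qD k (10 + i), 0, qD_mem (by omega), q_mem_phi _ (by omega) (by omega), by
        rw [mul_zero, zero_mul, zero_add, add_zero]; rfl⟩
    · exact ⟨0, 0, 1, zero_mem _, zero_mem _, by
        rw [mul_zero, zero_add, zero_add, one_mul]; rfl⟩
    · exact ⟨1, 0, 0, zero_mem _, zero_mem _, by
        rw [mul_one, add_zero, zero_mul, add_zero]⟩
  | zero => exact ⟨0, 0, 0, zero_mem _, zero_mem _, by ring⟩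
  | add x y _ _ hx hy =>
    obtain ⟨c, s, d, h1, h4, rfl⟩ := hx
    obtain ⟨c', s', d', h1', h4', rfl⟩ := hy
    exact ⟨c + c', s + s', d + d', add_mem h1 h1', add_mem h4 h4', by ring⟩
  | smul a x _ hx =>
    obtain ⟨c, s, d, h1, h4, rfl⟩ := hx
    exact ⟨a * c, a * s, a * d, Ideal.mul_mem_left _ _ h1, Ideal.mul_mem_left _ _ h4, by
      rw [smul_eq_mul]; ring⟩

/-- The intersection of the first two kernels. -/
theorem exists_f0 (p : MvPolynomial (Fin 42) k) (h1 : p ∈ idT k phiL) (h3 : p ∈ PD k) :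
    ∃ d : MvPolynomial (Fin 42) k, p - d * f0D k ∈ JR k := by
  obtain ⟨c, s, d, hs, hs', hp⟩ := PD_split p h3
  refine ⟨d, ?_⟩
  have h4 : Yv k 25 * c ∈ idT k phiL := by
    have : Yv k 25 * c = p - s - d * f0D k := by rw [hp]; ring
    rw [this]
    exact sub_mem (sub_mem h1 hs') (Ideal.mul_mem_left _ _ f0_mem_phi)
  have hkill : ∀ g ∈ idT k phiL, kill k phiL g = 0 := by
    intro g hg
    have hle : idT k phiL ≤ RingHom.ker (kill k phiL : _ →+* MvPolynomial (Fin 42) k) := by
      unfold idT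
      rw [Ideal.span_le]
      rintro g ⟨i, hi, rfl⟩
      have hi' : i < 42 := by
        revert hi
        have : ∀ j ∈ phiL, j < 42 := by decide
        exact this i
      change kill k phiL (Yv k i) = 0
      rw [kill_Y phiL hi', if_pos hi]
    exact hle hg
  have h5 := hkill _ h4
  rw [map_mul, kill_Y phiL (by norm_num), if_neg (by decide)] at h5
  have h6 : kill k phiL c = 0 := by
    rcases mul_eq_zero.mp h5 with h | h
    · rw [Yv_lt (by norm_num)] at h
      exact absurd h (X_ne_zero _)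
    · exact h
  have h7 : c ∈ idT k phiL := by
    have := sub_kill phiL c
    rwa [h6, sub_zero] at this
  have h8 : Yv k 25 * c ∈ JR k := z_mul_mem c h7
  have : p - d * f0D k = Yv k 25 * c + s := by rw [hp]; ring
  rw [this]
  exact add_mem h8 hs

variable {K2 K3 : Type*} [CommRing K2] [IsDomain K2] [Algebra k K2] [CommRing K3] [IsDomain K3]
  [Algebra k K3] (e2 : MvPolynomial (Fin 42) k →ₐ[k] K2) (he2 : Function.Injective e2)
  (e3 : MvPolynomial (Fin 42) k →ₐ[k] K3) (he3 : Function.Injective e3)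

include h2 he he2 he3 in
/-- The common kernel of the three limits. -/
theorem mem_JR (va : MvPolynomial (Fin 42) k →ₐ[k] K) (vb : MvPolynomial (Fin 42) k →ₐ[k] K2)
    (v2 : MvPolynomial (Fin 42) k →ₐ[k] K3)
    (hva : ∀ i < 42, va (Yv k i) = if i ∈ phiL then 0 else e (Yv k i))
    (hz : vb (Yv k 25) = 0) (hvb : ∀ i ∈ keptB, vb (Yv k i) = e2 (Yv k i))
    (hqb : ∀ j < 29, vb (qD k j) = 0)
    (hv2 : ∀ i < 42, v2 (Yv k i) = if i ∈ I2L then 0 else e3 (Yv k i))
    (hq2 : ∀ j < 29, v2 (qD k j) = 0)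
    (p : MvPolynomial (Fin 42) k) (h1 : va p = 0) (h3 : vb p = 0) (h4 : v2 p = 0) :
    p ∈ JR k := by
  have h5 := mem_idT_of_eval e he phiL va hva p h1
  have h6 := mem_PD e2 he2 h2 vb hz hvb hqb p h3
  obtain ⟨d, hd⟩ := exists_f0 p h5 h6
  have hJ : ∀ g ∈ JR k, v2 g = 0 := by
    intro g hg
    have hle : JR k ≤ RingHom.ker (v2 : MvPolynomial (Fin 42) k →+* K3) := by
      unfold JR
      rw [Ideal.span_le]
      rintro g ⟨j, hj, rfl⟩
      exact hq2 j hj
    exact hle hg
  have h7 := hJ _ hd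
  rw [map_sub, h4, zero_sub, neg_eq_zero, map_mul] at h7
  have hf0 : v2 (f0D k) ≠ 0 := by
    have h8 : v2 (f0D k) = e3 (f0D k) := by
      rw [f0D_eq]
      simp only [map_add, map_mul]
      rw [hv2 15 (by norm_num), hv2 16 (by norm_num), hv2 17 (by norm_num), hv2 19 (by norm_num),
        hv2 20 (by norm_num), hv2 22 (by norm_num), if_neg (by decide), if_neg (by decide),
        if_neg (by decide), if_neg (by decide), if_neg (by decide), if_neg (by decide)]
    rw [h8]
    intro h9
    have h10 : f0D k = 0 := he3 (by rw [h9, map_zero])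
    have h11 := congrArg (aeval (R := k) (fun i : Fin 42 =>
      if (i : ℕ) = 17 ∨ (i : ℕ) = 19 then (1 : k) else 0)) h10
    rw [f0D_eq, map_zero] at h11
    simp only [map_add, map_mul] at h11
    rw [Yv_lt (by norm_num), Yv_lt (by norm_num), Yv_lt (by norm_num), Yv_lt (by norm_num),
      Yv_lt (by norm_num), Yv_lt (by norm_num)] at h11
    simp at h11
  have h8 : v2 d = 0 := (mul_eq_zero.mp h7).resolve_right hf0
  have h9 := mem_idT_of_eval e3 he3 I2L v2 hv2 d h8
  have h10 : d * f0D k ∈ JR k := by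
    unfold idT at h9
    clear h7 h8 hd
    induction h9 using Submodule.span_induction with
    | mem g hg =>
      obtain ⟨i, hi, rfl⟩ := hg
      exact f0_mul_mem h2 i hi
    | zero => rw [zero_mul]; exact zero_mem _
    | add x y _ _ hx hy => rw [add_mul]; exact add_mem hx hy
    | smul a x _ hx => rw [smul_eq_mul, mul_assoc]; exact Ideal.mul_mem_left _ _ hx
  have : p = (p - d * f0D k) + d * f0D k := by ring
  rw [this]
  exact add_mem hd h10

end Main

end Pool.Agent.Helper28.Hilb8.D
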