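import Pool.Agent.Helper28.Hilb8.D.Spec
import Pool.Agent.Helper28.Hilb8.Loc

/-!
# Chart d is reduced near the origin in characteristic 2
-/

universe u

namespace Pool.Agent.Helper28.Hilb8.D

open MvPolynomial Pool.Agent.Helper97.Hilb8

variable (k : Type u) [Field k]

/-- The function field. -/
abbrev FK := FractionRing (MvPolynomial (Fin 42) k)

/-- The inclusion of the polynomial ring into the function field. -/
noncomputable def eK : MvPolynomial (Fin 42) k →ₐ[k] FK k :=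
  IsScalarTower.toAlgHom k (MvPolynomial (Fin 42) k) (FK k)

theorem eK_inj : Function.Injective (eK k) :=
  IsFractionRing.injective (MvPolynomial (Fin 42) k) (FK k)

variable {k}

theorem eK_ne {p : MvPolynomial (Fin 42) k} (v : Fin 42 → k) (h : aeval v p ≠ 0) :
    eK k p ≠ 0 := by
  intro h1
  apply h
  have h2 : p = 0 := eK_inj k (by rw [h1, map_zero])
  rw [h2, map_zero]

theorem detA_ne : eK k (Yv k 0) * eK k (Yv k 6) * eK k (Yv k 12) -
    eK k (Yv k 0) * eK k (Yv k 7) * eK k (Yv k 11) -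
    eK k (Yv k 1) * eK k (Yv k 5) * eK k (Yv k 12) +
    eK k (Yv k 1) * eK k (Yv k 7) * eK k (Yv k 10) +
    eK k (Yv k 2) * eK k (Yv k 5) * eK k (Yv k 11) -
    eK k (Yv k 2) * eK k (Yv k 6) * eK k (Yv k 10) ≠ 0 := by
  simp only [← map_mul, ← map_sub, ← map_add]
  apply eK_ne (fun i : Fin 42 => if (i : ℕ) = 0 ∨ (i : ℕ) = 6 ∨ (i : ℕ) = 12 then (1 : k) else 0)
  rw [Yv_lt (by norm_num : 0 < 42), Yv_lt (by norm_num : 6 < 42), Yv_lt (by norm_num : 12 < 42),
    Yv_lt (by norm_num : 7 < 42), Yv_lt (by norm_num : 11 < 42), Yv_lt (by norm_num : 1 < 42),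
    Yv_lt (by norm_num : 5 < 42), Yv_lt (by norm_num : 10 < 42), Yv_lt (by norm_num : 2 < 42)]
  simp

theorem detB_ne : (eK k (Yv k 0) + eK k (Yv k 18)) * (eK k (Yv k 6) + eK k (Yv k 21)) *
    (eK k (Yv k 12) + eK k (Yv k 23)) - (eK k (Yv k 0) + eK k (Yv k 18)) * eK k (Yv k 7) *
    eK k (Yv k 11) - eK k (Yv k 1) * eK k (Yv k 5) * (eK k (Yv k 12) + eK k (Yv k 23)) +
    eK k (Yv k 1) * eK k (Yv k 7) * eK k (Yv k 10) +
    eK k (Yv k 2) * eK k (Yv k 5) * eK k (Yv k 11) -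
    eK k (Yv k 2) * (eK k (Yv k 6) + eK k (Yv k 21)) * eK k (Yv k 10) ≠ 0 := by
  simp only [← map_mul, ← map_sub, ← map_add]
  apply eK_ne (fun i : Fin 42 => if (i : ℕ) = 0 ∨ (i : ℕ) = 6 ∨ (i : ℕ) = 12 then (1 : k) else 0)
  rw [Yv_lt (by norm_num : 0 < 42), Yv_lt (by norm_num : 6 < 42), Yv_lt (by norm_num : 12 < 42),
    Yv_lt (by norm_num : 7 < 42), Yv_lt (by norm_num : 11 < 42), Yv_lt (by norm_num : 1 < 42),
    Yv_lt (by norm_num : 5 < 42), Yv_lt (by norm_num : 10 < 42), Yv_lt (by norm_num : 2 < 42),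
    Yv_lt (by norm_num : 18 < 42), Yv_lt (by norm_num : 21 < 42), Yv_lt (by norm_num : 23 < 42)]
  simp

theorem Yv_ne {i : ℕ} (hi : i < 42) : eK k (Yv k i) ≠ 0 := by
  apply eK_ne (fun _ : Fin 42 => (1 : k))
  rw [Yv_lt hi]
  simp

theorem theta_Jt {F : Type*} [CommRing F] [Algebra k F] {θ : SD k →ₐ[k] F}
    (hθ : HasFam (fun _ => 1) (chartD.ideal k) θ) {p : SD k} (hp : p ∈ Jt k) : θ p = 0 := by
  have hle : Jt k ≤ RingHom.ker (θ : SD k →+* F) := by
    unfold Jt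
    rw [Ideal.span_le]
    rintro g ⟨f, hf, d, hb⟩
    exact theta_low hθ hf hb
  exact hle hp

/-- Chart d is reduced near the origin. -/
theorem locRed_chartD (k : Type u) [Field k] (h2 : (2 : k) = 0) : LocRed chartD k := by
  have h2F : (2 : FK k) = 0 := by
    have : (2 : FK k) = algebraMap k (FK k) 2 := by rw [map_ofNat]
    rw [this, h2, map_zero]
  obtain ⟨θ₁, hθ₁, hv₁⟩ := specA (k := k) h2F (fun i => eK k (Yv k i)) (Yv_ne (by norm_num)) detA_ne
  obtain ⟨θ₂, hθ₂, hz₂, hv₂⟩ := specB (k := k) h2F (fun i => eK k (Yv k i)) (Yv_ne (by norm_num))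
    detB_ne
  obtain ⟨θ₃, hθ₃, hv₃⟩ := spec2 (k := k) h2F (fun i => eK k (Yv k i))
  refine exists_loc (fun _ => 1) (chartD.ideal k)
    {g | ∃ f ∈ chartD.ideal k, ∃ d, IsBot (fun _ => 1) f g d} (fun g hg => hg)
    (ι := Fin 3) (fun _ => FK k) ![θ₁, θ₂, θ₃] ?_ ?_
  · intro i
    fin_cases i
    · exact hθ₁
    · exact hθ₂
    · exact hθ₃
  · intro d p _ hp
    have hp1 : θ₁ p = 0 := hp 0
    have hp2 : θ₂ p = 0 := hp 1
    have hp3 : θ₃ p = 0 := hp 2
    have hJ := sub_iota_pi h2 p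
    have key : ∀ {θ : SD k →ₐ[k] FK k}, HasFam (fun _ => 1) (chartD.ideal k) θ → θ p = 0 →
        θ (iotaD k (piD k p)) = 0 := by
      intro θ hθ h
      have h1 := theta_Jt hθ hJ
      rw [map_sub, h, zero_sub, neg_eq_zero] at h1
      exact h1
    have hq : ∀ {θ : SD k →ₐ[k] FK k}, HasFam (fun _ => 1) (chartD.ideal k) θ → ∀ j < 29,
        (θ.comp (iotaD k)) (qD k j) = 0 := by
      intro θ hθ j hj
      exact theta_Jt hθ (iota_quad h2 j hj)
    have hmem : piD k p ∈ JR k :=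
      mem_JR (eK k) (eK_inj k) h2 (eK k) (eK_inj k) (eK k) (eK_inj k)
        (θ₁.comp (iotaD k)) (θ₂.comp (iotaD k)) (θ₃.comp (iotaD k))
        (fun i hi => hv₁ i hi) hz₂ (fun i hi => hv₂ i hi) (hq hθ₂) (fun i hi => hv₃ i hi)
        (hq hθ₃) _ (key hθ₁ hp1) (key hθ₂ hp2) (key hθ₃ hp3)
    have h5 : iotaD k (piD k p) ∈ Jt k := by
      have hle : JR k ≤ (Jt k).comap (iotaD k) := by
        unfold JR
        rw [Ideal.span_le]
        rintro g ⟨j, hj, rfl⟩
        exact iota_quad h2 j hj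
      exact hle hmem
    have h6 : p = (p - iotaD k (piD k p)) + iotaD k (piD k p) := by ring
    rw [h6]
    exact Ideal.add_mem _ hJ h5

end Pool.Agent.Helper28.Hilb8.D
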