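import Pool.Agent.Helper28.Hilb8.D.FamPt

/-!
# Chart d: the family of algebras with Hilbert function (1, 4, 3)
-/

universe u

namespace Pool.Agent.Helper28.Hilb8.D

open MvPolynomial Pool.Agent.Helper97.Hilb8

/-- Parameters of the net family. -/
structure NetP (F : Type*) where
  b115 : F
  b116 : F
  b117 : F
  b225 : F
  b226 : F
  b227 : F
  b335 : F
  b336 : F
  b337 : F
  b145 : F
  b146 : F
  b147 : F
  b245 : F
  b246 : F
  b247 : F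
  b345 : F
  b346 : F
  b347 : F
  b445 : F
  b446 : F
  b447 : F
  t1 : F
  t2 : F
  t3 : F
  t4 : F

section Net

variable {F : Type u} [Field F]

/-- First order elements. -/
noncomputable def eps (a : F) : PowerSeries F := PowerSeries.X * PowerSeries.C a

theorem c0_eps (a : F) : PowerSeries.constantCoeff (eps a) = 0 := by
  simp [eps]

theorem c1_eps (a : F) : PowerSeries.coeff 1 (eps a) = a := by
  simp [eps, PowerSeries.coeff_one_mul]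

/-- Multiplication by `x1`. -/
noncomputable def nL1 (d : NetP F) : Module.End (PowerSeries F) (Fin 8 → PowerSeries F) where
  toFun v := ![eps d.t1 * v 0,
    v 0 + eps d.t1 * v 1,
    eps d.t1 * v 2,
    eps d.t1 * v 3,
    eps d.t1 * v 4,
    eps d.b115 * v 1 + v 2 + eps d.b145 * v 4 + eps d.t1 * v 5,
    eps d.b116 * v 1 + v 3 + eps d.b146 * v 4 + eps d.t1 * v 6,
    eps d.b117 * v 1 + eps d.b147 * v 4 + eps d.t1 * v 7]
  map_add' u v := by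
    ext1 i
    fin_cases i <;> simp <;> ring
  map_smul' c v := by
    ext1 i
    fin_cases i <;> simp <;> ring

/-- Zeroth order part. -/
def GN1 (v : Fin 8 → F) : Fin 8 → F :=
  ![0, v 0, 0, 0, 0, v 2, v 3, 0]

/-- First order part. -/
def DN1 (d : NetP F) (v : Fin 8 → F) : Fin 8 → F :=
  ![d.t1 * v 0,
    d.t1 * v 1,
    d.t1 * v 2,
    d.t1 * v 3,
    d.t1 * v 4,
    d.b115 * v 1 + d.b145 * v 4 + d.t1 * v 5,
    d.b116 * v 1 + d.b146 * v 4 + d.t1 * v 6,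
    d.b117 * v 1 + d.b147 * v 4 + d.t1 * v 7]

/-- Multiplication by `x2`. -/
noncomputable def nL2 (d : NetP F) : Module.End (PowerSeries F) (Fin 8 → PowerSeries F) where
  toFun v := ![eps d.t2 * v 0,
    eps d.t2 * v 1,
    v 0 + eps d.t2 * v 2,
    eps d.t2 * v 3,
    eps d.t2 * v 4,
    v 1 + eps d.b225 * v 2 + eps d.b245 * v 4 + eps d.t2 * v 5,
    eps d.b226 * v 2 + eps d.b246 * v 4 + eps d.t2 * v 6,
    eps d.b227 * v 2 + v 3 + eps d.b247 * v 4 + eps d.t2 * v 7]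
  map_add' u v := by
    ext1 i
    fin_cases i <;> simp <;> ring
  map_smul' c v := by
    ext1 i
    fin_cases i <;> simp <;> ring

/-- Zeroth order part. -/
def GN2 (v : Fin 8 → F) : Fin 8 → F :=
  ![0, 0, v 0, 0, 0, v 1, 0, v 3]

/-- First order part. -/
def DN2 (d : NetP F) (v : Fin 8 → F) : Fin 8 → F :=
  ![d.t2 * v 0,
    d.t2 * v 1,
    d.t2 * v 2,
    d.t2 * v 3,
    d.t2 * v 4,
    d.b225 * v 2 + d.b245 * v 4 + d.t2 * v 5,
    d.b226 * v 2 + d.b246 * v 4 + d.t2 * v 6,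
    d.b227 * v 2 + d.b247 * v 4 + d.t2 * v 7]

/-- Multiplication by `x3`. -/
noncomputable def nL3 (d : NetP F) : Module.End (PowerSeries F) (Fin 8 → PowerSeries F) where
  toFun v := ![eps d.t3 * v 0,
    eps d.t3 * v 1,
    eps d.t3 * v 2,
    v 0 + eps d.t3 * v 3,
    eps d.t3 * v 4,
    eps d.b335 * v 3 + eps d.b345 * v 4 + eps d.t3 * v 5,
    v 1 + eps d.b336 * v 3 + eps d.b346 * v 4 + eps d.t3 * v 6,
    v 2 + eps d.b337 * v 3 + eps d.b347 * v 4 + eps d.t3 * v 7]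
  map_add' u v := by
    ext1 i
    fin_cases i <;> simp <;> ring
  map_smul' c v := by
    ext1 i
    fin_cases i <;> simp <;> ring

/-- Zeroth order part. -/
def GN3 (v : Fin 8 → F) : Fin 8 → F :=
  ![0, 0, 0, v 0, 0, 0, v 1, v 2]

/-- First order part. -/
def DN3 (d : NetP F) (v : Fin 8 → F) : Fin 8 → F :=
  ![d.t3 * v 0,
    d.t3 * v 1,
    d.t3 * v 2,
    d.t3 * v 3,
    d.t3 * v 4,
    d.b335 * v 3 + d.b345 * v 4 + d.t3 * v 5,
    d.b336 * v 3 + d.b346 * v 4 + d.t3 * v 6,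
    d.b337 * v 3 + d.b347 * v 4 + d.t3 * v 7]

/-- Multiplication by `x4`. -/
noncomputable def nL4 (d : NetP F) : Module.End (PowerSeries F) (Fin 8 → PowerSeries F) where
  toFun v := ![eps d.t4 * v 0,
    eps d.t4 * v 1,
    eps d.t4 * v 2,
    eps d.t4 * v 3,
    v 0 + eps d.t4 * v 4,
    eps d.b145 * v 1 + eps d.b245 * v 2 + eps d.b345 * v 3 + eps d.b445 * v 4 + eps d.t4 * v 5,
    eps d.b146 * v 1 + eps d.b246 * v 2 + eps d.b346 * v 3 + eps d.b446 * v 4 + eps d.t4 * v 6,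
    eps d.b147 * v 1 + eps d.b247 * v 2 + eps d.b347 * v 3 + eps d.b447 * v 4 + eps d.t4 * v 7]
  map_add' u v := by
    ext1 i
    fin_cases i <;> simp <;> ring
  map_smul' c v := by
    ext1 i
    fin_cases i <;> simp <;> ring

/-- Zeroth order part. -/
def GN4 (v : Fin 8 → F) : Fin 8 → F :=
  ![0, 0, 0, 0, v 0, 0, 0, 0]

/-- First order part. -/
def DN4 (d : NetP F) (v : Fin 8 → F) : Fin 8 → F :=
  ![d.t4 * v 0,
    d.t4 * v 1,
    d.t4 * v 2,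
    d.t4 * v 3,
    d.t4 * v 4,
    d.b145 * v 1 + d.b245 * v 2 + d.b345 * v 3 + d.b445 * v 4 + d.t4 * v 5,
    d.b146 * v 1 + d.b246 * v 2 + d.b346 * v 3 + d.b446 * v 4 + d.t4 * v 6,
    d.b147 * v 1 + d.b247 * v 2 + d.b347 * v 3 + d.b447 * v 4 + d.t4 * v 7]

variable (d : NetP F)

theorem nL1_apply (v : Fin 8 → PowerSeries F) : nL1 d v =
  ![eps d.t1 * v 0,
    v 0 + eps d.t1 * v 1,
    eps d.t1 * v 2,
    eps d.t1 * v 3,
    eps d.t1 * v 4,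
    eps d.b115 * v 1 + v 2 + eps d.b145 * v 4 + eps d.t1 * v 5,
    eps d.b116 * v 1 + v 3 + eps d.b146 * v 4 + eps d.t1 * v 6,
    eps d.b117 * v 1 + eps d.b147 * v 4 + eps d.t1 * v 7] := rfl

theorem c0_nL1 (v : Fin 8 → PowerSeries F) : c0 (nL1 d v) = GN1 (c0 v) := by
  rw [nL1_apply]
  ext i
  fin_cases i <;> simp [c0, GN1, c0_eps]

theorem c1_nL1 (v : Fin 8 → PowerSeries F) :
    c1 (nL1 d v) = GN1 (c1 v) + DN1 d (c0 v) := by
  rw [nL1_apply]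
  ext i
  fin_cases i <;> simp [c0, c1, GN1, DN1, PowerSeries.coeff_one_mul, c0_eps, c1_eps] <;> ring

theorem nL2_apply (v : Fin 8 → PowerSeries F) : nL2 d v =
  ![eps d.t2 * v 0,
    eps d.t2 * v 1,
    v 0 + eps d.t2 * v 2,
    eps d.t2 * v 3,
    eps d.t2 * v 4,
    v 1 + eps d.b225 * v 2 + eps d.b245 * v 4 + eps d.t2 * v 5,
    eps d.b226 * v 2 + eps d.b246 * v 4 + eps d.t2 * v 6,
    eps d.b227 * v 2 + v 3 + eps d.b247 * v 4 + eps d.t2 * v 7] := rfl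

theorem c0_nL2 (v : Fin 8 → PowerSeries F) : c0 (nL2 d v) = GN2 (c0 v) := by
  rw [nL2_apply]
  ext i
  fin_cases i <;> simp [c0, GN2, c0_eps]

theorem c1_nL2 (v : Fin 8 → PowerSeries F) :
    c1 (nL2 d v) = GN2 (c1 v) + DN2 d (c0 v) := by
  rw [nL2_apply]
  ext i
  fin_cases i <;> simp [c0, c1, GN2, DN2, PowerSeries.coeff_one_mul, c0_eps, c1_eps] <;> ring

theorem nL3_apply (v : Fin 8 → PowerSeries F) : nL3 d v =
  ![eps d.t3 * v 0,
    eps d.t3 * v 1,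
    eps d.t3 * v 2,
    v 0 + eps d.t3 * v 3,
    eps d.t3 * v 4,
    eps d.b335 * v 3 + eps d.b345 * v 4 + eps d.t3 * v 5,
    v 1 + eps d.b336 * v 3 + eps d.b346 * v 4 + eps d.t3 * v 6,
    v 2 + eps d.b337 * v 3 + eps d.b347 * v 4 + eps d.t3 * v 7] := rfl

theorem c0_nL3 (v : Fin 8 → PowerSeries F) : c0 (nL3 d v) = GN3 (c0 v) := by
  rw [nL3_apply]
  ext i
  fin_cases i <;> simp [c0, GN3, c0_eps]

theorem c1_nL3 (v : Fin 8 → PowerSeries F) :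
    c1 (nL3 d v) = GN3 (c1 v) + DN3 d (c0 v) := by
  rw [nL3_apply]
  ext i
  fin_cases i <;> simp [c0, c1, GN3, DN3, PowerSeries.coeff_one_mul, c0_eps, c1_eps] <;> ring

theorem nL4_apply (v : Fin 8 → PowerSeries F) : nL4 d v =
  ![eps d.t4 * v 0,
    eps d.t4 * v 1,
    eps d.t4 * v 2,
    eps d.t4 * v 3,
    v 0 + eps d.t4 * v 4,
    eps d.b145 * v 1 + eps d.b245 * v 2 + eps d.b345 * v 3 + eps d.b445 * v 4 + eps d.t4 * v 5,
    eps d.b146 * v 1 + eps d.b246 * v 2 + eps d.b346 * v 3 + eps d.b446 * v 4 + eps d.t4 * v 6,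
    eps d.b147 * v 1 + eps d.b247 * v 2 + eps d.b347 * v 3 + eps d.b447 * v 4 + eps d.t4 * v 7] := rfl

theorem c0_nL4 (v : Fin 8 → PowerSeries F) : c0 (nL4 d v) = GN4 (c0 v) := by
  rw [nL4_apply]
  ext i
  fin_cases i <;> simp [c0, GN4, c0_eps]

theorem c1_nL4 (v : Fin 8 → PowerSeries F) :
    c1 (nL4 d v) = GN4 (c1 v) + DN4 d (c0 v) := by
  rw [nL4_apply]
  ext i
  fin_cases i <;> simp [c0, c1, GN4, DN4, PowerSeries.coeff_one_mul, c0_eps, c1_eps] <;> ring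

theorem nL_comm12 (v : Fin 8 → PowerSeries F) : nL1 d (nL2 d v) = nL2 d (nL1 d v) := by
  simp only [nL1_apply, nL2_apply]
  ext1 i
  fin_cases i <;> simp <;> ring

theorem nL_comm13 (v : Fin 8 → PowerSeries F) : nL1 d (nL3 d v) = nL3 d (nL1 d v) := by
  simp only [nL1_apply, nL3_apply]
  ext1 i
  fin_cases i <;> simp <;> ring

theorem nL_comm14 (v : Fin 8 → PowerSeries F) : nL1 d (nL4 d v) = nL4 d (nL1 d v) := by
  simp only [nL1_apply, nL4_apply]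
  ext1 i
  fin_cases i <;> simp <;> ring

theorem nL_comm23 (v : Fin 8 → PowerSeries F) : nL2 d (nL3 d v) = nL3 d (nL2 d v) := by
  simp only [nL2_apply, nL3_apply]
  ext1 i
  fin_cases i <;> simp <;> ring

theorem nL_comm24 (v : Fin 8 → PowerSeries F) : nL2 d (nL4 d v) = nL4 d (nL2 d v) := by
  simp only [nL2_apply, nL4_apply]
  ext1 i
  fin_cases i <;> simp <;> ring

theorem nL_comm34 (v : Fin 8 → PowerSeries F) : nL3 d (nL4 d v) = nL4 d (nL3 d v) := by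
  simp only [nL3_apply, nL4_apply]
  ext1 i
  fin_cases i <;> simp <;> ring

/-- The operators. -/
noncomputable def nL : Fin 4 → Module.End (PowerSeries F) (Fin 8 → PowerSeries F) :=
  ![nL1 d, nL2 d, nL3 d, nL4 d]

theorem nL_comm (i j : Fin 4) : nL d i * nL d j = nL d j * nL d i := by
  have e12 : nL1 d * nL2 d = nL2 d * nL1 d := LinearMap.ext fun v => nL_comm12 d v
  have e13 : nL1 d * nL3 d = nL3 d * nL1 d := LinearMap.ext fun v => nL_comm13 d v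
  have e14 : nL1 d * nL4 d = nL4 d * nL1 d := LinearMap.ext fun v => nL_comm14 d v
  have e23 : nL2 d * nL3 d = nL3 d * nL2 d := LinearMap.ext fun v => nL_comm23 d v
  have e24 : nL2 d * nL4 d = nL4 d * nL2 d := LinearMap.ext fun v => nL_comm24 d v
  have e34 : nL3 d * nL4 d = nL4 d * nL3 d := LinearMap.ext fun v => nL_comm34 d v
  match i, j with
  | 0, 0 => exact rfl
  | 0, 1 => exact e12
  | 0, 2 => exact e13
  | 0, 3 => exact e14
  | 1, 0 => exact e12.symm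
  | 1, 1 => exact rfl
  | 1, 2 => exact e23
  | 1, 3 => exact e24
  | 2, 0 => exact e13.symm
  | 2, 1 => exact e23.symm
  | 2, 2 => exact rfl
  | 2, 3 => exact e34
  | 3, 0 => exact e14.symm
  | 3, 1 => exact e24.symm
  | 3, 2 => exact e34.symm
  | 3, 3 => exact rfl

theorem c0_n0 : c0 (nL1 d (e0 F)) = ![0, 1, 0, 0, 0, 0, 0, 0] := by
  rw [c0_nL1, c0_e0]
  ext i
  fin_cases i <;> simp [GN1]

theorem c1_n0 : c1 (nL1 d (e0 F)) = ![d.t1, 0, 0, 0, 0, 0, 0, 0] := by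
  rw [c1_nL1, c1_e0, c0_e0]
  ext i
  fin_cases i <;> simp [GN1, DN1] <;> try ring

theorem c0_n1 : c0 (nL2 d (e0 F)) = ![0, 0, 1, 0, 0, 0, 0, 0] := by
  rw [c0_nL2, c0_e0]
  ext i
  fin_cases i <;> simp [GN2]

theorem c1_n1 : c1 (nL2 d (e0 F)) = ![d.t2, 0, 0, 0, 0, 0, 0, 0] := by
  rw [c1_nL2, c1_e0, c0_e0]
  ext i
  fin_cases i <;> simp [GN2, DN2] <;> try ring

theorem c0_n2 : c0 (nL3 d (e0 F)) = ![0, 0, 0, 1, 0, 0, 0, 0] := by
  rw [c0_nL3, c0_e0]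
  ext i
  fin_cases i <;> simp [GN3]

theorem c1_n2 : c1 (nL3 d (e0 F)) = ![d.t3, 0, 0, 0, 0, 0, 0, 0] := by
  rw [c1_nL3, c1_e0, c0_e0]
  ext i
  fin_cases i <;> simp [GN3, DN3] <;> try ring

theorem c0_n3 : c0 (nL4 d (e0 F)) = ![0, 0, 0, 0, 1, 0, 0, 0] := by
  rw [c0_nL4, c0_e0]
  ext i
  fin_cases i <;> simp [GN4]

theorem c1_n3 : c1 (nL4 d (e0 F)) = ![d.t4, 0, 0, 0, 0, 0, 0, 0] := by
  rw [c1_nL4, c1_e0, c0_e0]
  ext i
  fin_cases i <;> simp [GN4, DN4] <;> try ring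

theorem c0_n01 : c0 (nL1 d (nL2 d (e0 F))) = ![0, 0, 0, 0, 0, 1, 0, 0] := by
  rw [c0_nL1, c0_n1 d]
  ext i
  fin_cases i <;> simp [GN1]

theorem c1_n01 : c1 (nL1 d (nL2 d (e0 F))) = ![0, d.t2, d.t1, 0, 0, 0, 0, 0] := by
  rw [c1_nL1, c1_n1 d, c0_n1 d]
  ext i
  fin_cases i <;> simp [GN1, DN1] <;> try ring

theorem c0_n02 : c0 (nL1 d (nL3 d (e0 F))) = ![0, 0, 0, 0, 0, 0, 1, 0] := by
  rw [c0_nL1, c0_n2 d]
  ext i
  fin_cases i <;> simp [GN1]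

theorem c1_n02 : c1 (nL1 d (nL3 d (e0 F))) = ![0, d.t3, 0, d.t1, 0, 0, 0, 0] := by
  rw [c1_nL1, c1_n2 d, c0_n2 d]
  ext i
  fin_cases i <;> simp [GN1, DN1] <;> try ring

theorem c0_n12 : c0 (nL2 d (nL3 d (e0 F))) = ![0, 0, 0, 0, 0, 0, 0, 1] := by
  rw [c0_nL2, c0_n2 d]
  ext i
  fin_cases i <;> simp [GN2]

theorem c1_n12 : c1 (nL2 d (nL3 d (e0 F))) = ![0, 0, d.t3, d.t2, 0, 0, 0, 0] := by
  rw [c1_nL2, c1_n2 d, c0_n2 d]
  ext i
  fin_cases i <;> simp [GN2, DN2] <;> try ring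

theorem c0_n00 : c0 (nL1 d (nL1 d (e0 F))) = ![0, 0, 0, 0, 0, 0, 0, 0] := by
  rw [c0_nL1, c0_n0 d]
  ext i
  fin_cases i <;> simp [GN1]

theorem c1_n00 : c1 (nL1 d (nL1 d (e0 F))) = ![0, 2 * d.t1, 0, 0, 0, d.b115, d.b116, d.b117] := by
  rw [c1_nL1, c1_n0 d, c0_n0 d]
  ext i
  fin_cases i <;> simp [GN1, DN1] <;> try ring

theorem c0_n03 : c0 (nL1 d (nL4 d (e0 F))) = ![0, 0, 0, 0, 0, 0, 0, 0] := by
  rw [c0_nL1, c0_n3 d]
  ext i
  fin_cases i <;> simp [GN1]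

theorem c1_n03 : c1 (nL1 d (nL4 d (e0 F))) = ![0, d.t4, 0, 0, d.t1, d.b145, d.b146, d.b147] := by
  rw [c1_nL1, c1_n3 d, c0_n3 d]
  ext i
  fin_cases i <;> simp [GN1, DN1] <;> try ring

theorem c0_n11 : c0 (nL2 d (nL2 d (e0 F))) = ![0, 0, 0, 0, 0, 0, 0, 0] := by
  rw [c0_nL2, c0_n1 d]
  ext i
  fin_cases i <;> simp [GN2]

theorem c1_n11 : c1 (nL2 d (nL2 d (e0 F))) = ![0, 0, 2 * d.t2, 0, 0, d.b225, d.b226, d.b227] := by
  rw [c1_nL2, c1_n1 d, c0_n1 d]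
  ext i
  fin_cases i <;> simp [GN2, DN2] <;> try ring

theorem c0_n13 : c0 (nL2 d (nL4 d (e0 F))) = ![0, 0, 0, 0, 0, 0, 0, 0] := by
  rw [c0_nL2, c0_n3 d]
  ext i
  fin_cases i <;> simp [GN2]

theorem c1_n13 : c1 (nL2 d (nL4 d (e0 F))) = ![0, 0, d.t4, 0, d.t2, d.b245, d.b246, d.b247] := by
  rw [c1_nL2, c1_n3 d, c0_n3 d]
  ext i
  fin_cases i <;> simp [GN2, DN2] <;> try ring

theorem c0_n22 : c0 (nL3 d (nL3 d (e0 F))) = ![0, 0, 0, 0, 0, 0, 0, 0] := by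
  rw [c0_nL3, c0_n2 d]
  ext i
  fin_cases i <;> simp [GN3]

theorem c1_n22 : c1 (nL3 d (nL3 d (e0 F))) = ![0, 0, 0, 2 * d.t3, 0, d.b335, d.b336, d.b337] := by
  rw [c1_nL3, c1_n2 d, c0_n2 d]
  ext i
  fin_cases i <;> simp [GN3, DN3] <;> try ring

theorem c0_n23 : c0 (nL3 d (nL4 d (e0 F))) = ![0, 0, 0, 0, 0, 0, 0, 0] := by
  rw [c0_nL3, c0_n3 d]
  ext i
  fin_cases i <;> simp [GN3]

theorem c1_n23 : c1 (nL3 d (nL4 d (e0 F))) = ![0, 0, 0, d.t4, d.t3, d.b345, d.b346, d.b347] := by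
  rw [c1_nL3, c1_n3 d, c0_n3 d]
  ext i
  fin_cases i <;> simp [GN3, DN3] <;> try ring

theorem c0_n33 : c0 (nL4 d (nL4 d (e0 F))) = ![0, 0, 0, 0, 0, 0, 0, 0] := by
  rw [c0_nL4, c0_n3 d]
  ext i
  fin_cases i <;> simp [GN4]

theorem c1_n33 : c1 (nL4 d (nL4 d (e0 F))) = ![0, 0, 0, 0, 2 * d.t4, d.b445, d.b446, d.b447] := by
  rw [c1_nL4, c1_n3 d, c0_n3 d]
  ext i
  fin_cases i <;> simp [GN4, DN4] <;> try ring

theorem c0_n001 : c0 (nL1 d (nL1 d (nL2 d (e0 F)))) = ![0, 0, 0, 0, 0, 0, 0, 0] := by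
  rw [c0_nL1, c0_n01 d]
  ext i
  fin_cases i <;> simp [GN1]

theorem c0_n002 : c0 (nL1 d (nL1 d (nL3 d (e0 F)))) = ![0, 0, 0, 0, 0, 0, 0, 0] := by
  rw [c0_nL1, c0_n02 d]
  ext i
  fin_cases i <;> simp [GN1]

theorem c0_n011 : c0 (nL1 d (nL2 d (nL2 d (e0 F)))) = ![0, 0, 0, 0, 0, 0, 0, 0] := by
  rw [c0_nL1, c0_n11 d]
  ext i
  fin_cases i <;> simp [GN1]

theorem c0_n012 : c0 (nL1 d (nL2 d (nL3 d (e0 F)))) = ![0, 0, 0, 0, 0, 0, 0, 0] := by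
  rw [c0_nL1, c0_n12 d]
  ext i
  fin_cases i <;> simp [GN1]

theorem c1_n012 : c1 (nL1 d (nL2 d (nL3 d (e0 F)))) = ![0, 0, 0, 0, 0, d.t3, d.t2, d.t1] := by
  rw [c1_nL1, c1_n12 d, c0_n12 d]
  ext i
  fin_cases i <;> simp [GN1, DN1] <;> try ring

theorem c0_n013 : c0 (nL1 d (nL2 d (nL4 d (e0 F)))) = ![0, 0, 0, 0, 0, 0, 0, 0] := by
  rw [c0_nL1, c0_n13 d]
  ext i
  fin_cases i <;> simp [GN1]

theorem c0_n022 : c0 (nL1 d (nL3 d (nL3 d (e0 F)))) = ![0, 0, 0, 0, 0, 0, 0, 0] := by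
  rw [c0_nL1, c0_n22 d]
  ext i
  fin_cases i <;> simp [GN1]

theorem c0_n023 : c0 (nL1 d (nL3 d (nL4 d (e0 F)))) = ![0, 0, 0, 0, 0, 0, 0, 0] := by
  rw [c0_nL1, c0_n23 d]
  ext i
  fin_cases i <;> simp [GN1]

theorem c0_n112 : c0 (nL2 d (nL2 d (nL3 d (e0 F)))) = ![0, 0, 0, 0, 0, 0, 0, 0] := by
  rw [c0_nL2, c0_n12 d]
  ext i
  fin_cases i <;> simp [GN2]

theorem c0_n122 : c0 (nL2 d (nL3 d (nL3 d (e0 F)))) = ![0, 0, 0, 0, 0, 0, 0, 0] := by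
  rw [c0_nL2, c0_n22 d]
  ext i
  fin_cases i <;> simp [GN2]

theorem c0_n123 : c0 (nL2 d (nL3 d (nL4 d (e0 F)))) = ![0, 0, 0, 0, 0, 0, 0, 0] := by
  rw [c0_nL2, c0_n23 d]
  ext i
  fin_cases i <;> simp [GN2]

/-- The first order coordinates of the net family. -/
def WN (d : NetP F) : ℕ → Fin 8 → F
  | 0 => ![0, 0, 0, 0, 0, d.b115, d.b116, d.b117]
  | 1 => ![0, d.t4, 0, 0, d.t1, d.b145, d.b146, d.b147]
  | 2 => ![0, 0, 0, 0, 0, d.b225, d.b226, d.b227]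
  | 3 => ![0, 0, d.t4, 0, d.t2, d.b245, d.b246, d.b247]
  | 4 => ![0, 0, 0, 0, 0, d.b335, d.b336, d.b337]
  | 5 => ![0, 0, 0, d.t4, d.t3, d.b345, d.b346, d.b347]
  | 6 => ![0, 0, 0, 0, 0, d.b445, d.b446, d.b447]
  | 10 => ![0, 0, 0, 0, 0, d.t3, d.t2, d.t1]
  | _ => 0

theorem det_one_ne : (1 : Matrix (Fin 8) (Fin 8) F).det ≠ 0 := by
  rw [Matrix.det_one]
  exact one_ne_zero

theorem fam2P : ∀ m : ℕ, m < 8 → ∀ hm : m < 8, c0 (chartD.monoEl (nL d) m (e0 F)) =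
    fun r => (1 : Matrix (Fin 8) (Fin 8) F) r ⟨m, hm⟩ := by
  intro m h hm
  interval_cases m
  · rw [word0, Module.End.one_apply, c0_e0]
    ext r
    fin_cases r <;> simp
  · rw [word1]
    change c0 (nL1 d (e0 F)) = _
    rw [c0_n0 d]
    ext r
    fin_cases r <;> simp
  · rw [word2]
    change c0 (nL2 d (e0 F)) = _
    rw [c0_n1 d]
    ext r
    fin_cases r <;> simp
  · rw [word3]
    change c0 (nL3 d (e0 F)) = _
    rw [c0_n2 d]
    ext r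
    fin_cases r <;> simp
  · rw [word4]
    change c0 (nL4 d (e0 F)) = _
    rw [c0_n3 d]
    ext r
    fin_cases r <;> simp
  · rw [word5]
    change c0 (nL1 d (nL2 d (e0 F))) = _
    rw [c0_n01 d]
    ext r
    fin_cases r <;> simp
  · rw [word6]
    change c0 (nL1 d (nL3 d (e0 F))) = _
    rw [c0_n02 d]
    ext r
    fin_cases r <;> simp
  · rw [word7]
    change c0 (nL2 d (nL3 d (e0 F))) = _
    rw [c0_n12 d]
    ext r
    fin_cases r <;> simp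

theorem fam2Q (h2 : (2 : F) = 0) : ∀ β ∈ [0, 1, 2, 3, 4, 5, 6, 10],
    c1 (chartD.monoEl (nL d) (8 + β) (e0 F)) = WN d β := by
  intro β hβ
  simp only [List.mem_cons, List.not_mem_nil, or_false] at hβ
  rcases hβ with rfl | rfl | rfl | rfl | rfl | rfl | rfl | rfl
  · rw [show 8 + 0 = 8 from rfl, word8]
    change c1 (nL1 d (nL1 d (e0 F))) = _
    rw [c1_n00 d]
    ext r
    fin_cases r <;> simp [WN, h2]
  · rw [show 8 + 1 = 9 from rfl, word9]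
    change c1 (nL1 d (nL4 d (e0 F))) = _
    rw [c1_n03 d]
    ext r
    fin_cases r <;> simp [WN]
  · rw [show 8 + 2 = 10 from rfl, word10]
    change c1 (nL2 d (nL2 d (e0 F))) = _
    rw [c1_n11 d]
    ext r
    fin_cases r <;> simp [WN, h2]
  · rw [show 8 + 3 = 11 from rfl, word11]
    change c1 (nL2 d (nL4 d (e0 F))) = _
    rw [c1_n13 d]
    ext r
    fin_cases r <;> simp [WN]
  · rw [show 8 + 4 = 12 from rfl, word12]
    change c1 (nL3 d (nL3 d (e0 F))) = _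
    rw [c1_n22 d]
    ext r
    fin_cases r <;> simp [WN, h2]
  · rw [show 8 + 5 = 13 from rfl, word13]
    change c1 (nL3 d (nL4 d (e0 F))) = _
    rw [c1_n23 d]
    ext r
    fin_cases r <;> simp [WN]
  · rw [show 8 + 6 = 14 from rfl, word14]
    change c1 (nL4 d (nL4 d (e0 F))) = _
    rw [c1_n33 d]
    ext r
    fin_cases r <;> simp [WN, h2]
  · rw [show 8 + 10 = 18 from rfl, word18]
    change c1 (nL1 d (nL2 d (nL3 d (e0 F)))) = _
    rw [c1_n012 d]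
    ext r
    fin_cases r <;> simp [WN]

theorem fam2R : ∀ β < 17, c0 (chartD.monoEl (nL d) (8 + β) (e0 F)) = 0 := by
  have hz8 : (![0, 0, 0, 0, 0, 0, 0, 0] : Fin 8 → F) = 0 := by
    ext i
    fin_cases i <;> rfl
  intro β hβ
  interval_cases β
  · rw [show 8 + 0 = 8 from rfl, word8]
    change c0 (nL1 d (nL1 d (e0 F))) = _
    rw [c0_n00 d, hz8]
  · rw [show 8 + 1 = 9 from rfl, word9]
    change c0 (nL1 d (nL4 d (e0 F))) = _
    rw [c0_n03 d, hz8]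
  · rw [show 8 + 2 = 10 from rfl, word10]
    change c0 (nL2 d (nL2 d (e0 F))) = _
    rw [c0_n11 d, hz8]
  · rw [show 8 + 3 = 11 from rfl, word11]
    change c0 (nL2 d (nL4 d (e0 F))) = _
    rw [c0_n13 d, hz8]
  · rw [show 8 + 4 = 12 from rfl, word12]
    change c0 (nL3 d (nL3 d (e0 F))) = _
    rw [c0_n22 d, hz8]
  · rw [show 8 + 5 = 13 from rfl, word13]
    change c0 (nL3 d (nL4 d (e0 F))) = _
    rw [c0_n23 d, hz8]
  · rw [show 8 + 6 = 14 from rfl, word14]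
    change c0 (nL4 d (nL4 d (e0 F))) = _
    rw [c0_n33 d, hz8]
  · rw [show 8 + 7 = 15 from rfl, word15]
    change c0 (nL1 d (nL1 d (nL2 d (e0 F)))) = _
    rw [c0_n001 d, hz8]
  · rw [show 8 + 8 = 16 from rfl, word16]
    change c0 (nL1 d (nL1 d (nL3 d (e0 F)))) = _
    rw [c0_n002 d, hz8]
  · rw [show 8 + 9 = 17 from rfl, word17]
    change c0 (nL1 d (nL2 d (nL2 d (e0 F)))) = _
    rw [c0_n011 d, hz8]
  · rw [show 8 + 10 = 18 from rfl, word18]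
    change c0 (nL1 d (nL2 d (nL3 d (e0 F)))) = _
    rw [c0_n012 d, hz8]
  · rw [show 8 + 11 = 19 from rfl, word19]
    change c0 (nL1 d (nL2 d (nL4 d (e0 F)))) = _
    rw [c0_n013 d, hz8]
  · rw [show 8 + 12 = 20 from rfl, word20]
    change c0 (nL1 d (nL3 d (nL3 d (e0 F)))) = _
    rw [c0_n022 d, hz8]
  · rw [show 8 + 13 = 21 from rfl, word21]
    change c0 (nL1 d (nL3 d (nL4 d (e0 F)))) = _
    rw [c0_n023 d, hz8]
  · rw [show 8 + 14 = 22 from rfl, word22]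
    change c0 (nL2 d (nL2 d (nL3 d (e0 F)))) = _
    rw [c0_n112 d, hz8]
  · rw [show 8 + 15 = 23 from rfl, word23]
    change c0 (nL2 d (nL3 d (nL3 d (e0 F)))) = _
    rw [c0_n122 d, hz8]
  · rw [show 8 + 16 = 24 from rfl, word24]
    change c0 (nL2 d (nL3 d (nL4 d (e0 F)))) = _
    rw [c0_n123 d, hz8]

/-- The net family. -/
theorem fam2 {k : Type*} [Field k] [Algebra k F] (h2 : (2 : F) = 0) (d : NetP F) :
    ∃ θ : SD k →ₐ[k] F, HasFam (fun _ => 1) (chartD.ideal k) θ ∧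
      ∀ β ∈ [0, 1, 2, 3, 4, 5, 6, 10], ∀ c : Fin 8, θ (Xv k (8 * β + c)) = WN d β c := by
  have hz8 : (![0, 0, 0, 0, 0, 0, 0, 0] : Fin 8 → F) = 0 := by
    ext i
    fin_cases i <;> rfl
  refine fam_of_ops (nL d) (fun i j => nL_comm d i j) 1 det_one_ne ?_ ?_
    (WN d) _ (by decide) ?_
  · exact fun c => fam2P d c c.isLt c.isLt
  · exact fam2R d
  · intro β hβ
    rw [Matrix.one_mulVec]
    exact fam2Q d h2 β hβ

end Net

end Pool.Agent.Helper28.Hilb8.D
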