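import Pool.Agent.Helper28.Hilb8.D.FamVal
import Pool.Agent.Helper28.Hilb8.D.Net
import Pool.Agent.Helper28.Hilb8.D.Ker

/-!
# Chart d: generic members of the families
-/

universe u

namespace Pool.Agent.Helper28.Hilb8.D

open MvPolynomial Pool.Agent.Helper97.Hilb8

section Solve

variable {F : Type*} [Field F]

/-- Cramer's rule for three unknowns. -/
theorem solve3 (a11 a12 a13 a21 a22 a23 a31 a32 a33 b1 b2 b3 : F)
    (h : a11 * a22 * a33 - a11 * a23 * a32 - a12 * a21 * a33 + a12 * a23 * a31 + a13 * a21 * a32 -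
      a13 * a22 * a31 ≠ 0) :
    ∃ x1 x2 x3, a11 * x1 + a12 * x2 + a13 * x3 = b1 ∧ a21 * x1 + a22 * x2 + a23 * x3 = b2 ∧
      a31 * x1 + a32 * x2 + a33 * x3 = b3 := by
  set D := a11 * a22 * a33 - a11 * a23 * a32 - a12 * a21 * a33 + a12 * a23 * a31 +
    a13 * a21 * a32 - a13 * a22 * a31 with hD
  refine ⟨((a22 * a33 - a23 * a32) * b1 + (a13 * a32 - a12 * a33) * b2 +
    (a12 * a23 - a13 * a22) * b3) / D, ((a23 * a31 - a21 * a33) * b1 +
    (a11 * a33 - a13 * a31) * b2 + (a13 * a21 - a11 * a23) * b3) / D,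
    ((a21 * a32 - a22 * a31) * b1 + (a12 * a31 - a11 * a32) * b2 +
    (a11 * a22 - a12 * a21) * b3) / D, ?_, ?_, ?_⟩
  all_goals
    rw [mul_div_assoc', mul_div_assoc', mul_div_assoc', ← add_div, ← add_div, div_eq_iff h, hD]
    ring

/-- The scaling for the first limit. -/
noncomputable def scA (q : Prm F) : Prm (PowerSeries F) where
  z := PowerSeries.X * PowerSeries.C q.z
  a11 := PowerSeries.X * PowerSeries.C q.a11
  a12 := PowerSeries.X * PowerSeries.C q.a12
  a13 := PowerSeries.X * PowerSeries.C q.a13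
  a21 := PowerSeries.X * PowerSeries.C q.a21
  a22 := PowerSeries.X * PowerSeries.C q.a22
  a23 := PowerSeries.X * PowerSeries.C q.a23
  a31 := PowerSeries.X * PowerSeries.C q.a31
  a32 := PowerSeries.X * PowerSeries.C q.a32
  a33 := PowerSeries.X * PowerSeries.C q.a33
  n1 := PowerSeries.X * PowerSeries.C q.n1
  n2 := PowerSeries.X * PowerSeries.C q.n2
  n3 := PowerSeries.X * PowerSeries.C q.n3
  y := PowerSeries.X ^ 2 * PowerSeries.C q.y
  g1 := PowerSeries.X ^ 2 * PowerSeries.C q.g1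
  g2 := PowerSeries.X ^ 2 * PowerSeries.C q.g2
  g3 := PowerSeries.X ^ 2 * PowerSeries.C q.g3

/-- The scaling for the second limit. -/
noncomputable def scB (q : Prm F) : Prm (PowerSeries F) where
  z := PowerSeries.X ^ 2 * PowerSeries.C q.z
  a11 := PowerSeries.X * PowerSeries.C q.a11
  a12 := PowerSeries.X * PowerSeries.C q.a12
  a13 := PowerSeries.X * PowerSeries.C q.a13
  a21 := PowerSeries.X * PowerSeries.C q.a21
  a22 := PowerSeries.X * PowerSeries.C q.a22
  a23 := PowerSeries.X * PowerSeries.C q.a23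
  a31 := PowerSeries.X * PowerSeries.C q.a31
  a32 := PowerSeries.X * PowerSeries.C q.a32
  a33 := PowerSeries.X * PowerSeries.C q.a33
  n1 := PowerSeries.X * PowerSeries.C q.n1
  n2 := PowerSeries.X * PowerSeries.C q.n2
  n3 := PowerSeries.X * PowerSeries.C q.n3
  y := PowerSeries.X * PowerSeries.C q.y
  g1 := PowerSeries.X * PowerSeries.C q.g1
  g2 := PowerSeries.X * PowerSeries.C q.g2
  g3 := PowerSeries.X * PowerSeries.C q.g3

theorem scA_ok (q : Prm F) (h : q.Ok) : (scA q).Ok := by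
  have h1 := congrArg (PowerSeries.C (R := F)) h.hy
  have h2 := congrArg (PowerSeries.C (R := F)) h.hg1
  have h3 := congrArg (PowerSeries.C (R := F)) h.hg2
  have h4 := congrArg (PowerSeries.C (R := F)) h.hg3
  simp only [map_mul, map_sub, map_add, map_neg] at h1 h2 h3 h4
  constructor
  · simp only [scA]
    linear_combination PowerSeries.X ^ 3 * h1
  · simp only [scA]
    linear_combination PowerSeries.X ^ 3 * h2
  · simp only [scA]
    linear_combination PowerSeries.X ^ 3 * h3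
  · simp only [scA]
    linear_combination PowerSeries.X ^ 3 * h4

theorem scB_ok (q : Prm F) (h : q.Ok) : (scB q).Ok := by
  have h1 := congrArg (PowerSeries.C (R := F)) h.hy
  have h2 := congrArg (PowerSeries.C (R := F)) h.hg1
  have h3 := congrArg (PowerSeries.C (R := F)) h.hg2
  have h4 := congrArg (PowerSeries.C (R := F)) h.hg3
  simp only [map_mul, map_sub, map_add, map_neg] at h1 h2 h3 h4
  constructor
  · simp only [scB]
    linear_combination PowerSeries.X ^ 3 * h1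
  · simp only [scB]
    linear_combination PowerSeries.X ^ 3 * h2
  · simp only [scB]
    linear_combination PowerSeries.X ^ 3 * h3
  · simp only [scB]
    linear_combination PowerSeries.X ^ 3 * h4

theorem scA_small (q : Prm F) : (scA q).Small := by
  constructor <;> simp [scA]

theorem scB_small (q : Prm F) : (scB q).Small := by
  constructor <;> simp [scB]

theorem coeff1_X (a : F) : PowerSeries.coeff 1 (PowerSeries.X * PowerSeries.C a) = a := by
  simp [PowerSeries.coeff_one_mul]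

theorem coeff1_X2 (a : F) : PowerSeries.coeff 1 (PowerSeries.X ^ 2 * PowerSeries.C a) = 0 := by
  simp [PowerSeries.coeff_one_mul, pow_two]

theorem scA_one (q : Prm F) : (scA q).one = ⟨q.z, q.a11, q.a12, q.a13, q.a21, q.a22, q.a23, q.a31,
    q.a32, q.a33, q.n1, q.n2, q.n3, 0, 0, 0, 0⟩ := by
  simp only [Prm.one, scA, coeff1_X, coeff1_X2]

theorem scB_one (q : Prm F) : (scB q).one = ⟨0, q.a11, q.a12, q.a13, q.a21, q.a22, q.a23, q.a31,
    q.a32, q.a33, q.n1, q.n2, q.n3, q.y, q.g1, q.g2, q.g3⟩ := by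
  simp only [Prm.one, scB, coeff1_X, coeff1_X2]

theorem scA_z (q : Prm F) (h : q.z ≠ 0) : (scA q).z ≠ 0 := by
  intro h1
  have h2 := congrArg (PowerSeries.coeff 1) h1
  rw [show (scA q).z = PowerSeries.X * PowerSeries.C q.z from rfl, coeff1_X, map_zero] at h2
  exact h h2

theorem scB_z (q : Prm F) (h : q.z ≠ 0) : (scB q).z ≠ 0 := by
  intro h1
  have h2 := congrArg (PowerSeries.coeff 2) h1
  rw [show (scB q).z = PowerSeries.X ^ 2 * PowerSeries.C q.z from rfl,
    PowerSeries.coeff_X_pow_mul', map_zero] at h2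
  simp at h2
  exact h h2

end Solve

section Spec

variable {k : Type*} [Field k] {F : Type u} [Field F] [Algebra k F] (h2 : (2 : F) = 0) (Y : ℕ → F)

theorem theta_sumL (θ : SD k →ₐ[k] F) (l : List ℕ) :
    θ (sumL (Xv k) l) = sumL (fun v => θ (Xv k v)) l := by
  induction l with
  | nil => rw [sumL_nil, sumL_nil, map_zero]
  | cons v l ih => rw [sumL_cons, sumL_cons, map_add, ih]

include h2

/-- The first limit. -/
theorem specA (hz : Y 25 ≠ 0) (hdet : Y 0 * Y 6 * Y 12 - Y 0 * Y 7 * Y 11 - Y 1 * Y 5 * Y 12 + Y 1 * Y 7 * Y 10 +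
      Y 2 * Y 5 * Y 11 - Y 2 * Y 6 * Y 10 ≠ 0) :
    ∃ θ : SD k →ₐ[k] F, HasFam (fun _ => 1) (chartD.ideal k) θ ∧
      ∀ i < 42, θ (iotaD k (Yv k i)) = if i ∈ phiL then 0 else Y i := by
  obtain ⟨r1, r2, r3, hr1, hr2, hr3⟩ := solve3 _ _ _ _ _ _ _ _ _ (Y 3) (Y 8) (Y 13) hdet
  obtain ⟨P15, P25, P35, hP15, hP25, hP35⟩ := solve3 _ _ _ _ _ _ _ _ _ (Y 26) (Y 29) (Y 32) hdet
  obtain ⟨P16, P26, P36, hP16, hP26, hP36⟩ := solve3 _ _ _ _ _ _ _ _ _ (Y 27) (Y 30) (Y 33) hdet
  obtain ⟨P17, P27, P37, hP17, hP27, hP37⟩ := solve3 _ _ _ _ _ _ _ _ _ (Y 28) (Y 31) (Y 34) hdet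
  obtain ⟨y, hy⟩ : ∃ y, Y 25 * y = Y 0 * Y 6 * Y 12 - Y 0 * Y 7 * Y 11 - Y 1 * Y 5 * Y 12 +
      Y 1 * Y 7 * Y 10 + Y 2 * Y 5 * Y 11 - Y 2 * Y 6 * Y 10 := ⟨_, mul_div_cancel₀ _ hz⟩
  obtain ⟨g1, hg1⟩ : ∃ g, Y 25 * g = Y 1 * Y 7 * Y 14 - Y 1 * Y 12 * Y 9 - Y 2 * Y 6 * Y 14 +
      Y 2 * Y 11 * Y 9 + Y 6 * Y 12 * Y 4 - Y 7 * Y 11 * Y 4 := ⟨_, mul_div_cancel₀ _ hz⟩
  obtain ⟨g2, hg2⟩ : ∃ g, Y 25 * g = -(Y 0 * Y 7 * Y 14) + Y 0 * Y 12 * Y 9 + Y 2 * Y 5 * Y 14 -
      Y 2 * Y 10 * Y 9 - Y 5 * Y 12 * Y 4 + Y 7 * Y 10 * Y 4 := ⟨_, mul_div_cancel₀ _ hz⟩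
  obtain ⟨g3, hg3⟩ : ∃ g, Y 25 * g = Y 0 * Y 6 * Y 14 - Y 0 * Y 11 * Y 9 - Y 1 * Y 5 * Y 14 +
      Y 1 * Y 10 * Y 9 + Y 5 * Y 11 * Y 4 - Y 6 * Y 10 * Y 4 := ⟨_, mul_div_cancel₀ _ hz⟩
  set q : Prm F := ⟨Y 25, Y 0, Y 1, Y 2, Y 5, Y 6, Y 7, Y 10, Y 11, Y 12, Y 4, Y 9, Y 14, y, g1, g2,
    g3⟩ with hq
  have hok : q.Ok := ⟨hy, hg1, hg2, hg3⟩
  obtain ⟨θ, hθ, hv⟩ := fam1 (k := k) h2 (scA q) (scA_small q) (scA_ok q hok) (scA_z q hz)
    ⟨r1, r2, r3, P15, P16, P17, P25, P26, P27, P35, P36, P37, Y 37, Y 36, Y 35, Y 38 + Y 0,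
      Y 39 + Y 6, Y 40 + Y 12, Y 41⟩
  rw [scA_one] at hv
  refine ⟨θ, hθ, ?_⟩
  have v1 : θ (Xv k 1) = Y 0 :=
    hv 0 (by decide) 1
  have v2 : θ (Xv k 2) = Y 1 :=
    hv 0 (by decide) 2
  have v3 : θ (Xv k 3) = Y 2 :=
    hv 0 (by decide) 3
  have v4 : θ (Xv k 4) = Y 0 * r1 + Y 1 * r2 + Y 2 * r3 + r1 * r1 * (0 : F) :=
    hv 0 (by decide) 4
  have v5 : θ (Xv k 5) = P15 * Y 0 + P25 * Y 1 + P35 * Y 2 + (0 : F) * r1 * r1 :=
    hv 0 (by decide) 5
  have v6 : θ (Xv k 6) = P16 * Y 0 + P26 * Y 1 + P36 * Y 2 + (0 : F) * r1 * r1 :=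
    hv 0 (by decide) 6
  have v7 : θ (Xv k 7) = P17 * Y 0 + P27 * Y 1 + P37 * Y 2 + (0 : F) * r1 * r1 :=
    hv 0 (by decide) 7
  have v9 : θ (Xv k 9) = Y 41 :=
    hv 1 (by decide) 1
  have v12 : θ (Xv k 12) = (Y 38 + Y 0) + r1 * (0 : F) :=
    hv 1 (by decide) 4
  have v13 : θ (Xv k 13) = Y 36 + (0 : F) * r1 :=
    hv 1 (by decide) 5
  have v14 : θ (Xv k 14) = Y 35 + (0 : F) * r1 :=
    hv 1 (by decide) 6
  have v15 : θ (Xv k 15) = Y 4 + (0 : F) * r1 :=
    hv 1 (by decide) 7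
  have v17 : θ (Xv k 17) = Y 5 :=
    hv 2 (by decide) 1
  have v18 : θ (Xv k 18) = Y 6 :=
    hv 2 (by decide) 2
  have v19 : θ (Xv k 19) = Y 7 :=
    hv 2 (by decide) 3
  have v20 : θ (Xv k 20) = Y 5 * r1 + Y 6 * r2 + Y 7 * r3 + r2 * r2 * (0 : F) :=
    hv 2 (by decide) 4
  have v21 : θ (Xv k 21) = P15 * Y 5 + P25 * Y 6 + P35 * Y 7 + (0 : F) * r2 * r2 :=
    hv 2 (by decide) 5
  have v22 : θ (Xv k 22) = P16 * Y 5 + P26 * Y 6 + P36 * Y 7 + (0 : F) * r2 * r2 :=
    hv 2 (by decide) 6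
  have v23 : θ (Xv k 23) = P17 * Y 5 + P27 * Y 6 + P37 * Y 7 + (0 : F) * r2 * r2 :=
    hv 2 (by decide) 7
  have v28 : θ (Xv k 28) = (Y 39 + Y 6) + r2 * (0 : F) :=
    hv 3 (by decide) 4
  have v29 : θ (Xv k 29) = Y 37 + (0 : F) * r2 :=
    hv 3 (by decide) 5
  have v30 : θ (Xv k 30) = Y 9 + (0 : F) * r2 :=
    hv 3 (by decide) 6
  have v31 : θ (Xv k 31) = Y 35 + (0 : F) * r2 :=
    hv 3 (by decide) 7
  have v33 : θ (Xv k 33) = Y 10 :=
    hv 4 (by decide) 1
  have v34 : θ (Xv k 34) = Y 11 :=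
    hv 4 (by decide) 2
  have v35 : θ (Xv k 35) = Y 12 :=
    hv 4 (by decide) 3
  have v36 : θ (Xv k 36) = Y 10 * r1 + Y 11 * r2 + Y 12 * r3 + r3 * r3 * (0 : F) :=
    hv 4 (by decide) 4
  have v37 : θ (Xv k 37) = P15 * Y 10 + P25 * Y 11 + P35 * Y 12 + (0 : F) * r3 * r3 :=
    hv 4 (by decide) 5
  have v38 : θ (Xv k 38) = P16 * Y 10 + P26 * Y 11 + P36 * Y 12 + (0 : F) * r3 * r3 :=
    hv 4 (by decide) 6
  have v39 : θ (Xv k 39) = P17 * Y 10 + P27 * Y 11 + P37 * Y 12 + (0 : F) * r3 * r3 :=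
    hv 4 (by decide) 7
  have v44 : θ (Xv k 44) = (Y 40 + Y 12) + r3 * (0 : F) :=
    hv 5 (by decide) 4
  have v45 : θ (Xv k 45) = Y 14 + (0 : F) * r3 :=
    hv 5 (by decide) 5
  have v46 : θ (Xv k 46) = Y 37 + (0 : F) * r3 :=
    hv 5 (by decide) 6
  have v47 : θ (Xv k 47) = Y 36 + (0 : F) * r3 :=
    hv 5 (by decide) 7
  have v52 : θ (Xv k 52) = (0 : F) :=
    hv 6 (by decide) 4
  have v53 : θ (Xv k 53) = (0 : F) :=
    hv 6 (by decide) 5
  have v54 : θ (Xv k 54) = (0 : F) :=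
    hv 6 (by decide) 6
  have v55 : θ (Xv k 55) = (0 : F) :=
    hv 6 (by decide) 7
  have v84 : θ (Xv k 84) = Y 25 :=
    hv 10 (by decide) 4
  have v85 : θ (Xv k 85) = Y 12 + (Y 40 + Y 12) :=
    hv 10 (by decide) 5
  have v86 : θ (Xv k 86) = Y 6 + (Y 39 + Y 6) :=
    hv 10 (by decide) 6
  have v87 : θ (Xv k 87) = Y 0 + (Y 38 + Y 0) :=
    hv 10 (by decide) 7
  have y0 : θ (iotaD k (Yv k 0)) = Y 0 := by
    rw [iota_Y (by norm_num)]
    change θ (sumL (Xv k) [12, 87]) = _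
    rw [theta_sumL]
    simp only [sumL_cons, sumL_nil, v12, v87]
    linear_combination (Y 0 + Y 38) * h2
  have y1 : θ (iotaD k (Yv k 1)) = Y 1 := by
    rw [iota_Y (by norm_num)]
    change θ (sumL (Xv k) [2]) = _
    rw [theta_sumL]
    simp only [sumL_cons, sumL_nil, v2]
    linear_combination 0
  have y2 : θ (iotaD k (Yv k 2)) = Y 2 := by
    rw [iota_Y (by norm_num)]
    change θ (sumL (Xv k) [3]) = _
    rw [theta_sumL]
    simp only [sumL_cons, sumL_nil, v3]
    linear_combination 0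
  have y3 : θ (iotaD k (Yv k 3)) = Y 3 := by
    rw [iota_Y (by norm_num)]
    change θ (sumL (Xv k) [4]) = _
    rw [theta_sumL]
    simp only [sumL_cons, sumL_nil, v4]
    linear_combination hr1
  have y4 : θ (iotaD k (Yv k 4)) = Y 4 := by
    rw [iota_Y (by norm_num)]
    change θ (sumL (Xv k) [15]) = _
    rw [theta_sumL]
    simp only [sumL_cons, sumL_nil, v15]
    linear_combination 0
  have y5 : θ (iotaD k (Yv k 5)) = Y 5 := by
    rw [iota_Y (by norm_num)]
    change θ (sumL (Xv k) [17]) = _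
    rw [theta_sumL]
    simp only [sumL_cons, sumL_nil, v17]
    linear_combination 0
  have y6 : θ (iotaD k (Yv k 6)) = Y 6 := by
    rw [iota_Y (by norm_num)]
    change θ (sumL (Xv k) [28, 86]) = _
    rw [theta_sumL]
    simp only [sumL_cons, sumL_nil, v28, v86]
    linear_combination (Y 39 + Y 6) * h2
  have y7 : θ (iotaD k (Yv k 7)) = Y 7 := by
    rw [iota_Y (by norm_num)]
    change θ (sumL (Xv k) [19]) = _
    rw [theta_sumL]
    simp only [sumL_cons, sumL_nil, v19]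
    linear_combination 0
  have y8 : θ (iotaD k (Yv k 8)) = Y 8 := by
    rw [iota_Y (by norm_num)]
    change θ (sumL (Xv k) [20]) = _
    rw [theta_sumL]
    simp only [sumL_cons, sumL_nil, v20]
    linear_combination hr2
  have y9 : θ (iotaD k (Yv k 9)) = Y 9 := by
    rw [iota_Y (by norm_num)]
    change θ (sumL (Xv k) [30]) = _
    rw [theta_sumL]
    simp only [sumL_cons, sumL_nil, v30]
    linear_combination 0
  have y10 : θ (iotaD k (Yv k 10)) = Y 10 := by
    rw [iota_Y (by norm_num)]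
    change θ (sumL (Xv k) [33]) = _
    rw [theta_sumL]
    simp only [sumL_cons, sumL_nil, v33]
    linear_combination 0
  have y11 : θ (iotaD k (Yv k 11)) = Y 11 := by
    rw [iota_Y (by norm_num)]
    change θ (sumL (Xv k) [34]) = _
    rw [theta_sumL]
    simp only [sumL_cons, sumL_nil, v34]
    linear_combination 0
  have y12 : θ (iotaD k (Yv k 12)) = Y 12 := by
    rw [iota_Y (by norm_num)]
    change θ (sumL (Xv k) [44, 85]) = _
    rw [theta_sumL]
    simp only [sumL_cons, sumL_nil, v44, v85]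
    linear_combination (Y 12 + Y 40) * h2
  have y13 : θ (iotaD k (Yv k 13)) = Y 13 := by
    rw [iota_Y (by norm_num)]
    change θ (sumL (Xv k) [36]) = _
    rw [theta_sumL]
    simp only [sumL_cons, sumL_nil, v36]
    linear_combination hr3
  have y14 : θ (iotaD k (Yv k 14)) = Y 14 := by
    rw [iota_Y (by norm_num)]
    change θ (sumL (Xv k) [45]) = _
    rw [theta_sumL]
    simp only [sumL_cons, sumL_nil, v45]
    linear_combination 0
  have y15 : θ (iotaD k (Yv k 15)) = 0 := by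
    rw [iota_Y (by norm_num)]
    change θ (sumL (Xv k) [14, 31]) = _
    rw [theta_sumL]
    simp only [sumL_cons, sumL_nil, v14, v31]
    linear_combination (Y 35) * h2
  have y16 : θ (iotaD k (Yv k 16)) = 0 := by
    rw [iota_Y (by norm_num)]
    change θ (sumL (Xv k) [13, 47]) = _
    rw [theta_sumL]
    simp only [sumL_cons, sumL_nil, v13, v47]
    linear_combination (Y 36) * h2
  have y17 : θ (iotaD k (Yv k 17)) = 0 := by
    rw [iota_Y (by norm_num)]
    change θ (sumL (Xv k) [55]) = _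
    rw [theta_sumL]
    simp only [sumL_cons, sumL_nil, v55]
    linear_combination 0
  have y18 : θ (iotaD k (Yv k 18)) = 0 := by
    rw [iota_Y (by norm_num)]
    change θ (sumL (Xv k) [1, 12, 87]) = _
    rw [theta_sumL]
    simp only [sumL_cons, sumL_nil, v1, v12, v87]
    linear_combination (2 * Y 0 + Y 38) * h2
  have y19 : θ (iotaD k (Yv k 19)) = 0 := by
    rw [iota_Y (by norm_num)]
    change θ (sumL (Xv k) [29, 46]) = _
    rw [theta_sumL]
    simp only [sumL_cons, sumL_nil, v29, v46]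
    linear_combination (Y 37) * h2
  have y20 : θ (iotaD k (Yv k 20)) = 0 := by
    rw [iota_Y (by norm_num)]
    change θ (sumL (Xv k) [54]) = _
    rw [theta_sumL]
    simp only [sumL_cons, sumL_nil, v54]
    linear_combination 0
  have y21 : θ (iotaD k (Yv k 21)) = 0 := by
    rw [iota_Y (by norm_num)]
    change θ (sumL (Xv k) [18, 28, 86]) = _
    rw [theta_sumL]
    simp only [sumL_cons, sumL_nil, v18, v28, v86]
    linear_combination (Y 39 + 2 * Y 6) * h2
  have y22 : θ (iotaD k (Yv k 22)) = 0 := by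
    rw [iota_Y (by norm_num)]
    change θ (sumL (Xv k) [53]) = _
    rw [theta_sumL]
    simp only [sumL_cons, sumL_nil, v53]
    linear_combination 0
  have y23 : θ (iotaD k (Yv k 23)) = 0 := by
    rw [iota_Y (by norm_num)]
    change θ (sumL (Xv k) [35, 44, 85]) = _
    rw [theta_sumL]
    simp only [sumL_cons, sumL_nil, v35, v44, v85]
    linear_combination (2 * Y 12 + Y 40) * h2
  have y24 : θ (iotaD k (Yv k 24)) = 0 := by
    rw [iota_Y (by norm_num)]
    change θ (sumL (Xv k) [52]) = _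
    rw [theta_sumL]
    simp only [sumL_cons, sumL_nil, v52]
    linear_combination 0
  have y25 : θ (iotaD k (Yv k 25)) = Y 25 := by
    rw [iota_Y (by norm_num)]
    change θ (sumL (Xv k) [84]) = _
    rw [theta_sumL]
    simp only [sumL_cons, sumL_nil, v84]
    linear_combination 0
  have y26 : θ (iotaD k (Yv k 26)) = Y 26 := by
    rw [iota_Y (by norm_num)]
    change θ (sumL (Xv k) [5]) = _
    rw [theta_sumL]
    simp only [sumL_cons, sumL_nil, v5]
    linear_combination hP15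
  have y27 : θ (iotaD k (Yv k 27)) = Y 27 := by
    rw [iota_Y (by norm_num)]
    change θ (sumL (Xv k) [6]) = _
    rw [theta_sumL]
    simp only [sumL_cons, sumL_nil, v6]
    linear_combination hP16
  have y28 : θ (iotaD k (Yv k 28)) = Y 28 := by
    rw [iota_Y (by norm_num)]
    change θ (sumL (Xv k) [7]) = _
    rw [theta_sumL]
    simp only [sumL_cons, sumL_nil, v7]
    linear_combination hP17
  have y29 : θ (iotaD k (Yv k 29)) = Y 29 := by
    rw [iota_Y (by norm_num)]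
    change θ (sumL (Xv k) [21]) = _
    rw [theta_sumL]
    simp only [sumL_cons, sumL_nil, v21]
    linear_combination hP25
  have y30 : θ (iotaD k (Yv k 30)) = Y 30 := by
    rw [iota_Y (by norm_num)]
    change θ (sumL (Xv k) [22]) = _
    rw [theta_sumL]
    simp only [sumL_cons, sumL_nil, v22]
    linear_combination hP26
  have y31 : θ (iotaD k (Yv k 31)) = Y 31 := by
    rw [iota_Y (by norm_num)]
    change θ (sumL (Xv k) [23]) = _
    rw [theta_sumL]
    simp only [sumL_cons, sumL_nil, v23]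
    linear_combination hP27
  have y32 : θ (iotaD k (Yv k 32)) = Y 32 := by
    rw [iota_Y (by norm_num)]
    change θ (sumL (Xv k) [37]) = _
    rw [theta_sumL]
    simp only [sumL_cons, sumL_nil, v37]
    linear_combination hP35
  have y33 : θ (iotaD k (Yv k 33)) = Y 33 := by
    rw [iota_Y (by norm_num)]
    change θ (sumL (Xv k) [38]) = _
    rw [theta_sumL]
    simp only [sumL_cons, sumL_nil, v38]
    linear_combination hP36
  have y34 : θ (iotaD k (Yv k 34)) = Y 34 := by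
    rw [iota_Y (by norm_num)]
    change θ (sumL (Xv k) [39]) = _
    rw [theta_sumL]
    simp only [sumL_cons, sumL_nil, v39]
    linear_combination hP37
  have y35 : θ (iotaD k (Yv k 35)) = Y 35 := by
    rw [iota_Y (by norm_num)]
    change θ (sumL (Xv k) [31]) = _
    rw [theta_sumL]
    simp only [sumL_cons, sumL_nil, v31]
    linear_combination 0
  have y36 : θ (iotaD k (Yv k 36)) = Y 36 := by
    rw [iota_Y (by norm_num)]
    change θ (sumL (Xv k) [47]) = _
    rw [theta_sumL]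
    simp only [sumL_cons, sumL_nil, v47]
    linear_combination 0
  have y37 : θ (iotaD k (Yv k 37)) = Y 37 := by
    rw [iota_Y (by norm_num)]
    change θ (sumL (Xv k) [46]) = _
    rw [theta_sumL]
    simp only [sumL_cons, sumL_nil, v46]
    linear_combination 0
  have y38 : θ (iotaD k (Yv k 38)) = Y 38 := by
    rw [iota_Y (by norm_num)]
    change θ (sumL (Xv k) [87]) = _
    rw [theta_sumL]
    simp only [sumL_cons, sumL_nil, v87]
    linear_combination (Y 0) * h2
  have y39 : θ (iotaD k (Yv k 39)) = Y 39 := by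
    rw [iota_Y (by norm_num)]
    change θ (sumL (Xv k) [86]) = _
    rw [theta_sumL]
    simp only [sumL_cons, sumL_nil, v86]
    linear_combination (Y 6) * h2
  have y40 : θ (iotaD k (Yv k 40)) = Y 40 := by
    rw [iota_Y (by norm_num)]
    change θ (sumL (Xv k) [85]) = _
    rw [theta_sumL]
    simp only [sumL_cons, sumL_nil, v85]
    linear_combination (Y 12) * h2
  have y41 : θ (iotaD k (Yv k 41)) = Y 41 := by
    rw [iota_Y (by norm_num)]
    change θ (sumL (Xv k) [9]) = _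
    rw [theta_sumL]
    simp only [sumL_cons, sumL_nil, v9]
    linear_combination 0
  intro i hi
  interval_cases i
  · rw [if_neg (by decide)]
    exact y0
  · rw [if_neg (by decide)]
    exact y1
  · rw [if_neg (by decide)]
    exact y2
  · rw [if_neg (by decide)]
    exact y3
  · rw [if_neg (by decide)]
    exact y4
  · rw [if_neg (by decide)]
    exact y5
  · rw [if_neg (by decide)]
    exact y6
  · rw [if_neg (by decide)]
    exact y7
  · rw [if_neg (by decide)]
    exact y8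
  · rw [if_neg (by decide)]
    exact y9
  · rw [if_neg (by decide)]
    exact y10
  · rw [if_neg (by decide)]
    exact y11
  · rw [if_neg (by decide)]
    exact y12
  · rw [if_neg (by decide)]
    exact y13
  · rw [if_neg (by decide)]
    exact y14
  · rw [if_pos (by decide)]
    exact y15
  · rw [if_pos (by decide)]
    exact y16
  · rw [if_pos (by decide)]
    exact y17
  · rw [if_pos (by decide)]
    exact y18
  · rw [if_pos (by decide)]
    exact y19
  · rw [if_pos (by decide)]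
    exact y20
  · rw [if_pos (by decide)]
    exact y21
  · rw [if_pos (by decide)]
    exact y22
  · rw [if_pos (by decide)]
    exact y23
  · rw [if_pos (by decide)]
    exact y24
  · rw [if_neg (by decide)]
    exact y25
  · rw [if_neg (by decide)]
    exact y26
  · rw [if_neg (by decide)]
    exact y27
  · rw [if_neg (by decide)]
    exact y28
  · rw [if_neg (by decide)]
    exact y29
  · rw [if_neg (by decide)]
    exact y30
  · rw [if_neg (by decide)]
    exact y31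
  · rw [if_neg (by decide)]
    exact y32
  · rw [if_neg (by decide)]
    exact y33
  · rw [if_neg (by decide)]
    exact y34
  · rw [if_neg (by decide)]
    exact y35
  · rw [if_neg (by decide)]
    exact y36
  · rw [if_neg (by decide)]
    exact y37
  · rw [if_neg (by decide)]
    exact y38
  · rw [if_neg (by decide)]
    exact y39
  · rw [if_neg (by decide)]
    exact y40
  · rw [if_neg (by decide)]
    exact y41

/-- The second limit. -/
theorem specB (hy0 : Y 24 ≠ 0)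
    (hdet : (Y 0 + Y 18) * (Y 6 + Y 21) * (Y 12 + Y 23) - (Y 0 + Y 18) * Y 7 * Y 11 -
      Y 1 * Y 5 * (Y 12 + Y 23) + Y 1 * Y 7 * Y 10 + Y 2 * Y 5 * Y 11 -
      Y 2 * (Y 6 + Y 21) * Y 10 ≠ 0) :
    ∃ θ : SD k →ₐ[k] F, HasFam (fun _ => 1) (chartD.ideal k) θ ∧
      θ (iotaD k (Yv k 25)) = 0 ∧ ∀ i ∈ keptB, θ (iotaD k (Yv k i)) = Y i := by
  obtain ⟨r1, hr1⟩ : ∃ r, Y 24 * r = Y 18 := ⟨_, mul_div_cancel₀ _ hy0⟩
  obtain ⟨r2, hr2⟩ : ∃ r, Y 24 * r = Y 21 := ⟨_, mul_div_cancel₀ _ hy0⟩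
  obtain ⟨r3, hr3⟩ : ∃ r, Y 24 * r = Y 23 := ⟨_, mul_div_cancel₀ _ hy0⟩
  obtain ⟨z, hzz⟩ : ∃ z, Y 24 * z = (Y 0 + Y 18) * (Y 6 + Y 21) * (Y 12 + Y 23) -
      (Y 0 + Y 18) * Y 7 * Y 11 - Y 1 * Y 5 * (Y 12 + Y 23) + Y 1 * Y 7 * Y 10 +
      Y 2 * Y 5 * Y 11 - Y 2 * (Y 6 + Y 21) * Y 10 := ⟨_, mul_div_cancel₀ _ hy0⟩
  obtain ⟨n1, hn1⟩ : ∃ n, Y 24 * n = (Y 0 + Y 18) * Y 17 + Y 1 * Y 20 + Y 2 * Y 22 :=
    ⟨_, mul_div_cancel₀ _ hy0⟩
  obtain ⟨n2, hn2⟩ : ∃ n, Y 24 * n = Y 5 * Y 17 + (Y 6 + Y 21) * Y 20 + Y 7 * Y 22 :=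
    ⟨_, mul_div_cancel₀ _ hy0⟩
  obtain ⟨n3, hn3⟩ : ∃ n, Y 24 * n = Y 10 * Y 17 + Y 11 * Y 20 + (Y 12 + Y 23) * Y 22 :=
    ⟨_, mul_div_cancel₀ _ hy0⟩
  have hz : z ≠ 0 := by
    rintro rfl
    rw [mul_zero] at hzz
    exact hdet hzz.symm
  obtain ⟨P15, P25, P35, hP15, hP25, hP35⟩ := solve3 _ _ _ _ _ _ _ _ _
    (Y 26 - Y 22 * r1 ^ 2) (Y 29 - Y 22 * r2 ^ 2) (Y 32 - Y 22 * r3 ^ 2) hdet
  obtain ⟨P16, P26, P36, hP16, hP26, hP36⟩ := solve3 _ _ _ _ _ _ _ _ _
    (Y 27 - Y 20 * r1 ^ 2) (Y 30 - Y 20 * r2 ^ 2) (Y 33 - Y 20 * r3 ^ 2) hdet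
  obtain ⟨P17, P27, P37, hP17, hP27, hP37⟩ := solve3 _ _ _ _ _ _ _ _ _
    (Y 28 - Y 17 * r1 ^ 2) (Y 31 - Y 17 * r2 ^ 2) (Y 34 - Y 17 * r3 ^ 2) hdet
  set q : Prm F := ⟨z, Y 0 + Y 18, Y 1, Y 2, Y 5, Y 6 + Y 21, Y 7, Y 10, Y 11, Y 12 + Y 23, n1, n2,
    n3, Y 24, Y 17, Y 20, Y 22⟩ with hq
  have hok : q.Ok := by
    constructor
    · change z * Y 24 = _
      rw [mul_comm]
      exact hzz
    · apply mul_left_cancel₀ hy0
      change Y 24 * (z * Y 17) = Y 24 * (Y 1 * Y 7 * n3 - Y 1 * (Y 12 + Y 23) * n2 -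
        Y 2 * (Y 6 + Y 21) * n3 + Y 2 * Y 11 * n2 + (Y 6 + Y 21) * (Y 12 + Y 23) * n1 -
        Y 7 * Y 11 * n1)
      linear_combination Y 17 * hzz - (Y 1 * Y 7 - Y 2 * (Y 6 + Y 21)) * hn3 -
        (Y 2 * Y 11 - Y 1 * (Y 12 + Y 23)) * hn2 -
        ((Y 6 + Y 21) * (Y 12 + Y 23) - Y 7 * Y 11) * hn1
    · apply mul_left_cancel₀ hy0
      change Y 24 * (z * Y 20) = Y 24 * (-((Y 0 + Y 18) * Y 7 * n3) +
        (Y 0 + Y 18) * (Y 12 + Y 23) * n2 + Y 2 * Y 5 * n3 - Y 2 * Y 10 * n2 -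
        Y 5 * (Y 12 + Y 23) * n1 + Y 7 * Y 10 * n1)
      linear_combination Y 20 * hzz - (-((Y 0 + Y 18) * Y 7) + Y 2 * Y 5) * hn3 -
        ((Y 0 + Y 18) * (Y 12 + Y 23) - Y 2 * Y 10) * hn2 -
        (-(Y 5 * (Y 12 + Y 23)) + Y 7 * Y 10) * hn1
    · apply mul_left_cancel₀ hy0
      change Y 24 * (z * Y 22) = Y 24 * ((Y 0 + Y 18) * (Y 6 + Y 21) * n3 -
        (Y 0 + Y 18) * Y 11 * n2 - Y 1 * Y 5 * n3 + Y 1 * Y 10 * n2 + Y 5 * Y 11 * n1 -
        (Y 6 + Y 21) * Y 10 * n1)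
      linear_combination Y 22 * hzz - ((Y 0 + Y 18) * (Y 6 + Y 21) - Y 1 * Y 5) * hn3 -
        (Y 1 * Y 10 - (Y 0 + Y 18) * Y 11) * hn2 - (Y 5 * Y 11 - (Y 6 + Y 21) * Y 10) * hn1
  obtain ⟨θ, hθ, hv⟩ := fam1 (k := k) h2 (scB q) (scB_small q) (scB_ok q hok) (scB_z q hz)
    ⟨r1, r2, r3, P15, P16, P17, P25, P26, P27, P35, P36, P37, Y 37 + r3 * Y 20, Y 36 + r3 * Y 17,
      Y 35 + r2 * Y 17, Y 38 + (Y 0 + Y 18), Y 39 + (Y 6 + Y 21), Y 40 + (Y 12 + Y 23), Y 41⟩
  rw [scB_one] at hv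
  refine ⟨θ, hθ, ?_⟩
  have v1 : θ (Xv k 1) = (Y 0 + Y 18) :=
    hv 0 (by decide) 1
  have v2 : θ (Xv k 2) = Y 1 :=
    hv 0 (by decide) 2
  have v3 : θ (Xv k 3) = Y 2 :=
    hv 0 (by decide) 3
  have v4 : θ (Xv k 4) = (Y 0 + Y 18) * r1 + Y 1 * r2 + Y 2 * r3 + r1 * r1 * Y 24 :=
    hv 0 (by decide) 4
  have v5 : θ (Xv k 5) = P15 * (Y 0 + Y 18) + P25 * Y 1 + P35 * Y 2 + Y 22 * r1 * r1 :=
    hv 0 (by decide) 5
  have v6 : θ (Xv k 6) = P16 * (Y 0 + Y 18) + P26 * Y 1 + P36 * Y 2 + Y 20 * r1 * r1 :=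
    hv 0 (by decide) 6
  have v7 : θ (Xv k 7) = P17 * (Y 0 + Y 18) + P27 * Y 1 + P37 * Y 2 + Y 17 * r1 * r1 :=
    hv 0 (by decide) 7
  have v9 : θ (Xv k 9) = Y 41 :=
    hv 1 (by decide) 1
  have v12 : θ (Xv k 12) = (Y 38 + (Y 0 + Y 18)) + r1 * Y 24 :=
    hv 1 (by decide) 4
  have v13 : θ (Xv k 13) = (Y 36 + r3 * Y 17) + Y 22 * r1 :=
    hv 1 (by decide) 5
  have v14 : θ (Xv k 14) = (Y 35 + r2 * Y 17) + Y 20 * r1 :=
    hv 1 (by decide) 6
  have v15 : θ (Xv k 15) = n1 + Y 17 * r1 :=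
    hv 1 (by decide) 7
  have v17 : θ (Xv k 17) = Y 5 :=
    hv 2 (by decide) 1
  have v18 : θ (Xv k 18) = (Y 6 + Y 21) :=
    hv 2 (by decide) 2
  have v19 : θ (Xv k 19) = Y 7 :=
    hv 2 (by decide) 3
  have v20 : θ (Xv k 20) = Y 5 * r1 + (Y 6 + Y 21) * r2 + Y 7 * r3 + r2 * r2 * Y 24 :=
    hv 2 (by decide) 4
  have v21 : θ (Xv k 21) = P15 * Y 5 + P25 * (Y 6 + Y 21) + P35 * Y 7 + Y 22 * r2 * r2 :=
    hv 2 (by decide) 5
  have v22 : θ (Xv k 22) = P16 * Y 5 + P26 * (Y 6 + Y 21) + P36 * Y 7 + Y 20 * r2 * r2 :=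
    hv 2 (by decide) 6
  have v23 : θ (Xv k 23) = P17 * Y 5 + P27 * (Y 6 + Y 21) + P37 * Y 7 + Y 17 * r2 * r2 :=
    hv 2 (by decide) 7
  have v28 : θ (Xv k 28) = (Y 39 + (Y 6 + Y 21)) + r2 * Y 24 :=
    hv 3 (by decide) 4
  have v29 : θ (Xv k 29) = (Y 37 + r3 * Y 20) + Y 22 * r2 :=
    hv 3 (by decide) 5
  have v30 : θ (Xv k 30) = n2 + Y 20 * r2 :=
    hv 3 (by decide) 6
  have v31 : θ (Xv k 31) = (Y 35 + r2 * Y 17) + Y 17 * r2 :=
    hv 3 (by decide) 7
  have v33 : θ (Xv k 33) = Y 10 :=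
    hv 4 (by decide) 1
  have v34 : θ (Xv k 34) = Y 11 :=
    hv 4 (by decide) 2
  have v35 : θ (Xv k 35) = (Y 12 + Y 23) :=
    hv 4 (by decide) 3
  have v36 : θ (Xv k 36) = Y 10 * r1 + Y 11 * r2 + (Y 12 + Y 23) * r3 + r3 * r3 * Y 24 :=
    hv 4 (by decide) 4
  have v37 : θ (Xv k 37) = P15 * Y 10 + P25 * Y 11 + P35 * (Y 12 + Y 23) + Y 22 * r3 * r3 :=
    hv 4 (by decide) 5
  have v38 : θ (Xv k 38) = P16 * Y 10 + P26 * Y 11 + P36 * (Y 12 + Y 23) + Y 20 * r3 * r3 :=
    hv 4 (by decide) 6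
  have v39 : θ (Xv k 39) = P17 * Y 10 + P27 * Y 11 + P37 * (Y 12 + Y 23) + Y 17 * r3 * r3 :=
    hv 4 (by decide) 7
  have v44 : θ (Xv k 44) = (Y 40 + (Y 12 + Y 23)) + r3 * Y 24 :=
    hv 5 (by decide) 4
  have v45 : θ (Xv k 45) = n3 + Y 22 * r3 :=
    hv 5 (by decide) 5
  have v46 : θ (Xv k 46) = (Y 37 + r3 * Y 20) + Y 20 * r3 :=
    hv 5 (by decide) 6
  have v47 : θ (Xv k 47) = (Y 36 + r3 * Y 17) + Y 17 * r3 :=
    hv 5 (by decide) 7
  have v52 : θ (Xv k 52) = Y 24 :=
    hv 6 (by decide) 4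
  have v53 : θ (Xv k 53) = Y 22 :=
    hv 6 (by decide) 5
  have v54 : θ (Xv k 54) = Y 20 :=
    hv 6 (by decide) 6
  have v55 : θ (Xv k 55) = Y 17 :=
    hv 6 (by decide) 7
  have v84 : θ (Xv k 84) = (0 : F) :=
    hv 10 (by decide) 4
  have v85 : θ (Xv k 85) = (Y 12 + Y 23) + (Y 40 + (Y 12 + Y 23)) :=
    hv 10 (by decide) 5
  have v86 : θ (Xv k 86) = (Y 6 + Y 21) + (Y 39 + (Y 6 + Y 21)) :=
    hv 10 (by decide) 6
  have v87 : θ (Xv k 87) = (Y 0 + Y 18) + (Y 38 + (Y 0 + Y 18)) :=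
    hv 10 (by decide) 7
  have y0 : θ (iotaD k (Yv k 0)) = Y 0 := by
    rw [iota_Y (by norm_num)]
    change θ (sumL (Xv k) [12, 87]) = _
    rw [theta_sumL]
    simp only [sumL_cons, sumL_nil, v12, v87]
    linear_combination hr1 + (Y 0 + 2 * Y 18 + Y 38) * h2
  have y1 : θ (iotaD k (Yv k 1)) = Y 1 := by
    rw [iota_Y (by norm_num)]
    change θ (sumL (Xv k) [2]) = _
    rw [theta_sumL]
    simp only [sumL_cons, sumL_nil, v2]
    linear_combination 0
  have y2 : θ (iotaD k (Yv k 2)) = Y 2 := by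
    rw [iota_Y (by norm_num)]
    change θ (sumL (Xv k) [3]) = _
    rw [theta_sumL]
    simp only [sumL_cons, sumL_nil, v3]
    linear_combination 0
  have y5 : θ (iotaD k (Yv k 5)) = Y 5 := by
    rw [iota_Y (by norm_num)]
    change θ (sumL (Xv k) [17]) = _
    rw [theta_sumL]
    simp only [sumL_cons, sumL_nil, v17]
    linear_combination 0
  have y6 : θ (iotaD k (Yv k 6)) = Y 6 := by
    rw [iota_Y (by norm_num)]
    change θ (sumL (Xv k) [28, 86]) = _
    rw [theta_sumL]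
    simp only [sumL_cons, sumL_nil, v28, v86]
    linear_combination hr2 + (2 * Y 21 + Y 39 + Y 6) * h2
  have y7 : θ (iotaD k (Yv k 7)) = Y 7 := by
    rw [iota_Y (by norm_num)]
    change θ (sumL (Xv k) [19]) = _
    rw [theta_sumL]
    simp only [sumL_cons, sumL_nil, v19]
    linear_combination 0
  have y10 : θ (iotaD k (Yv k 10)) = Y 10 := by
    rw [iota_Y (by norm_num)]
    change θ (sumL (Xv k) [33]) = _
    rw [theta_sumL]
    simp only [sumL_cons, sumL_nil, v33]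
    linear_combination 0
  have y11 : θ (iotaD k (Yv k 11)) = Y 11 := by
    rw [iota_Y (by norm_num)]
    change θ (sumL (Xv k) [34]) = _
    rw [theta_sumL]
    simp only [sumL_cons, sumL_nil, v34]
    linear_combination 0
  have y12 : θ (iotaD k (Yv k 12)) = Y 12 := by
    rw [iota_Y (by norm_num)]
    change θ (sumL (Xv k) [44, 85]) = _
    rw [theta_sumL]
    simp only [sumL_cons, sumL_nil, v44, v85]
    linear_combination hr3 + (Y 12 + 2 * Y 23 + Y 40) * h2
  have y17 : θ (iotaD k (Yv k 17)) = Y 17 := by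
    rw [iota_Y (by norm_num)]
    change θ (sumL (Xv k) [55]) = _
    rw [theta_sumL]
    simp only [sumL_cons, sumL_nil, v55]
    linear_combination 0
  have y18 : θ (iotaD k (Yv k 18)) = Y 18 := by
    rw [iota_Y (by norm_num)]
    change θ (sumL (Xv k) [1, 12, 87]) = _
    rw [theta_sumL]
    simp only [sumL_cons, sumL_nil, v1, v12, v87]
    linear_combination hr1 + (2 * Y 0 + 2 * Y 18 + Y 38) * h2
  have y20 : θ (iotaD k (Yv k 20)) = Y 20 := by
    rw [iota_Y (by norm_num)]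
    change θ (sumL (Xv k) [54]) = _
    rw [theta_sumL]
    simp only [sumL_cons, sumL_nil, v54]
    linear_combination 0
  have y21 : θ (iotaD k (Yv k 21)) = Y 21 := by
    rw [iota_Y (by norm_num)]
    change θ (sumL (Xv k) [18, 28, 86]) = _
    rw [theta_sumL]
    simp only [sumL_cons, sumL_nil, v18, v28, v86]
    linear_combination hr2 + (2 * Y 21 + Y 39 + 2 * Y 6) * h2
  have y22 : θ (iotaD k (Yv k 22)) = Y 22 := by
    rw [iota_Y (by norm_num)]
    change θ (sumL (Xv k) [53]) = _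
    rw [theta_sumL]
    simp only [sumL_cons, sumL_nil, v53]
    linear_combination 0
  have y23 : θ (iotaD k (Yv k 23)) = Y 23 := by
    rw [iota_Y (by norm_num)]
    change θ (sumL (Xv k) [35, 44, 85]) = _
    rw [theta_sumL]
    simp only [sumL_cons, sumL_nil, v35, v44, v85]
    linear_combination hr3 + (2 * Y 12 + 2 * Y 23 + Y 40) * h2
  have y24 : θ (iotaD k (Yv k 24)) = Y 24 := by
    rw [iota_Y (by norm_num)]
    change θ (sumL (Xv k) [52]) = _
    rw [theta_sumL]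
    simp only [sumL_cons, sumL_nil, v52]
    linear_combination 0
  have y26 : θ (iotaD k (Yv k 26)) = Y 26 := by
    rw [iota_Y (by norm_num)]
    change θ (sumL (Xv k) [5]) = _
    rw [theta_sumL]
    simp only [sumL_cons, sumL_nil, v5]
    linear_combination hP15
  have y27 : θ (iotaD k (Yv k 27)) = Y 27 := by
    rw [iota_Y (by norm_num)]
    change θ (sumL (Xv k) [6]) = _
    rw [theta_sumL]
    simp only [sumL_cons, sumL_nil, v6]
    linear_combination hP16
  have y28 : θ (iotaD k (Yv k 28)) = Y 28 := by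
    rw [iota_Y (by norm_num)]
    change θ (sumL (Xv k) [7]) = _
    rw [theta_sumL]
    simp only [sumL_cons, sumL_nil, v7]
    linear_combination hP17
  have y29 : θ (iotaD k (Yv k 29)) = Y 29 := by
    rw [iota_Y (by norm_num)]
    change θ (sumL (Xv k) [21]) = _
    rw [theta_sumL]
    simp only [sumL_cons, sumL_nil, v21]
    linear_combination hP25
  have y30 : θ (iotaD k (Yv k 30)) = Y 30 := by
    rw [iota_Y (by norm_num)]
    change θ (sumL (Xv k) [22]) = _
    rw [theta_sumL]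
    simp only [sumL_cons, sumL_nil, v22]
    linear_combination hP26
  have y31 : θ (iotaD k (Yv k 31)) = Y 31 := by
    rw [iota_Y (by norm_num)]
    change θ (sumL (Xv k) [23]) = _
    rw [theta_sumL]
    simp only [sumL_cons, sumL_nil, v23]
    linear_combination hP27
  have y32 : θ (iotaD k (Yv k 32)) = Y 32 := by
    rw [iota_Y (by norm_num)]
    change θ (sumL (Xv k) [37]) = _
    rw [theta_sumL]
    simp only [sumL_cons, sumL_nil, v37]
    linear_combination hP35
  have y33 : θ (iotaD k (Yv k 33)) = Y 33 := by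
    rw [iota_Y (by norm_num)]
    change θ (sumL (Xv k) [38]) = _
    rw [theta_sumL]
    simp only [sumL_cons, sumL_nil, v38]
    linear_combination hP36
  have y34 : θ (iotaD k (Yv k 34)) = Y 34 := by
    rw [iota_Y (by norm_num)]
    change θ (sumL (Xv k) [39]) = _
    rw [theta_sumL]
    simp only [sumL_cons, sumL_nil, v39]
    linear_combination hP37
  have y35 : θ (iotaD k (Yv k 35)) = Y 35 := by
    rw [iota_Y (by norm_num)]
    change θ (sumL (Xv k) [31]) = _
    rw [theta_sumL]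
    simp only [sumL_cons, sumL_nil, v31]
    linear_combination (Y 17 * r2) * h2
  have y36 : θ (iotaD k (Yv k 36)) = Y 36 := by
    rw [iota_Y (by norm_num)]
    change θ (sumL (Xv k) [47]) = _
    rw [theta_sumL]
    simp only [sumL_cons, sumL_nil, v47]
    linear_combination (Y 17 * r3) * h2
  have y37 : θ (iotaD k (Yv k 37)) = Y 37 := by
    rw [iota_Y (by norm_num)]
    change θ (sumL (Xv k) [46]) = _
    rw [theta_sumL]
    simp only [sumL_cons, sumL_nil, v46]
    linear_combination (Y 20 * r3) * h2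
  have y38 : θ (iotaD k (Yv k 38)) = Y 38 := by
    rw [iota_Y (by norm_num)]
    change θ (sumL (Xv k) [87]) = _
    rw [theta_sumL]
    simp only [sumL_cons, sumL_nil, v87]
    linear_combination (Y 0 + Y 18) * h2
  have y39 : θ (iotaD k (Yv k 39)) = Y 39 := by
    rw [iota_Y (by norm_num)]
    change θ (sumL (Xv k) [86]) = _
    rw [theta_sumL]
    simp only [sumL_cons, sumL_nil, v86]
    linear_combination (Y 21 + Y 6) * h2
  have y40 : θ (iotaD k (Yv k 40)) = Y 40 := by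
    rw [iota_Y (by norm_num)]
    change θ (sumL (Xv k) [85]) = _
    rw [theta_sumL]
    simp only [sumL_cons, sumL_nil, v85]
    linear_combination (Y 12 + Y 23) * h2
  have y41 : θ (iotaD k (Yv k 41)) = Y 41 := by
    rw [iota_Y (by norm_num)]
    change θ (sumL (Xv k) [9]) = _
    rw [theta_sumL]
    simp only [sumL_cons, sumL_nil, v9]
    linear_combination 0
  have y25 : θ (iotaD k (Yv k 25)) = 0 := by
    rw [iota_Y (by norm_num)]
    change θ (sumL (Xv k) [84]) = _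
    rw [theta_sumL]
    simp only [sumL_cons, sumL_nil, v84]
    linear_combination 0
  refine ⟨y25, ?_⟩
  intro i hi
  have hi2 : i = 0 ∨ i = 1 ∨ i = 2 ∨ i = 5 ∨ i = 6 ∨ i = 7 ∨ i = 10 ∨ i = 11 ∨ i = 12 ∨ i = 17 ∨ i = 18 ∨ i = 20 ∨ i = 21 ∨ i = 22 ∨ i = 23 ∨ i = 24 ∨ i = 26 ∨ i = 27 ∨ i = 28 ∨ i = 29 ∨ i = 30 ∨ i = 31 ∨ i = 32 ∨ i = 33 ∨ i = 34 ∨ i = 35 ∨ i = 36 ∨ i = 37 ∨ i = 38 ∨ i = 39 ∨ i = 40 ∨ i = 41 := by
    simpa [keptB] using hi
  rcases hi2 with rfl | rfl | rfl | rfl | rfl | rfl | rfl | rfl | rfl | rfl | rfl | rfl | rfl | rfl | rfl | rfl | rfl | rfl | rfl | rfl | rfl | rfl | rfl | rfl | rfl | rfl | rfl | rfl | rfl | rfl | rfl | rfl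
  · exact y0
  · exact y1
  · exact y2
  · exact y5
  · exact y6
  · exact y7
  · exact y10
  · exact y11
  · exact y12
  · exact y17
  · exact y18
  · exact y20
  · exact y21
  · exact y22
  · exact y23
  · exact y24
  · exact y26
  · exact y27
  · exact y28
  · exact y29
  · exact y30
  · exact y31
  · exact y32
  · exact y33
  · exact y34
  · exact y35
  · exact y36
  · exact y37
  · exact y38
  · exact y39
  · exact y40
  · exact y41

/-- The third limit. -/
theorem spec2 : ∃ θ : SD k →ₐ[k] F, HasFam (fun _ => 1) (chartD.ideal k) θ ∧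
      ∀ i < 42, θ (iotaD k (Yv k i)) = if i ∈ I2L then 0 else Y i := by
  obtain ⟨θ, hθ, hv⟩ := fam2 (k := k) h2
    ⟨Y 26, Y 27, Y 28, Y 29, Y 30, Y 31, Y 32, Y 33, Y 34, Y 16 + Y 36, Y 15 + Y 35, Y 4, Y 19 + Y
      37, Y 9, Y 35, Y 14, Y 37, Y 36, Y 22, Y 20, Y 17, Y 38, Y 39, Y 40, Y 41⟩
  refine ⟨θ, hθ, ?_⟩
  have v1 : θ (Xv k 1) = 0 :=
    hv 0 (by decide) 1
  have v2 : θ (Xv k 2) = 0 :=
    hv 0 (by decide) 2
  have v3 : θ (Xv k 3) = 0 :=
    hv 0 (by decide) 3
  have v4 : θ (Xv k 4) = 0 :=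
    hv 0 (by decide) 4
  have v5 : θ (Xv k 5) = Y 26 :=
    hv 0 (by decide) 5
  have v6 : θ (Xv k 6) = Y 27 :=
    hv 0 (by decide) 6
  have v7 : θ (Xv k 7) = Y 28 :=
    hv 0 (by decide) 7
  have v9 : θ (Xv k 9) = Y 41 :=
    hv 1 (by decide) 1
  have v12 : θ (Xv k 12) = Y 38 :=
    hv 1 (by decide) 4
  have v13 : θ (Xv k 13) = (Y 16 + Y 36) :=
    hv 1 (by decide) 5
  have v14 : θ (Xv k 14) = (Y 15 + Y 35) :=
    hv 1 (by decide) 6
  have v15 : θ (Xv k 15) = Y 4 :=
    hv 1 (by decide) 7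
  have v17 : θ (Xv k 17) = 0 :=
    hv 2 (by decide) 1
  have v18 : θ (Xv k 18) = 0 :=
    hv 2 (by decide) 2
  have v19 : θ (Xv k 19) = 0 :=
    hv 2 (by decide) 3
  have v20 : θ (Xv k 20) = 0 :=
    hv 2 (by decide) 4
  have v21 : θ (Xv k 21) = Y 29 :=
    hv 2 (by decide) 5
  have v22 : θ (Xv k 22) = Y 30 :=
    hv 2 (by decide) 6
  have v23 : θ (Xv k 23) = Y 31 :=
    hv 2 (by decide) 7
  have v28 : θ (Xv k 28) = Y 39 :=
    hv 3 (by decide) 4
  have v29 : θ (Xv k 29) = (Y 19 + Y 37) :=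
    hv 3 (by decide) 5
  have v30 : θ (Xv k 30) = Y 9 :=
    hv 3 (by decide) 6
  have v31 : θ (Xv k 31) = Y 35 :=
    hv 3 (by decide) 7
  have v33 : θ (Xv k 33) = 0 :=
    hv 4 (by decide) 1
  have v34 : θ (Xv k 34) = 0 :=
    hv 4 (by decide) 2
  have v35 : θ (Xv k 35) = 0 :=
    hv 4 (by decide) 3
  have v36 : θ (Xv k 36) = 0 :=
    hv 4 (by decide) 4
  have v37 : θ (Xv k 37) = Y 32 :=
    hv 4 (by decide) 5
  have v38 : θ (Xv k 38) = Y 33 :=
    hv 4 (by decide) 6
  have v39 : θ (Xv k 39) = Y 34 :=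
    hv 4 (by decide) 7
  have v44 : θ (Xv k 44) = Y 40 :=
    hv 5 (by decide) 4
  have v45 : θ (Xv k 45) = Y 14 :=
    hv 5 (by decide) 5
  have v46 : θ (Xv k 46) = Y 37 :=
    hv 5 (by decide) 6
  have v47 : θ (Xv k 47) = Y 36 :=
    hv 5 (by decide) 7
  have v52 : θ (Xv k 52) = 0 :=
    hv 6 (by decide) 4
  have v53 : θ (Xv k 53) = Y 22 :=
    hv 6 (by decide) 5
  have v54 : θ (Xv k 54) = Y 20 :=
    hv 6 (by decide) 6
  have v55 : θ (Xv k 55) = Y 17 :=
    hv 6 (by decide) 7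
  have v84 : θ (Xv k 84) = 0 :=
    hv 10 (by decide) 4
  have v85 : θ (Xv k 85) = Y 40 :=
    hv 10 (by decide) 5
  have v86 : θ (Xv k 86) = Y 39 :=
    hv 10 (by decide) 6
  have v87 : θ (Xv k 87) = Y 38 :=
    hv 10 (by decide) 7
  have y0 : θ (iotaD k (Yv k 0)) = 0 := by
    rw [iota_Y (by norm_num)]
    change θ (sumL (Xv k) [12, 87]) = _
    rw [theta_sumL]
    simp only [sumL_cons, sumL_nil, v12, v87]
    linear_combination (Y 38) * h2
  have y1 : θ (iotaD k (Yv k 1)) = 0 := by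
    rw [iota_Y (by norm_num)]
    change θ (sumL (Xv k) [2]) = _
    rw [theta_sumL]
    simp only [sumL_cons, sumL_nil, v2]
    linear_combination 0
  have y2 : θ (iotaD k (Yv k 2)) = 0 := by
    rw [iota_Y (by norm_num)]
    change θ (sumL (Xv k) [3]) = _
    rw [theta_sumL]
    simp only [sumL_cons, sumL_nil, v3]
    linear_combination 0
  have y3 : θ (iotaD k (Yv k 3)) = 0 := by
    rw [iota_Y (by norm_num)]
    change θ (sumL (Xv k) [4]) = _
    rw [theta_sumL]
    simp only [sumL_cons, sumL_nil, v4]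
    linear_combination 0
  have y4 : θ (iotaD k (Yv k 4)) = Y 4 := by
    rw [iota_Y (by norm_num)]
    change θ (sumL (Xv k) [15]) = _
    rw [theta_sumL]
    simp only [sumL_cons, sumL_nil, v15]
    linear_combination 0
  have y5 : θ (iotaD k (Yv k 5)) = 0 := by
    rw [iota_Y (by norm_num)]
    change θ (sumL (Xv k) [17]) = _
    rw [theta_sumL]
    simp only [sumL_cons, sumL_nil, v17]
    linear_combination 0
  have y6 : θ (iotaD k (Yv k 6)) = 0 := by
    rw [iota_Y (by norm_num)]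
    change θ (sumL (Xv k) [28, 86]) = _
    rw [theta_sumL]
    simp only [sumL_cons, sumL_nil, v28, v86]
    linear_combination (Y 39) * h2
  have y7 : θ (iotaD k (Yv k 7)) = 0 := by
    rw [iota_Y (by norm_num)]
    change θ (sumL (Xv k) [19]) = _
    rw [theta_sumL]
    simp only [sumL_cons, sumL_nil, v19]
    linear_combination 0
  have y8 : θ (iotaD k (Yv k 8)) = 0 := by
    rw [iota_Y (by norm_num)]
    change θ (sumL (Xv k) [20]) = _
    rw [theta_sumL]
    simp only [sumL_cons, sumL_nil, v20]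
    linear_combination 0
  have y9 : θ (iotaD k (Yv k 9)) = Y 9 := by
    rw [iota_Y (by norm_num)]
    change θ (sumL (Xv k) [30]) = _
    rw [theta_sumL]
    simp only [sumL_cons, sumL_nil, v30]
    linear_combination 0
  have y10 : θ (iotaD k (Yv k 10)) = 0 := by
    rw [iota_Y (by norm_num)]
    change θ (sumL (Xv k) [33]) = _
    rw [theta_sumL]
    simp only [sumL_cons, sumL_nil, v33]
    linear_combination 0
  have y11 : θ (iotaD k (Yv k 11)) = 0 := by
    rw [iota_Y (by norm_num)]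
    change θ (sumL (Xv k) [34]) = _
    rw [theta_sumL]
    simp only [sumL_cons, sumL_nil, v34]
    linear_combination 0
  have y12 : θ (iotaD k (Yv k 12)) = 0 := by
    rw [iota_Y (by norm_num)]
    change θ (sumL (Xv k) [44, 85]) = _
    rw [theta_sumL]
    simp only [sumL_cons, sumL_nil, v44, v85]
    linear_combination (Y 40) * h2
  have y13 : θ (iotaD k (Yv k 13)) = 0 := by
    rw [iota_Y (by norm_num)]
    change θ (sumL (Xv k) [36]) = _
    rw [theta_sumL]
    simp only [sumL_cons, sumL_nil, v36]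
    linear_combination 0
  have y14 : θ (iotaD k (Yv k 14)) = Y 14 := by
    rw [iota_Y (by norm_num)]
    change θ (sumL (Xv k) [45]) = _
    rw [theta_sumL]
    simp only [sumL_cons, sumL_nil, v45]
    linear_combination 0
  have y15 : θ (iotaD k (Yv k 15)) = Y 15 := by
    rw [iota_Y (by norm_num)]
    change θ (sumL (Xv k) [14, 31]) = _
    rw [theta_sumL]
    simp only [sumL_cons, sumL_nil, v14, v31]
    linear_combination (Y 35) * h2
  have y16 : θ (iotaD k (Yv k 16)) = Y 16 := by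
    rw [iota_Y (by norm_num)]
    change θ (sumL (Xv k) [13, 47]) = _
    rw [theta_sumL]
    simp only [sumL_cons, sumL_nil, v13, v47]
    linear_combination (Y 36) * h2
  have y17 : θ (iotaD k (Yv k 17)) = Y 17 := by
    rw [iota_Y (by norm_num)]
    change θ (sumL (Xv k) [55]) = _
    rw [theta_sumL]
    simp only [sumL_cons, sumL_nil, v55]
    linear_combination 0
  have y18 : θ (iotaD k (Yv k 18)) = 0 := by
    rw [iota_Y (by norm_num)]
    change θ (sumL (Xv k) [1, 12, 87]) = _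
    rw [theta_sumL]
    simp only [sumL_cons, sumL_nil, v1, v12, v87]
    linear_combination (Y 38) * h2
  have y19 : θ (iotaD k (Yv k 19)) = Y 19 := by
    rw [iota_Y (by norm_num)]
    change θ (sumL (Xv k) [29, 46]) = _
    rw [theta_sumL]
    simp only [sumL_cons, sumL_nil, v29, v46]
    linear_combination (Y 37) * h2
  have y20 : θ (iotaD k (Yv k 20)) = Y 20 := by
    rw [iota_Y (by norm_num)]
    change θ (sumL (Xv k) [54]) = _
    rw [theta_sumL]
    simp only [sumL_cons, sumL_nil, v54]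
    linear_combination 0
  have y21 : θ (iotaD k (Yv k 21)) = 0 := by
    rw [iota_Y (by norm_num)]
    change θ (sumL (Xv k) [18, 28, 86]) = _
    rw [theta_sumL]
    simp only [sumL_cons, sumL_nil, v18, v28, v86]
    linear_combination (Y 39) * h2
  have y22 : θ (iotaD k (Yv k 22)) = Y 22 := by
    rw [iota_Y (by norm_num)]
    change θ (sumL (Xv k) [53]) = _
    rw [theta_sumL]
    simp only [sumL_cons, sumL_nil, v53]
    linear_combination 0
  have y23 : θ (iotaD k (Yv k 23)) = 0 := by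
    rw [iota_Y (by norm_num)]
    change θ (sumL (Xv k) [35, 44, 85]) = _
    rw [theta_sumL]
    simp only [sumL_cons, sumL_nil, v35, v44, v85]
    linear_combination (Y 40) * h2
  have y24 : θ (iotaD k (Yv k 24)) = 0 := by
    rw [iota_Y (by norm_num)]
    change θ (sumL (Xv k) [52]) = _
    rw [theta_sumL]
    simp only [sumL_cons, sumL_nil, v52]
    linear_combination 0
  have y25 : θ (iotaD k (Yv k 25)) = 0 := by
    rw [iota_Y (by norm_num)]
    change θ (sumL (Xv k) [84]) = _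
    rw [theta_sumL]
    simp only [sumL_cons, sumL_nil, v84]
    linear_combination 0
  have y26 : θ (iotaD k (Yv k 26)) = Y 26 := by
    rw [iota_Y (by norm_num)]
    change θ (sumL (Xv k) [5]) = _
    rw [theta_sumL]
    simp only [sumL_cons, sumL_nil, v5]
    linear_combination 0
  have y27 : θ (iotaD k (Yv k 27)) = Y 27 := by
    rw [iota_Y (by norm_num)]
    change θ (sumL (Xv k) [6]) = _
    rw [theta_sumL]
    simp only [sumL_cons, sumL_nil, v6]
    linear_combination 0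
  have y28 : θ (iotaD k (Yv k 28)) = Y 28 := by
    rw [iota_Y (by norm_num)]
    change θ (sumL (Xv k) [7]) = _
    rw [theta_sumL]
    simp only [sumL_cons, sumL_nil, v7]
    linear_combination 0
  have y29 : θ (iotaD k (Yv k 29)) = Y 29 := by
    rw [iota_Y (by norm_num)]
    change θ (sumL (Xv k) [21]) = _
    rw [theta_sumL]
    simp only [sumL_cons, sumL_nil, v21]
    linear_combination 0
  have y30 : θ (iotaD k (Yv k 30)) = Y 30 := by
    rw [iota_Y (by norm_num)]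
    change θ (sumL (Xv k) [22]) = _
    rw [theta_sumL]
    simp only [sumL_cons, sumL_nil, v22]
    linear_combination 0
  have y31 : θ (iotaD k (Yv k 31)) = Y 31 := by
    rw [iota_Y (by norm_num)]
    change θ (sumL (Xv k) [23]) = _
    rw [theta_sumL]
    simp only [sumL_cons, sumL_nil, v23]
    linear_combination 0
  have y32 : θ (iotaD k (Yv k 32)) = Y 32 := by
    rw [iota_Y (by norm_num)]
    change θ (sumL (Xv k) [37]) = _
    rw [theta_sumL]
    simp only [sumL_cons, sumL_nil, v37]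
    linear_combination 0
  have y33 : θ (iotaD k (Yv k 33)) = Y 33 := by
    rw [iota_Y (by norm_num)]
    change θ (sumL (Xv k) [38]) = _
    rw [theta_sumL]
    simp only [sumL_cons, sumL_nil, v38]
    linear_combination 0
  have y34 : θ (iotaD k (Yv k 34)) = Y 34 := by
    rw [iota_Y (by norm_num)]
    change θ (sumL (Xv k) [39]) = _
    rw [theta_sumL]
    simp only [sumL_cons, sumL_nil, v39]
    linear_combination 0
  have y35 : θ (iotaD k (Yv k 35)) = Y 35 := by
    rw [iota_Y (by norm_num)]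
    change θ (sumL (Xv k) [31]) = _
    rw [theta_sumL]
    simp only [sumL_cons, sumL_nil, v31]
    linear_combination 0
  have y36 : θ (iotaD k (Yv k 36)) = Y 36 := by
    rw [iota_Y (by norm_num)]
    change θ (sumL (Xv k) [47]) = _
    rw [theta_sumL]
    simp only [sumL_cons, sumL_nil, v47]
    linear_combination 0
  have y37 : θ (iotaD k (Yv k 37)) = Y 37 := by
    rw [iota_Y (by norm_num)]
    change θ (sumL (Xv k) [46]) = _
    rw [theta_sumL]
    simp only [sumL_cons, sumL_nil, v46]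
    linear_combination 0
  have y38 : θ (iotaD k (Yv k 38)) = Y 38 := by
    rw [iota_Y (by norm_num)]
    change θ (sumL (Xv k) [87]) = _
    rw [theta_sumL]
    simp only [sumL_cons, sumL_nil, v87]
    linear_combination 0
  have y39 : θ (iotaD k (Yv k 39)) = Y 39 := by
    rw [iota_Y (by norm_num)]
    change θ (sumL (Xv k) [86]) = _
    rw [theta_sumL]
    simp only [sumL_cons, sumL_nil, v86]
    linear_combination 0
  have y40 : θ (iotaD k (Yv k 40)) = Y 40 := by
    rw [iota_Y (by norm_num)]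
    change θ (sumL (Xv k) [85]) = _
    rw [theta_sumL]
    simp only [sumL_cons, sumL_nil, v85]
    linear_combination 0
  have y41 : θ (iotaD k (Yv k 41)) = Y 41 := by
    rw [iota_Y (by norm_num)]
    change θ (sumL (Xv k) [9]) = _
    rw [theta_sumL]
    simp only [sumL_cons, sumL_nil, v9]
    linear_combination 0
  intro i hi
  interval_cases i
  · rw [if_pos (by decide)]
    exact y0
  · rw [if_pos (by decide)]
    exact y1
  · rw [if_pos (by decide)]
    exact y2
  · rw [if_pos (by decide)]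
    exact y3
  · rw [if_neg (by decide)]
    exact y4
  · rw [if_pos (by decide)]
    exact y5
  · rw [if_pos (by decide)]
    exact y6
  · rw [if_pos (by decide)]
    exact y7
  · rw [if_pos (by decide)]
    exact y8
  · rw [if_neg (by decide)]
    exact y9
  · rw [if_pos (by decide)]
    exact y10
  · rw [if_pos (by decide)]
    exact y11
  · rw [if_pos (by decide)]
    exact y12
  · rw [if_pos (by decide)]
    exact y13
  · rw [if_neg (by decide)]
    exact y14
  · rw [if_neg (by decide)]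
    exact y15
  · rw [if_neg (by decide)]
    exact y16
  · rw [if_neg (by decide)]
    exact y17
  · rw [if_pos (by decide)]
    exact y18
  · rw [if_neg (by decide)]
    exact y19
  · rw [if_neg (by decide)]
    exact y20
  · rw [if_pos (by decide)]
    exact y21
  · rw [if_neg (by decide)]
    exact y22
  · rw [if_pos (by decide)]
    exact y23
  · rw [if_pos (by decide)]
    exact y24
  · rw [if_pos (by decide)]
    exact y25
  · rw [if_neg (by decide)]
    exact y26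
  · rw [if_neg (by decide)]
    exact y27
  · rw [if_neg (by decide)]
    exact y28
  · rw [if_neg (by decide)]
    exact y29
  · rw [if_neg (by decide)]
    exact y30
  · rw [if_neg (by decide)]
    exact y31
  · rw [if_neg (by decide)]
    exact y32
  · rw [if_neg (by decide)]
    exact y33
  · rw [if_neg (by decide)]
    exact y34
  · rw [if_neg (by decide)]
    exact y35
  · rw [if_neg (by decide)]
    exact y36
  · rw [if_neg (by decide)]
    exact y37
  · rw [if_neg (by decide)]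
    exact y38
  · rw [if_neg (by decide)]
    exact y39
  · rw [if_neg (by decide)]
    exact y40
  · rw [if_neg (by decide)]
    exact y41

end Spec

end Pool.Agent.Helper28.Hilb8.D
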